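import Mathlib

/-!
Which Leibniz algebras come from affine algebraic racks?

Over an arbitrary field `k`, a Leibniz algebra is isomorphic to the Leibniz algebra of an affine
algebraic rack (a rack object in affine `k`-schemes of finite type, with base point) if and only if
it is finite-dimensional. The rack attached to a finite-dimensional Leibniz algebra `q` is the first
order neighbourhood `Spec (k ⊕ q*)` of the origin in `q`, with the operation `x ▷ y = y + [x, y]`.

Throughout, an `R`-valued point of `Q = Spec A` (for a commutative `k`-algebra `R`) is a `k`-algebra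
map `A → R`, and for two such points `x ▷ y` is the point `A → A ⊗ A → R` obtained by composing the
pullback `∇` of `▷` with `(x, y)`.
-/

open scoped TensorProduct

namespace Pool.Agent.Lib.H33S

universe u v

/-- The `R`-valued point `(x, y)` of `Q × Q = Spec (A ⊗ A)` attached to the `R`-valued points `x`, `y` of
`Q = Spec A`. -/
def pair {k A R : Type u} [Field k] [CommRing A] [Algebra k A] [CommRing R] [Algebra k R]
    (x y : A →ₐ[k] R) : A ⊗[k] A →ₐ[k] R :=
  Algebra.TensorProduct.lift x y (fun _ _ => Commute.all _ _)

/-- For points `x`, `y` of `Q = Spec A` with values in `R`, the point `x * y` where `*` is the binary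
operation `Q × Q → Q` whose pullback is `m : A → A ⊗ A`. -/
def op {k A R : Type u} [Field k] [CommRing A] [Algebra k A] [CommRing R] [Algebra k R]
    (m : A →ₐ[k] A ⊗[k] A) (x y : A →ₐ[k] R) : A →ₐ[k] R :=
  (pair x y).comp m

theorem op_apply {k A R : Type u} [Field k] [CommRing A] [Algebra k A] [CommRing R] [Algebra k R]
    (m : A →ₐ[k] A ⊗[k] A) (x y : A →ₐ[k] R) (f : A) : op m x y f = pair x y (m f) := rfl

/-- The base point `e`, given by `ε : A → k`, seen as an `R`-valued point. -/
def basePt {k A : Type u} (R : Type u) [Field k] [CommRing A] [Algebra k A] [CommRing R] [Algebra k R]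
    (ε : A →ₐ[k] k) : A →ₐ[k] R :=
  (Algebra.ofId k R).comp ε

/-- The structure of an algebraic rack on the affine `k`-scheme `Q = Spec A`: a `k`-point `e` (the map
`ε`) and morphisms `▷, ▷⁻¹ : Q × Q → Q` (with pullbacks `nabla` and `nablaInv`) satisfying the rack
identities for all points with values in any commutative `k`-algebra `R`. For points `x`, `y` with
values in `R`, the point `x ▷ y` is `op nabla x y` and the point `x ▷⁻¹ y` is `op nablaInv x y`. -/
structure AffineRack (k A : Type u) [Field k] [CommRing A] [Algebra k A] where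
  /-- the `k`-point `e` -/
  ε : A →ₐ[k] k
  /-- the pullback of the morphism `▷ : Q × Q → Q` -/
  nabla : A →ₐ[k] A ⊗[k] A
  /-- the pullback of the morphism `▷⁻¹ : Q × Q → Q` -/
  nablaInv : A →ₐ[k] A ⊗[k] A
  /-- `(x ▷ y) ▷⁻¹ x = y` -/
  inv_op : ∀ (R : Type u) [CommRing R] [Algebra k R] (x y : A →ₐ[k] R),
    op nablaInv (op nabla x y) x = y
  /-- `x ▷ (y ▷⁻¹ x) = y` -/
  op_inv : ∀ (R : Type u) [CommRing R] [Algebra k R] (x y : A →ₐ[k] R),
    op nabla x (op nablaInv y x) = y
  /-- `x ▷ (y ▷ z) = (x ▷ y) ▷ (x ▷ z)` -/
  op_distrib : ∀ (R : Type u) [CommRing R] [Algebra k R] (x y z : A →ₐ[k] R),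
    op nabla x (op nabla y z) = op nabla (op nabla x y) (op nabla x z)
  /-- `(x ▷⁻¹ y) ▷⁻¹ z = (x ▷⁻¹ z) ▷⁻¹ (y ▷⁻¹ z)` -/
  inv_distrib : ∀ (R : Type u) [CommRing R] [Algebra k R] (x y z : A →ₐ[k] R),
    op nablaInv (op nablaInv x y) z = op nablaInv (op nablaInv x z) (op nablaInv y z)
  /-- `e ▷ x = x` -/
  base_op : ∀ (R : Type u) [CommRing R] [Algebra k R] (x : A →ₐ[k] R),
    op nabla (basePt R ε) x = x
  /-- `x ▷ e = e` -/
  op_base : ∀ (R : Type u) [CommRing R] [Algebra k R] (x : A →ₐ[k] R),
    op nabla x (basePt R ε) = basePt R ε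

namespace AffineRack

variable {k A : Type u} [Field k] [CommRing A] [Algebra k A]

/-- `D : A → k` is a derivation at the point `ε`: `D (f g) = D(f) ε(g) + ε(f) D(g)`. -/
def IsDer (ε : A →ₐ[k] k) (D : A →ₗ[k] k) : Prop :=
  ∀ f g : A, D (f * g) = D f * ε g + ε f * D g

theorem IsDer.add {ε : A →ₐ[k] k} {D E : A →ₗ[k] k} (hD : IsDer ε D) (hE : IsDer ε E) :
    IsDer ε (D + E) := by
  intro f g
  simp only [LinearMap.add_apply]
  rw [hD, hE]; ring

theorem isDer_zero (ε : A →ₐ[k] k) : IsDer ε (0 : A →ₗ[k] k) := by
  intro f g; simp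

theorem IsDer.smul {ε : A →ₐ[k] k} (c : k) {D : A →ₗ[k] k} (hD : IsDer ε D) :
    IsDer ε (c • D) := by
  intro f g
  simp only [LinearMap.smul_apply, smul_eq_mul]
  rw [hD]; ring

/-- The tangent space `Der_k(A, k)` of `Spec A` at the point `ε`: all `k`-linear `D : A → k` with
`D (f g) = D(f) ε(g) + ε(f) D(g)`. -/
def tangent (ε : A →ₐ[k] k) : Submodule k (A →ₗ[k] k) where
  carrier := {D | IsDer ε D}
  add_mem' := IsDer.add
  zero_mem' := isDer_zero ε
  smul_mem' := IsDer.smul

/-- The linear functional `(D ⊗ E) ∘ m` on `A` (where `k ⊗ k = k`), for `m : A → A ⊗ A`. -/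
def bracketFun (m : A →ₐ[k] A ⊗[k] A) (D E : A →ₗ[k] k) : A →ₗ[k] k :=
  LinearMap.mul' k k ∘ₗ TensorProduct.map D E ∘ₗ m.toLinearMap

variable {Q : AffineRack k A}

theorem tangent_one {D : A →ₗ[k] k} (hD : D ∈ tangent Q.ε) : D 1 = 0 := by
  have h := hD 1 1
  simp only [mul_one, map_one, one_mul] at h
  simpa using h

/-- `(ε ⊗ ε) ∘ ∇ = ε`. -/
theorem eps_eps (f : A) :
    LinearMap.mul' k k (TensorProduct.map Q.ε.toLinearMap Q.ε.toLinearMap (Q.nabla f)) = Q.ε f := by
  have h := DFunLike.congr_fun (Q.base_op k Q.ε) f
  have h2 : ∀ t : A ⊗[k] A, pair (basePt k Q.ε) Q.ε t =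
      LinearMap.mul' k k (TensorProduct.map Q.ε.toLinearMap Q.ε.toLinearMap t) := by
    intro t
    induction t using TensorProduct.induction_on with
    | zero => simp
    | add a b ha hb => simp only [map_add, ha, hb]
    | tmul a b => simp [pair, basePt]
  rw [op, AlgHom.comp_apply, h2] at h
  exact h

/-- `(ε ⊗ E) ∘ ∇ = E`. -/
theorem eps_fun (E : A →ₗ[k] k) (f : A) :
    LinearMap.mul' k k (TensorProduct.map Q.ε.toLinearMap E (Q.nabla f)) = E f := by
  have h := congrArg E (DFunLike.congr_fun (Q.base_op A (AlgHom.id k A)) f)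
  have h2 : ∀ t : A ⊗[k] A, E (pair (basePt A Q.ε) (AlgHom.id k A) t) =
      LinearMap.mul' k k (TensorProduct.map Q.ε.toLinearMap E t) := by
    intro t
    induction t using TensorProduct.induction_on with
    | zero => simp
    | add a b ha hb => simp only [map_add, ha, hb]
    | tmul a b =>
      simp [pair, basePt, Algebra.ofId_apply, ← Algebra.smul_def]
  rw [op, AlgHom.comp_apply, h2] at h
  exact h

/-- `(D ⊗ ε) ∘ ∇ = 0` for a tangent vector `D`. -/
theorem fun_eps {D : A →ₗ[k] k} (hD : D ∈ tangent Q.ε) (f : A) :
    LinearMap.mul' k k (TensorProduct.map D Q.ε.toLinearMap (Q.nabla f)) = 0 := by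
  have h := congrArg D (DFunLike.congr_fun (Q.op_base A (AlgHom.id k A)) f)
  have h2 : ∀ t : A ⊗[k] A, D (pair (AlgHom.id k A) (basePt A Q.ε) t) =
      LinearMap.mul' k k (TensorProduct.map D Q.ε.toLinearMap t) := by
    intro t
    induction t using TensorProduct.induction_on with
    | zero => simp
    | add a b ha hb => simp only [map_add, ha, hb]
    | tmul a b =>
      simp [pair, basePt, Algebra.ofId_apply, mul_comm a, ← Algebra.smul_def, mul_comm (D a)]
  rw [op, AlgHom.comp_apply, h2] at h
  rw [h]
  have : (basePt A Q.ε) f = Q.ε f • (1 : A) := by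
    simp [basePt, Algebra.ofId_apply, Algebra.smul_def]
  rw [this, map_smul, tangent_one hD, smul_zero]

/-- `Der_k(A,k)` is closed under the bracket. -/
theorem bracketFun_mem {D E : A →ₗ[k] k} (hD : D ∈ tangent Q.ε) (hE : E ∈ tangent Q.ε) :
    bracketFun Q.nabla D E ∈ tangent Q.ε := by
  have key : ∀ a b : A ⊗[k] A,
      LinearMap.mul' k k (TensorProduct.map D E (a * b)) =
        LinearMap.mul' k k (TensorProduct.map D E a) *
            LinearMap.mul' k k (TensorProduct.map Q.ε.toLinearMap Q.ε.toLinearMap b)
        + LinearMap.mul' k k (TensorProduct.map D Q.ε.toLinearMap a) *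
            LinearMap.mul' k k (TensorProduct.map Q.ε.toLinearMap E b)
        + LinearMap.mul' k k (TensorProduct.map Q.ε.toLinearMap E a) *
            LinearMap.mul' k k (TensorProduct.map D Q.ε.toLinearMap b)
        + LinearMap.mul' k k (TensorProduct.map Q.ε.toLinearMap Q.ε.toLinearMap a) *
            LinearMap.mul' k k (TensorProduct.map D E b) := by
    intro a b
    induction a using TensorProduct.induction_on with
    | zero => simp
    | add a₁ a₂ h₁ h₂ => simp only [add_mul, map_add, h₁, h₂]; ring
    | tmul f₁ f₂ =>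
      induction b using TensorProduct.induction_on with
      | zero => simp
      | add b₁ b₂ h₁ h₂ => simp only [mul_add, map_add, h₁, h₂]; ring
      | tmul g₁ g₂ =>
        simp only [Algebra.TensorProduct.tmul_mul_tmul, TensorProduct.map_tmul,
          LinearMap.mul'_apply, AlgHom.toLinearMap_apply, hD f₁ g₁, hE f₂ g₂]
        ring
  intro f g
  simp only [bracketFun, LinearMap.comp_apply, AlgHom.toLinearMap_apply, map_mul]
  rw [key, eps_eps, eps_eps, eps_fun, eps_fun, fun_eps hD, fun_eps hD]
  ring

/-- The Leibniz identity for the bracket, on the level of functionals. -/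
theorem bracketFun_leibniz {X Y Z : A →ₗ[k] k} (hX : X ∈ tangent Q.ε) :
    bracketFun Q.nabla X (bracketFun Q.nabla Y Z) =
      bracketFun Q.nabla (bracketFun Q.nabla X Y) Z + bracketFun Q.nabla Y (bracketFun Q.nabla X Z) := by
  -- the three tautological points of `Q` with values in `A ⊗ (A ⊗ A)`
  let x : A →ₐ[k] A ⊗[k] (A ⊗[k] A) := Algebra.TensorProduct.includeLeft
  let y : A →ₐ[k] A ⊗[k] (A ⊗[k] A) :=
    (Algebra.TensorProduct.includeRight).comp Algebra.TensorProduct.includeLeft
  let z : A →ₐ[k] A ⊗[k] (A ⊗[k] A) :=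
    (Algebra.TensorProduct.includeRight).comp Algebra.TensorProduct.includeRight
  -- the functional `X ⊗ (Y ⊗ Z)`
  let T : A ⊗[k] (A ⊗[k] A) →ₗ[k] k :=
    LinearMap.mul' k k ∘ₗ TensorProduct.map X (LinearMap.mul' k k ∘ₗ TensorProduct.map Y Z)
  apply LinearMap.ext
  intro f
  have h := congrArg T (DFunLike.congr_fun (Q.op_distrib _ x y z) f)
  have hL0 : ∀ t : A ⊗[k] A, pair y z t = 1 ⊗ₜ[k] t := by
    intro t
    induction t using TensorProduct.induction_on with
    | zero => simp
    | add a b ha hb => simp only [map_add, ha, hb, TensorProduct.tmul_add]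
    | tmul a b => simp [pair, y, z]
  have hL : ∀ t : A ⊗[k] A, T (pair x (op Q.nabla y z) t) =
      LinearMap.mul' k k (TensorProduct.map X (bracketFun Q.nabla Y Z) t) := by
    intro t
    induction t using TensorProduct.induction_on with
    | zero => simp
    | add a b ha hb => simp only [map_add, ha, hb]
    | tmul a b =>
      simp only [op, pair, Algebra.TensorProduct.lift_tmul, AlgHom.comp_apply]
      have := hL0 (Q.nabla b)
      simp only [pair] at this
      rw [this]
      simp [x, T, bracketFun]
  have hR0 : ∀ s t : A ⊗[k] A, T (pair x y s * pair x z t) =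
      LinearMap.mul' k k (TensorProduct.map X Y s) *
          LinearMap.mul' k k (TensorProduct.map Q.ε.toLinearMap Z t) +
        LinearMap.mul' k k (TensorProduct.map Q.ε.toLinearMap Y s) *
          LinearMap.mul' k k (TensorProduct.map X Z t) := by
    intro s t
    induction s using TensorProduct.induction_on with
    | zero => simp
    | add a₁ a₂ h₁ h₂ => simp only [add_mul, map_add, h₁, h₂]; ring
    | tmul a b =>
      induction t using TensorProduct.induction_on with
      | zero => simp
      | add b₁ b₂ h₁ h₂ => simp only [mul_add, map_add, h₁, h₂]; ring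
      | tmul c d =>
        simp only [pair, Algebra.TensorProduct.lift_tmul, x, y, z, T,
          Algebra.TensorProduct.includeLeft_apply, AlgHom.comp_apply,
          Algebra.TensorProduct.includeRight_apply, Algebra.TensorProduct.tmul_mul_tmul, mul_one,
          one_mul, LinearMap.comp_apply, TensorProduct.map_tmul, LinearMap.mul'_apply,
          AlgHom.toLinearMap_apply, hX a c]
        ring
  have hR : ∀ t : A ⊗[k] A,
      T (pair (op Q.nabla x y) (op Q.nabla x z) t) =
      LinearMap.mul' k k (TensorProduct.map (bracketFun Q.nabla X Y) Z t) +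
        LinearMap.mul' k k (TensorProduct.map Y (bracketFun Q.nabla X Z) t) := by
    intro t
    induction t using TensorProduct.induction_on with
    | zero => simp
    | add a b ha hb => simp only [map_add, ha, hb]; ring
    | tmul a b =>
      have h1 : pair (op Q.nabla x y) (op Q.nabla x z) (a ⊗ₜ[k] b) =
          pair x y (Q.nabla a) * pair x z (Q.nabla b) := by
        conv_lhs => rw [pair]
        rw [Algebra.TensorProduct.lift_tmul]
        rfl
      rw [h1, hR0, eps_fun, eps_fun]
      simp [bracketFun]
  rw [op_apply, op_apply, hL, hR] at h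
  exact h

variable (Q)

/-- The bracket `[D, E] = (D ⊗ E) ∘ ∇` on `Der_k(A, k)`. -/
def bracket (D E : tangent Q.ε) : tangent Q.ε :=
  ⟨bracketFun Q.nabla D.1 E.1, bracketFun_mem D.2 E.2⟩

theorem bracket_add_left (D D' E : tangent Q.ε) :
    Q.bracket (D + D') E = Q.bracket D E + Q.bracket D' E :=
  Subtype.ext (by
    simp [bracket, bracketFun, TensorProduct.map_add_left, LinearMap.add_comp, LinearMap.comp_add])

theorem bracket_add_right (D E E' : tangent Q.ε) :
    Q.bracket D (E + E') = Q.bracket D E + Q.bracket D E' :=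
  Subtype.ext (by
    simp [bracket, bracketFun, TensorProduct.map_add_right, LinearMap.add_comp, LinearMap.comp_add])

theorem bracket_smul_left (a : k) (D E : tangent Q.ε) :
    Q.bracket (a • D) E = a • Q.bracket D E :=
  Subtype.ext (by
    simp [bracket, bracketFun, TensorProduct.map_smul_left, LinearMap.smul_comp,
      LinearMap.comp_smul])

theorem bracket_smul_right (a : k) (D E : tangent Q.ε) :
    Q.bracket D (a • E) = a • Q.bracket D E :=
  Subtype.ext (by
    simp [bracket, bracketFun, TensorProduct.map_smul_right, LinearMap.smul_comp,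
      LinearMap.comp_smul])

theorem bracket_leibniz (X Y Z : tangent Q.ε) :
    Q.bracket X (Q.bracket Y Z) = Q.bracket (Q.bracket X Y) Z + Q.bracket Y (Q.bracket X Z) :=
  Subtype.ext (bracketFun_leibniz X.2)

end AffineRack

/-- A (left) Leibniz algebra structure on the `k`-vector space `q` (of any dimension): a bilinear
bracket with `[x, [y, z]] = [[x, y], z] + [y, [x, z]]`. -/
structure LeibnizAlgebra (k : Type u) [Field k] (q : Type v) [AddCommGroup q] [Module k q] where
  /-- the bracket `[x, y]` -/
  bracket : q →ₗ[k] q →ₗ[k] q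
  /-- `[x, [y, z]] = [[x, y], z] + [y, [x, z]]` -/
  leibniz : ∀ x y z : q,
    bracket x (bracket y z) = bracket (bracket x y) z + bracket y (bracket x z)

/-- The Leibniz algebra `𝔮_Q = Der_k(A, k)` of the affine algebraic rack `Q = Spec A`, with bracket
`[D, E] = (D ⊗ E) ∘ ∇`. -/
def AffineRack.leibnizAlgebra {k A : Type u} [Field k] [CommRing A] [Algebra k A]
    (Q : AffineRack k A) : LeibnizAlgebra k (AffineRack.tangent Q.ε) where
  bracket := LinearMap.mk₂ k Q.bracket Q.bracket_add_left Q.bracket_smul_left Q.bracket_add_right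
    Q.bracket_smul_right
  leibniz := Q.bracket_leibniz

/-- Two Leibniz algebras over `k` are isomorphic: there is a `k`-linear bijection that preserves the
brackets. -/
def LeibnizAlgebra.Iso {k : Type u} [Field k] {q : Type v} [AddCommGroup q] [Module k q]
    {q' : Type u} [AddCommGroup q'] [Module k q'] (L : LeibnizAlgebra k q)
    (L' : LeibnizAlgebra k q') : Prop :=
  ∃ φ : q ≃ₗ[k] q', ∀ x y : q, φ (L.bracket x y) = L'.bracket (φ x) (φ y)

/-- The `k`-algebra `A` is of finite type and `L` is isomorphic to the Leibniz algebra of some algebraic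
rack with underlying scheme `Spec A`. -/
def LeibnizAlgebra.AlgebraicWith {k : Type u} [Field k] {q : Type v} [AddCommGroup q] [Module k q]
    (L : LeibnizAlgebra k q) (A : Type u) [CommRing A] [Algebra k A] : Prop :=
  Algebra.FiniteType k A ∧ ∃ Q : AffineRack k A, L.Iso Q.leibnizAlgebra

/-- A Leibniz algebra `L` over `k` is algebraic if it is isomorphic to the Leibniz algebra of some
affine algebraic rack `Q = Spec A`, with `A` a commutative `k`-algebra of finite type. -/
def LeibnizAlgebra.IsAlgebraic {k : Type u} [Field k] {q : Type v} [AddCommGroup q] [Module k q]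
    (L : LeibnizAlgebra k q) : Prop :=
  ∃ (A : Type u) (_ : CommRing A) (_ : Algebra k A), L.AlgebraicWith A

section finite

variable {k A : Type u} [Field k] [CommRing A] [Algebra k A] [h : Algebra.FiniteType k A]
  (Q : AffineRack k A)

theorem finiteDimensional_tangent : FiniteDimensional k (AffineRack.tangent Q.ε) := by
  obtain ⟨s, hs⟩ := h.out
  let r : AffineRack.tangent Q.ε →ₗ[k] (s → k) :=
    { toFun := fun D i => D.1 i.1
      map_add' := by intro D E; ext i; simp
      map_smul' := by intro c D; ext i; simp }
  have hr : Function.Injective r := by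
    rw [injective_iff_map_eq_zero]
    intro D hD
    have h0 : ∀ f : A, D.1 f = 0 := by
      intro f
      have hf : f ∈ Algebra.adjoin k (s : Set A) := by rw [hs]; trivial
      induction hf using Algebra.adjoin_induction with
      | mem x hx => exact congrFun hD ⟨x, hx⟩
      | algebraMap c =>
        rw [Algebra.algebraMap_eq_smul_one, map_smul, AffineRack.tangent_one D.2, smul_zero]
      | add x y _ _ hx hy => rw [map_add, hx, hy, add_zero]
      | mul x y _ _ hx hy => rw [D.2 x y, hx, hy]; simp
    apply Subtype.ext
    exact LinearMap.ext h0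
  exact FiniteDimensional.of_injective r hr

end finite

section construction

variable {k : Type u} [Field k] {n : ℕ}

/-- The `R`-bilinear extension of the bracket with structure constants `c`. -/
def brk (c : Fin n → Fin n → Fin n → k) {R : Type u} [CommRing R] [Algebra k R]
    (X Y : Fin n → R) : Fin n → R :=
  fun l => ∑ i, ∑ j, c i j l • (X i * Y j)

section brk

variable (c : Fin n → Fin n → Fin n → k) {R : Type u} [CommRing R] [Algebra k R]

theorem brk_add_left (X X' Y : Fin n → R) : brk c (X + X') Y = brk c X Y + brk c X' Y := by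
  funext l
  simp only [brk, Pi.add_apply, add_mul, smul_add, Finset.sum_add_distrib]

theorem brk_add_right (X Y Y' : Fin n → R) : brk c X (Y + Y') = brk c X Y + brk c X Y' := by
  funext l
  simp only [brk, Pi.add_apply, mul_add, smul_add, Finset.sum_add_distrib]

theorem brk_neg_left (X Y : Fin n → R) : brk c (-X) Y = -brk c X Y := by
  funext l
  simp only [brk, Pi.neg_apply, neg_mul, smul_neg, Finset.sum_neg_distrib]

theorem brk_neg_right (X Y : Fin n → R) : brk c X (-Y) = -brk c X Y := by
  funext l
  simp only [brk, Pi.neg_apply, mul_neg, smul_neg, Finset.sum_neg_distrib]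

/-- If all products `X i * X' j` vanish then `[X, [X', Y]] = 0`. -/
theorem brk_brk_zero (X X' Y : Fin n → R) (h : ∀ i j, X i * X' j = 0) :
    brk c X (brk c X' Y) = 0 := by
  funext l
  simp only [brk, Pi.zero_apply]
  refine Finset.sum_eq_zero fun i _ => Finset.sum_eq_zero fun j _ => ?_
  rw [Finset.mul_sum, Finset.sum_eq_zero, smul_zero]
  intro a _
  rw [Finset.mul_sum, Finset.sum_eq_zero]
  intro b _
  rw [mul_smul_comm, ← mul_assoc, h, zero_mul, smul_zero]

/-- If all products `X i * X' j` vanish then `[[X, Y], [X', Z]] = 0`. -/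
theorem brk_brk_brk_zero (X X' Y Z : Fin n → R) (h : ∀ i j, X i * X' j = 0) :
    brk c (brk c X Y) (brk c X' Z) = 0 := by
  funext l
  simp only [brk, Pi.zero_apply]
  refine Finset.sum_eq_zero fun i _ => Finset.sum_eq_zero fun j _ => ?_
  rw [Finset.sum_mul, Finset.sum_eq_zero, smul_zero]
  intro a _
  rw [Finset.sum_mul, Finset.sum_eq_zero]
  intro b _
  rw [Finset.mul_sum, Finset.sum_eq_zero]
  intro a' _
  rw [Finset.mul_sum, Finset.sum_eq_zero]
  intro b' _
  rw [smul_mul_smul_comm, mul_mul_mul_comm, h, zero_mul, smul_zero]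

/-- Leibniz identity for the extended bracket. -/
theorem brk_leibniz
    (hc : ∀ i a b l, ∑ j, c a b j * c i j l = ∑ j, c i a j * c j b l + ∑ j, c i b j * c a j l)
    (X Y Z : Fin n → R) :
    brk c X (brk c Y Z) = brk c (brk c X Y) Z + brk c Y (brk c X Z) := by
  have e1 : ∀ l, brk c X (brk c Y Z) l =
      ∑ i, ∑ a, ∑ b, (∑ j, c a b j * c i j l) • (X i * Y a * Z b) := by
    intro l
    simp only [brk]
    refine Finset.sum_congr rfl fun i _ => ?_
    simp only [Finset.mul_sum, Finset.smul_sum, Finset.sum_smul]
    rw [Finset.sum_comm]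
    refine Finset.sum_congr rfl fun a _ => ?_
    rw [Finset.sum_comm]
    refine Finset.sum_congr rfl fun b _ => ?_
    refine Finset.sum_congr rfl fun j _ => ?_
    rw [mul_smul_comm, smul_smul, mul_comm (c a b j), mul_assoc]
  have e2 : ∀ l, brk c (brk c X Y) Z l =
      ∑ i, ∑ a, ∑ b, (∑ j, c i a j * c j b l) • (X i * Y a * Z b) := by
    intro l
    simp only [brk]
    have : ∀ j, ∑ b, c j b l • ((∑ i, ∑ a, c i a j • (X i * Y a)) * Z b) =
        ∑ i, ∑ a, ∑ b, (c i a j * c j b l) • (X i * Y a * Z b) := by
      intro j
      simp only [Finset.sum_mul, Finset.smul_sum]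
      rw [Finset.sum_comm]
      refine Finset.sum_congr rfl fun i _ => ?_
      rw [Finset.sum_comm]
      refine Finset.sum_congr rfl fun a _ => ?_
      refine Finset.sum_congr rfl fun b _ => ?_
      rw [smul_mul_assoc, smul_smul, mul_comm (c j b l)]
    rw [Finset.sum_congr rfl fun j _ => this j, Finset.sum_comm]
    refine Finset.sum_congr rfl fun i _ => ?_
    rw [Finset.sum_comm]
    refine Finset.sum_congr rfl fun a _ => ?_
    rw [Finset.sum_comm]
    refine Finset.sum_congr rfl fun b _ => ?_
    rw [Finset.sum_smul]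
  have e3 : ∀ l, brk c Y (brk c X Z) l =
      ∑ i, ∑ a, ∑ b, (∑ j, c i b j * c a j l) • (X i * Y a * Z b) := by
    intro l
    simp only [brk]
    rw [Finset.sum_comm (γ := Fin n) (s := Finset.univ) (t := Finset.univ)]
    have : ∀ j, ∑ a, c a j l • (Y a * ∑ i, ∑ b, c i b j • (X i * Z b)) =
        ∑ i, ∑ a, ∑ b, (c i b j * c a j l) • (X i * Y a * Z b) := by
      intro j
      simp only [Finset.mul_sum, Finset.smul_sum]
      rw [Finset.sum_comm]
      refine Finset.sum_congr rfl fun i _ => ?_
      refine Finset.sum_congr rfl fun a _ => ?_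
      refine Finset.sum_congr rfl fun b _ => ?_
      rw [mul_smul_comm, smul_smul, mul_comm (c a j l), ← mul_assoc, mul_comm (Y a)]
    rw [Finset.sum_congr rfl fun j _ => this j, Finset.sum_comm]
    refine Finset.sum_congr rfl fun i _ => ?_
    rw [Finset.sum_comm]
    refine Finset.sum_congr rfl fun a _ => ?_
    rw [Finset.sum_comm]
    refine Finset.sum_congr rfl fun b _ => ?_
    rw [Finset.sum_smul]
  funext l
  rw [Pi.add_apply, e1, e2, e3, ← Finset.sum_add_distrib]
  refine Finset.sum_congr rfl fun i _ => ?_
  rw [← Finset.sum_add_distrib]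
  refine Finset.sum_congr rfl fun a _ => ?_
  rw [← Finset.sum_add_distrib]
  refine Finset.sum_congr rfl fun b _ => ?_
  rw [← add_smul, hc]

end brk


/-- The coordinate ring `k ⊕ k^n` (with `k^n` of square zero) of the first order neighbourhood of the
origin of affine `n`-space. -/
abbrev Fat (k : Type u) [Field k] (n : ℕ) : Type u := TrivSqZeroExt k (Fin n → k)

/-- The `i`-th coordinate function on the fat point. -/
def coordFun (k : Type u) [Field k] (n : ℕ) (i : Fin n) : Fat k n :=
  TrivSqZeroExt.inr (Pi.single i 1)

theorem coordFun_mul (i j : Fin n) : coordFun k n i * coordFun k n j = 0 := by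
  simp [coordFun]

theorem inr_eq_sum (m : Fin n → k) :
    (TrivSqZeroExt.inr m : Fat k n) = ∑ i, m i • coordFun k n i := by
  have h : m = ∑ i, m i • (Pi.single i 1 : Fin n → k) := by
    funext j
    simp [Finset.sum_apply, Pi.single_apply]
  conv_lhs => rw [h]
  rw [← TrivSqZeroExt.inrHom_apply, map_sum]
  refine Finset.sum_congr rfl fun i _ => ?_
  rw [map_smul]
  rfl

section points

variable {R : Type u} [CommRing R] [Algebra k R]

/-- The coordinates of a point of the fat point. -/
def coord (x : Fat k n →ₐ[k] R) : Fin n → R := fun i => x (coordFun k n i)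

theorem coord_mul (x : Fat k n →ₐ[k] R) (i j : Fin n) : coord x i * coord x j = 0 := by
  rw [coord, coord, ← map_mul, coordFun_mul, map_zero]

theorem point_ext {x y : Fat k n →ₐ[k] R} (h : coord x = coord y) : x = y := by
  apply TrivSqZeroExt.algHom_ext
  intro m
  rw [inr_eq_sum, map_sum, map_sum]
  refine Finset.sum_congr rfl fun i _ => ?_
  rw [map_smul, map_smul]
  exact congrArg _ (congrFun h i)

/-- The point with given coordinates. -/
def ofCoord (X : Fin n → R) (hX : ∀ i j, X i * X j = 0) : Fat k n →ₐ[k] R :=
  TrivSqZeroExt.liftEquivOfComm ⟨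
    { toFun := fun m => ∑ i, m i • X i
      map_add' := by
        intro a b
        simp only [Pi.add_apply, add_smul, Finset.sum_add_distrib]
      map_smul' := by
        intro a b
        simp only [Pi.smul_apply, smul_eq_mul, mul_smul, Finset.smul_sum, RingHom.id_apply] },
    by
      intro a b
      simp only [LinearMap.coe_mk, AddHom.coe_mk, Finset.sum_mul, Finset.mul_sum,
        smul_mul_smul_comm, hX, smul_zero, Finset.sum_const_zero]⟩

theorem coord_ofCoord (X : Fin n → R) (hX : ∀ i j, X i * X j = 0) :
    coord (ofCoord (k := k) X hX) = X := by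
  funext i
  simp [coord, ofCoord, coordFun, TrivSqZeroExt.liftEquivOfComm_apply, Pi.single_apply]

theorem coord_comp {S : Type u} [CommRing S] [Algebra k S] (g : R →ₐ[k] S)
    (x : Fat k n →ₐ[k] R) : coord (g.comp x) = fun i => g (coord x i) := rfl

theorem coord_basePt : coord (basePt R (TrivSqZeroExt.fstHom k k (Fin n → k))) = 0 := by
  funext i
  simp [coord, basePt, coordFun]

end points

section operation

variable (c : Fin n → Fin n → Fin n → k)

/-- Coordinates of `x ▷ y`: `Y + [X, Y]`. -/
def opc {R : Type u} [CommRing R] [Algebra k R] (X Y : Fin n → R) : Fin n → R :=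
  Y + brk c X Y

/-- Coordinates of `x ▷⁻¹ y`: `X - [Y, X]`. -/
def opcInv {R : Type u} [CommRing R] [Algebra k R] (X Y : Fin n → R) : Fin n → R :=
  X - brk c Y X

theorem mul_brk_zero {R : Type u} [CommRing R] [Algebra k R] (X Y Y' : Fin n → R)
    (h : ∀ i j, Y i * Y' j = 0) (i j : Fin n) : Y i * brk c X Y' j = 0 := by
  rw [brk, Finset.mul_sum, Finset.sum_eq_zero]
  intro a _
  rw [Finset.mul_sum, Finset.sum_eq_zero]
  intro b _
  rw [mul_smul_comm, mul_left_comm, h, mul_zero, smul_zero]

theorem opc_mul {R : Type u} [CommRing R] [Algebra k R] (X Y : Fin n → R)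
    (hY : ∀ i j, Y i * Y j = 0) (i j : Fin n) : opc c X Y i * opc c X Y j = 0 := by
  have h1 := mul_brk_zero c X Y Y hY
  have h2 : ∀ i j, brk c X Y i * Y j = 0 := fun i j => by rw [mul_comm]; exact h1 j i
  have h3 := mul_brk_zero c X (brk c X Y) Y h2
  simp only [opc, Pi.add_apply, add_mul, mul_add, hY, h1, h2, h3, add_zero]

theorem opcInv_mul {R : Type u} [CommRing R] [Algebra k R] (X Y : Fin n → R)
    (hX : ∀ i j, X i * X j = 0) (i j : Fin n) : opcInv c X Y i * opcInv c X Y j = 0 := by
  have h1 := mul_brk_zero c Y X X hX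
  have h2 : ∀ i j, brk c Y X i * X j = 0 := fun i j => by rw [mul_comm]; exact h1 j i
  have h3 := mul_brk_zero c Y (brk c Y X) X h2
  simp only [opcInv, Pi.sub_apply, sub_mul, mul_sub, hX, h1, h2, h3, sub_zero]

/-- `f_i ⊗ 1`. -/
def left (k : Type u) [Field k] (n : ℕ) : Fin n → Fat k n ⊗[k] Fat k n :=
  fun i => coordFun k n i ⊗ₜ[k] 1

/-- `1 ⊗ f_i`. -/
def right (k : Type u) [Field k] (n : ℕ) : Fin n → Fat k n ⊗[k] Fat k n :=
  fun i => 1 ⊗ₜ[k] coordFun k n i

theorem left_mul (i j : Fin n) : left k n i * left k n j = 0 := by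
  simp [left, coordFun_mul]

theorem right_mul (i j : Fin n) : right k n i * right k n j = 0 := by
  simp [right, coordFun_mul]

/-- Comultiplication `∇` on the fat point. -/
def fatNabla : Fat k n →ₐ[k] Fat k n ⊗[k] Fat k n :=
  ofCoord (opc c (left k n) (right k n)) (opc_mul c _ _ right_mul)

/-- Comultiplication for `▷⁻¹` on the fat point. -/
def fatNablaInv : Fat k n →ₐ[k] Fat k n ⊗[k] Fat k n :=
  ofCoord (opcInv c (left k n) (right k n)) (opcInv_mul c _ _ left_mul)

theorem map_brk {R S : Type u} [CommRing R] [Algebra k R] [CommRing S] [Algebra k S]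
    (g : R →ₐ[k] S) (X Y : Fin n → R) (i : Fin n) :
    g (brk c X Y i) = brk c (fun j => g (X j)) (fun j => g (Y j)) i := by
  simp only [brk, map_sum, map_smul, map_mul]

theorem coord_op {R : Type u} [CommRing R] [Algebra k R] (x y : Fat k n →ₐ[k] R) :
    coord (op (fatNabla c) x y) = opc c (coord x) (coord y) := by
  rw [op, coord_comp, fatNabla, coord_ofCoord]
  funext i
  simp only [opc, Pi.add_apply, map_add, map_brk]
  congr 1
  · simp [pair, right, coord]
  · congr 1 <;> (funext j; simp [pair, left, right, coord])

theorem coord_opInv {R : Type u} [CommRing R] [Algebra k R] (x y : Fat k n →ₐ[k] R) :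
    coord (op (fatNablaInv c) x y) = opcInv c (coord x) (coord y) := by
  rw [op, coord_comp, fatNablaInv, coord_ofCoord]
  funext i
  simp only [opcInv, Pi.sub_apply, map_sub, map_brk]
  congr 1
  · simp [pair, left, coord]
  · congr 1 <;> (funext j; simp [pair, left, right, coord])

/-- The rack structure `x ▷ y = y + [x, y]` on the fat point. -/
def fatRack
    (hc : ∀ i a b l, ∑ j, c a b j * c i j l = ∑ j, c i a j * c j b l + ∑ j, c i b j * c a j l) :
    AffineRack k (Fat k n) where
  ε := TrivSqZeroExt.fstHom k k (Fin n → k)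
  nabla := fatNabla c
  nablaInv := fatNablaInv c
  inv_op := by
    intro R _ _ x y
    apply point_ext
    rw [coord_opInv, coord_op]
    simp only [opc, opcInv, brk_add_right, brk_brk_zero c _ _ _ (coord_mul x)]
    abel
  op_inv := by
    intro R _ _ x y
    apply point_ext
    rw [coord_op, coord_opInv]
    simp only [opc, opcInv, sub_eq_add_neg, brk_add_right, brk_neg_right,
      brk_brk_zero c _ _ _ (coord_mul x)]
    abel
  op_distrib := by
    intro R _ _ x y z
    apply point_ext
    simp only [coord_op]
    simp only [opc, brk_add_right, brk_add_left, brk_brk_brk_zero c _ _ _ _ (coord_mul x)]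
    rw [brk_leibniz c hc (coord x) (coord y) (coord z)]
    abel
  inv_distrib := by
    intro R _ _ x y z
    apply point_ext
    simp only [coord_opInv]
    simp only [opcInv, sub_eq_add_neg, brk_add_right, brk_add_left, brk_neg_left, brk_neg_right,
      brk_brk_brk_zero c _ _ _ _ (coord_mul z)]
    rw [brk_leibniz c hc (coord z) (coord y) (coord x)]
    abel
  base_op := by
    intro R _ _ x
    apply point_ext
    rw [coord_op, coord_basePt]
    funext i
    simp [opc, brk]
  op_base := by
    intro R _ _ x
    apply point_ext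
    rw [coord_op, coord_basePt]
    funext i
    simp [opc, brk]

end operation

section iso

variable (c : Fin n → Fin n → Fin n → k)
    (hc : ∀ i a b l, ∑ j, c a b j * c i j l = ∑ j, c i a j * c j b l + ∑ j, c i b j * c a j l)

/-- The tangent vector with coordinates `v`. -/
def tangentVec (v : Fin n → k) : Fat k n →ₗ[k] k :=
  { toFun := fun f => ∑ i, f.snd i * v i
    map_add' := by
      intro f g
      simp only [TrivSqZeroExt.snd_add, Pi.add_apply, add_mul, Finset.sum_add_distrib]
    map_smul' := by
      intro a f
      simp only [TrivSqZeroExt.snd_smul, Pi.smul_apply, smul_eq_mul, Finset.mul_sum, mul_assoc,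
        RingHom.id_apply] }

theorem tangentVec_apply (v : Fin n → k) (f : Fat k n) :
    tangentVec v f = ∑ i, f.snd i * v i := rfl

theorem tangentVec_coordFun (v : Fin n → k) (i : Fin n) : tangentVec v (coordFun k n i) = v i := by
  simp [tangentVec_apply, coordFun, Pi.single_apply]

theorem tangentVec_one (v : Fin n → k) : tangentVec v 1 = 0 := by
  simp [tangentVec_apply]

theorem tangentVec_mul (v : Fin n → k) (f g : Fat k n) :
    tangentVec v (f * g) = tangentVec v f * g.fst + f.fst * tangentVec v g := by
  simp only [tangentVec_apply, TrivSqZeroExt.snd_mul, Pi.add_apply,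
    Pi.smul_apply, smul_eq_mul, MulOpposite.smul_eq_mul_unop, MulOpposite.unop_op, add_mul,
    Finset.sum_add_distrib, Finset.mul_sum, Finset.sum_mul]
  rw [add_comm]
  congr 1
  · refine Finset.sum_congr rfl fun i _ => by ring
  · refine Finset.sum_congr rfl fun i _ => by ring

theorem tangentVec_add (v w : Fin n → k) : tangentVec (v + w) = tangentVec v + tangentVec w := by
  apply LinearMap.ext
  intro f
  simp only [LinearMap.add_apply, tangentVec_apply, Pi.add_apply, mul_add, Finset.sum_add_distrib]

theorem tangentVec_smul (a : k) (v : Fin n → k) : tangentVec (a • v) = a • tangentVec v := by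
  apply LinearMap.ext
  intro f
  simp only [LinearMap.smul_apply, tangentVec_apply, Pi.smul_apply, smul_eq_mul, Finset.mul_sum]
  exact Finset.sum_congr rfl fun i _ => by ring

theorem tangentVec_mem (v : Fin n → k) : tangentVec v ∈ AffineRack.tangent (fatRack c hc).ε :=
  fun f g => tangentVec_mul v f g

/-- A tangent vector is determined by its values on the coordinate functions. -/
theorem tangent_ext {D E : Fat k n →ₗ[k] k} (hD : D 1 = 0) (hE : E 1 = 0)
    (h : ∀ i, D (coordFun k n i) = E (coordFun k n i)) : D = E := by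
  apply TrivSqZeroExt.linearMap_ext
  · intro r
    have : (TrivSqZeroExt.inl r : Fat k n) = r • (1 : Fat k n) := by
      ext <;> simp
    rw [this, map_smul, map_smul, hD, hE]
  · intro m
    rw [inr_eq_sum, map_sum, map_sum]
    refine Finset.sum_congr rfl fun i _ => ?_
    rw [map_smul, map_smul, h]

/-- `k^n` is the tangent space of the fat point. -/
def tangentEquiv : (Fin n → k) ≃ₗ[k] AffineRack.tangent (fatRack c hc).ε where
  toFun v := ⟨tangentVec v, tangentVec_mem c hc v⟩
  map_add' := fun v w => Subtype.ext (tangentVec_add v w)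
  map_smul' := fun a v => Subtype.ext (tangentVec_smul a v)
  invFun D := fun i => D.1 (coordFun k n i)
  left_inv := by
    intro v
    funext i
    exact tangentVec_coordFun v i
  right_inv := by
    intro D
    apply Subtype.ext
    apply tangent_ext
    · exact tangentVec_one _
    · exact AffineRack.tangent_one D.2
    · intro i
      exact tangentVec_coordFun _ i

theorem bracket_coordFun (v w : Fin n → k) (l : Fin n) :
    AffineRack.bracketFun (fatRack c hc).nabla (tangentVec v) (tangentVec w) (coordFun k n l) =
      ∑ i, ∑ j, c i j l * (v i * w j) := by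
  change LinearMap.mul' k k (TensorProduct.map (tangentVec v) (tangentVec w)
    (fatNabla c (coordFun k n l))) = _
  have h : fatNabla c (coordFun k n l) = opc c (left k n) (right k n) l :=
    congrFun (coord_ofCoord (k := k) (opc c (left k n) (right k n)) (opc_mul c _ _ right_mul)) l
  rw [h]
  simp only [opc, brk, Pi.add_apply, left, right, map_add, map_sum, map_smul,
    Algebra.TensorProduct.tmul_mul_tmul, mul_one, one_mul, TensorProduct.map_tmul,
    tangentVec_coordFun, tangentVec_one, LinearMap.mul'_apply, zero_mul, zero_add, smul_eq_mul]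

end iso

end construction

/-- A Leibniz algebra over a field `k` (of any characteristic) is the Leibniz algebra of an affine
algebraic rack over `k` if and only if it is finite-dimensional. -/
theorem isAlgebraic_iff (k : Type u) [Field k] (q : Type v) [AddCommGroup q] [Module k q]
    (L : LeibnizAlgebra k q) : L.IsAlgebraic ↔ FiniteDimensional k q := by
  constructor
  · rintro ⟨A, _, _, _, Q, φ, -⟩
    have := finiteDimensional_tangent Q
    exact Module.Finite.equiv φ.symm
  · intro hfin
    let n := Module.finrank k q
    let b : Module.Basis (Fin n) k q := Module.finBasis k q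
    let c : Fin n → Fin n → Fin n → k := fun i j l => b.repr (L.bracket (b i) (b j)) l
    have hbr : ∀ x y l, b.repr (L.bracket x y) l =
        ∑ i, ∑ j, c i j l * (b.repr x i * b.repr y j) := by
      intro x y l
      change b.coord l (L.bracket x y) = _
      conv_lhs => rw [← b.sum_repr x, ← b.sum_repr y]
      simp only [map_sum, map_smul, LinearMap.sum_apply, LinearMap.smul_apply, smul_eq_mul,
        Finset.mul_sum]
      rw [Finset.sum_comm]
      refine Finset.sum_congr rfl fun i _ => Finset.sum_congr rfl fun j _ => ?_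
      simp only [c, Module.Basis.coord_apply]
      ring
    have hc : ∀ i a b l, ∑ j, c a b j * c i j l =
        ∑ j, c i a j * c j b l + ∑ j, c i b j * c a j l := by
      intro i a b' l
      have h := congrArg (fun x => b.repr x l) (L.leibniz (b i) (b a) (b b'))
      simp only [map_add, Finsupp.add_apply] at h
      have h1 : ∀ (i : Fin n) (y : q), b.repr (L.bracket (b i) y) l = ∑ j, b.repr y j * c i j l := by
        intro i y
        change b.coord l (L.bracket (b i) y) = _
        conv_lhs => rw [← b.sum_repr y]
        simp only [map_sum, map_smul, smul_eq_mul, c, Module.Basis.coord_apply]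
      have h2 : ∀ (x : q) (j : Fin n), b.repr (L.bracket x (b j)) l = ∑ i, b.repr x i * c i j l := by
        intro x j
        change b.coord l (L.bracket x (b j)) = _
        conv_lhs => rw [← b.sum_repr x]
        simp only [map_sum, map_smul, LinearMap.sum_apply, LinearMap.smul_apply, smul_eq_mul, c,
          Module.Basis.coord_apply]
      rw [h1, h2, h1] at h
      exact h
    have hft : Module.Finite k (Fat k n) := inferInstanceAs (Module.Finite k (k × (Fin n → k)))
    refine ⟨Fat k n, inferInstance, inferInstance, inferInstance, fatRack c hc,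
      b.equivFun.trans (tangentEquiv c hc), ?_⟩
    intro x y
    apply Subtype.ext
    apply tangent_ext
    · exact tangentVec_one _
    · exact AffineRack.tangent_one (Subtype.property _)
    · intro l
      change tangentVec (b.equivFun (L.bracket x y)) (coordFun k n l) =
        AffineRack.bracketFun (fatRack c hc).nabla (tangentVec (b.equivFun x)) (tangentVec (b.equivFun y))
          (coordFun k n l)
      rw [bracket_coordFun, tangentVec_coordFun]
      exact hbr x y l

end Pool.Agent.Lib.H33S
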