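import Pool.Agent.Lib.H33S.A1b

/-!
# Chunk A3a (S/M): `U(0) = 1`

Apply the ring homomorphism `θ : MvPolynomial (Fin 3) B → DualNumber k` (or `TrivSqZeroExt k k`) with `a_j ↦ 0`, `X 0, X 1 ↦ 0`, `X 2 ↦ ε`
(`MvPolynomial.eval₂Hom` of `(algebraMap k _).comp constantCoeff` and `![0, 0, ε]`). `θ` kills `JJ`: the generators go to `0^m = 0`
and `ε^m = 0` (`m ≥ 2`). `θ psi = ε`. `θ (aeval (X i) P) = ∑ (constantCoeff (P.coeff j)) x^j` with `x = 0, 0, ε`, and
`constantCoeff (P.coeff j) = (logP k N).coeff j` because elements of `irr^2` have constant coefficient `0`. So `θ (Del P) = ε`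
(`logP_coeff_zero`, `logP_coeff_one`, `ε^2 = 0`). Then `ε = ε * θ U`, and the `snd` component is `1 = constantCoeff (constantCoeff U)`
(`fst (θ U) = constantCoeff (constantCoeff U)`: compose `θ` with `TrivSqZeroExt.fstHom`; `MvPolynomial.ringHom_ext`).
-/

namespace Pool.Agent.Lib.H33S

open Polynomial

universe u

theorem a3a_const {k : Type u} [Field k] {m : ℕ} {x : BB k m} (hx : x ∈ irr k m ^ 2) :
    MvPolynomial.constantCoeff x = 0 := by
  have h1 : irr k m ≤ RingHom.ker (MvPolynomial.constantCoeff : BB k m →+* k) := by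
    unfold irr
    rw [Ideal.span_le]
    rintro _ ⟨i, rfl⟩
    rw [SetLike.mem_coe, RingHom.mem_ker]
    exact MvPolynomial.constantCoeff_X (R := k) i
  exact h1 (Ideal.pow_le_self two_ne_zero hx)

theorem a3a_eps {k : Type u} [Field k] (p : k[X]) (h0 : p.coeff 0 = 0) (h1 : p.coeff 1 = 1) :
    aeval (DualNumber.eps : DualNumber k) p = DualNumber.eps := by
  have e1 := Polynomial.X_mul_divX_add p
  have e2 := Polynomial.X_mul_divX_add p.divX
  have h2 : p.divX.coeff 0 = 1 := by rw [Polynomial.coeff_divX]; exact h1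
  rw [h0, map_zero, add_zero] at e1
  rw [h2, map_one] at e2
  rw [← e1, ← e2, map_mul, map_add, map_mul, map_one, aeval_X, mul_add, ← mul_assoc,
    DualNumber.eps_mul_eps, zero_mul, zero_add, mul_one]

theorem a3a_gam {k : Type u} [Field k] {m : ℕ} (x : DualNumber k) (hx : x ^ m = 0) :
    aeval x ((gam (fun j : Fin m => (MvPolynomial.X j : BB k m))).map
      (MvPolynomial.constantCoeff : BB k m →+* k)) = 0 := by
  unfold gam
  rw [Polynomial.map_add, Polynomial.map_pow, Polynomial.map_X, Polynomial.map_sum, map_add, map_pow,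
    aeval_X, hx, zero_add, map_sum]
  refine Finset.sum_eq_zero fun i _ => ?_
  rw [Polynomial.map_mul, Polynomial.map_C, MvPolynomial.constantCoeff_X, map_zero, zero_mul, map_zero]

theorem u_one {k : Type u} [Field k] [CharZero k] {m N : ℕ} (hm : 2 ≤ m) (hN : 1 ≤ N)
    {P : (BB k m)[X]} {U : MvPolynomial (Fin 3) (BB k m)}
    (hP : ∀ i, P.coeff i - MvPolynomial.C ((logP k N).coeff i) ∈ irr k m ^ 2)
    (hU : Del P - psi k m * U ∈ JJ k m) :
    MvPolynomial.constantCoeff (MvPolynomial.constantCoeff U) = 1 := by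
  set φ : BB k m →+* k := MvPolynomial.constantCoeff with hφ
  set h : Fin 3 → DualNumber k := ![0, 0, DualNumber.eps] with hh
  set θ : MvPolynomial (Fin 3) (BB k m) →+* DualNumber k :=
    MvPolynomial.eval₂Hom ((algebraMap k (DualNumber k)).comp φ) h with hθ
  have hC : ∀ b : BB k m, θ (MvPolynomial.C b) = algebraMap k (DualNumber k) (φ b) := by
    intro b
    rw [hθ, MvPolynomial.eval₂Hom_C]
    rfl
  have hX : ∀ i, θ (MvPolynomial.X i) = h i := by
    intro i
    rw [hθ, MvPolynomial.eval₂Hom_X']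
  have hA : ∀ (i : Fin 3) (p : (BB k m)[X]),
      θ (aeval (MvPolynomial.X i : MvPolynomial (Fin 3) (BB k m)) p) = aeval (h i) (p.map φ) := by
    intro i p
    rw [Polynomial.aeval_def, Polynomial.hom_eval₂, Polynomial.aeval_def, Polynomial.eval₂_map, hX]
    congr 1
    exact RingHom.ext fun b => hC b
  have h0 : h 0 = 0 := rfl
  have h1 : h 1 = 0 := rfl
  have h2 : h 2 = DualNumber.eps := rfl
  have hpow : ∀ i, h i ^ m = 0 := by
    intro i
    obtain ⟨m', rfl⟩ : ∃ m', m = m' + 2 := ⟨m - 2, by omega⟩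
    have hz : h i * h i = 0 := by
      fin_cases i
      · show h 0 * h 0 = 0
        rw [h0, mul_zero]
      · show h 1 * h 1 = 0
        rw [h1, mul_zero]
      · show h 2 * h 2 = 0
        rw [h2, DualNumber.eps_mul_eps]
    rw [pow_add, pow_two, hz, mul_zero]
  have hJ : JJ k m ≤ RingHom.ker θ := by
    unfold JJ
    rw [Ideal.span_le]
    rintro _ ⟨i, rfl⟩
    rw [SetLike.mem_coe, RingHom.mem_ker]
    show θ _ = 0
    rw [hA]
    exact a3a_gam _ (hpow i)
  have hlog : P.map φ = logP k N := by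
    ext i
    rw [Polynomial.coeff_map]
    have := a3a_const (hP i)
    rw [map_sub, MvPolynomial.constantCoeff_C] at this
    exact sub_eq_zero.1 this
  have hk : θ (Del P - psi k m * U) = 0 := hJ hU
  rw [map_sub, map_mul] at hk
  have hpsi : θ (psi k m) = DualNumber.eps := by
    unfold psi
    rw [map_sub, map_mul, map_add, map_add, map_add, map_one, hX, hX, hX, h0, h1, h2]
    ring
  have hz : aeval (0 : DualNumber k) (logP k N) = 0 := by
    rw [← Polynomial.coeff_zero_eq_aeval_zero', logP_coeff_zero, map_zero]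
  have hdel : θ (Del P) = DualNumber.eps := by
    unfold Del
    rw [map_sub, map_sub, hA, hA, hA, hlog, h0, h1, h2, hz,
      a3a_eps _ (logP_coeff_zero k N) (logP_coeff_one k hN), sub_zero, sub_zero]
  rw [hpsi, hdel] at hk
  have hs := congrArg TrivSqZeroExt.snd (sub_eq_zero.1 hk)
  rw [TrivSqZeroExt.snd_mul, DualNumber.fst_eps, DualNumber.snd_eps, zero_smul, zero_add] at hs
  have hfst : TrivSqZeroExt.fst (θ U) = MvPolynomial.constantCoeff (MvPolynomial.constantCoeff U) := by
    have hcomp : ((TrivSqZeroExt.fstHom k k k).toRingHom).comp θ =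
        (MvPolynomial.constantCoeff : BB k m →+* k).comp
          (MvPolynomial.constantCoeff : MvPolynomial (Fin 3) (BB k m) →+* BB k m) := by
      refine MvPolynomial.ringHom_ext ?_ ?_
      · intro b
        show TrivSqZeroExt.fst (θ (MvPolynomial.C b)) = _
        rw [hC, RingHom.comp_apply, MvPolynomial.constantCoeff_C]
        rfl
      · intro i
        show TrivSqZeroExt.fst (θ (MvPolynomial.X i)) = _
        rw [hX, RingHom.comp_apply, MvPolynomial.constantCoeff_X, map_zero]
        fin_cases i <;> rfl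
    exact DFunLike.congr_fun hcomp U
  rw [← hfst]
  have hs2 : (1 : k) = TrivSqZeroExt.fst (θ U) := by
    rw [hs]
    simp
  exact hs2.symm

end Pool.Agent.Lib.H33S
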