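import Pool.Agent.Lib.H33S.A2a

/-!
# Chunk A3b (M/L): `U` is invertible near `a = 0`

Let `A3 = MvPolynomial (Fin 3) B ⧸ JJ`, a finite `B`-module (`a2a_finite`), and `w = 1 - U`. The image of `w` in `A3 ⧸ irr A3` is
nilpotent: `w` lies in the ideal generated by `X 0, X 1, X 2` and `C (irr)` (its twofold constant coefficient is `0`:
`MvPolynomial.mem_ideal_span_X_image`-like lemmas or `MvPolynomial.induction_on`), and each `X i` is nilpotent modulo `JJ` and `irr` because
`gam = X^m + ∑ a_j X^j`; the nilradical is an ideal. So there is `K` with `w^K ∈ irr A3` (as an element of `A3`).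
`y := w^K` (image in `A3`). The multiplication by `y` on `A3` has range in `irr • ⊤`, so by
`LinearMap.exists_monic_and_coeff_mem_pow_and_aeval_eq_zero_of_range_le_smul` (Cayley-Hamilton) there is a monic `p : B[X]` with
`p.coeff i ∈ irr^(p.natDegree - i)` and `aeval y p = 0` (apply the endomorphism identity to `1`). Let `f = p.eval 1`:
`constantCoeff f = 1` (the coefficients below the leading one lie in `irr`). `p - C f` is divisible by `X - 1` (`Polynomial.dvd_iff_isRoot`),
so `f = (1 - y) * z` in `A3` for some `z`; and `1 - y = 1 - w^K` is divisible by `1 - w = U` (`sub_dvd_pow_sub_pow` with `1 - w^K = 1^K - w^K`).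
Lift the cofactor to `V`.
-/

namespace Pool.Agent.Lib.H33S

open Polynomial

universe u

theorem a3b_const {σ R : Type*} [CommRing R] (I : Ideal (MvPolynomial σ R))
    (hI : ∀ i, (MvPolynomial.X i : MvPolynomial σ R) ∈ I) (p : MvPolynomial σ R) :
    p - MvPolynomial.C (MvPolynomial.constantCoeff p) ∈ I := by
  induction p using MvPolynomial.induction_on with
  | C a =>
    rw [MvPolynomial.constantCoeff_C, sub_self]
    exact I.zero_mem
  | add p q hp hq =>
    rw [map_add, map_add]
    have e : p + q - (MvPolynomial.C (MvPolynomial.constantCoeff p) +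
        MvPolynomial.C (MvPolynomial.constantCoeff q)) =
        (p - MvPolynomial.C (MvPolynomial.constantCoeff p)) +
        (q - MvPolynomial.C (MvPolynomial.constantCoeff q)) := by ring
    rw [e]
    exact I.add_mem hp hq
  | mul_X p i hp =>
    rw [map_mul, MvPolynomial.constantCoeff_X, mul_zero, map_zero, sub_zero]
    exact I.mul_mem_left _ (hI i)

/-- The ideal `JJ + (a_0, ..)`. -/
noncomputable def a3b_I (k : Type u) [Field k] (m : ℕ) : Ideal (MvPolynomial (Fin 3) (BB k m)) :=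
  JJ k m ⊔ (irr k m).map (MvPolynomial.C : BB k m →+* MvPolynomial (Fin 3) (BB k m))

theorem a3b_X (k : Type u) [Field k] (m : ℕ) (i : Fin 3) :
    (MvPolynomial.X i : MvPolynomial (Fin 3) (BB k m)) ∈ (a3b_I k m).radical := by
  refine Ideal.mem_radical_iff.2 ⟨m, ?_⟩
  have h1 : aeval (MvPolynomial.X i : MvPolynomial (Fin 3) (BB k m))
      (gam (fun j : Fin m => (MvPolynomial.X j : BB k m))) ∈ a3b_I k m :=
    (le_sup_left : JJ k m ≤ a3b_I k m) (Ideal.subset_span ⟨i, rfl⟩)
  have h2 : aeval (MvPolynomial.X i : MvPolynomial (Fin 3) (BB k m))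
      (gam (fun j : Fin m => (MvPolynomial.X j : BB k m))) =
      MvPolynomial.X i ^ m + ∑ j : Fin m, MvPolynomial.C (MvPolynomial.X j : BB k m) *
        MvPolynomial.X i ^ (j : ℕ) := by
    unfold gam
    rw [map_add, map_pow, aeval_X, map_sum]
    refine congrArg _ (Finset.sum_congr rfl fun j _ => ?_)
    rw [map_mul, map_pow, aeval_X, aeval_C]
    rfl
  have h3 : ∑ j : Fin m, MvPolynomial.C (MvPolynomial.X j : BB k m) *
      (MvPolynomial.X i : MvPolynomial (Fin 3) (BB k m)) ^ (j : ℕ) ∈ a3b_I k m := by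
    refine Ideal.sum_mem _ fun j _ => Ideal.mul_mem_right _ _ ?_
    exact (le_sup_right : (irr k m).map _ ≤ a3b_I k m)
      (Ideal.mem_map_of_mem _ (Ideal.subset_span ⟨j, rfl⟩))
  rw [h2] at h1
  exact (Ideal.add_mem_iff_left _ h3).1 h1

theorem a3b_irr (k : Type u) [Field k] (m : ℕ) (b : BB k m) :
    b - MvPolynomial.C (MvPolynomial.constantCoeff b) ∈ irr k m :=
  a3b_const (irr k m) (fun i => Ideal.subset_span ⟨i, rfl⟩) b

theorem a3b_rad {k : Type u} [Field k] {m : ℕ} (w : MvPolynomial (Fin 3) (BB k m))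
    (hw : MvPolynomial.constantCoeff (MvPolynomial.constantCoeff w) = 0) :
    w ∈ (a3b_I k m).radical := by
  have h1 := a3b_const _ (a3b_X k m) w
  have h2 : MvPolynomial.C (MvPolynomial.constantCoeff w) ∈ a3b_I k m := by
    have h3 := a3b_irr k m (MvPolynomial.constantCoeff w)
    rw [hw, map_zero, sub_zero] at h3
    exact (le_sup_right : (irr k m).map _ ≤ a3b_I k m) (Ideal.mem_map_of_mem _ h3)
  have h4 := Ideal.add_mem _ h1 (Ideal.le_radical h2)
  rwa [sub_add_cancel] at h4

theorem a3b_mem {B : Type u} [CommRing B] (I : Ideal (MvPolynomial (Fin 3) B)) (a : Ideal B)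
    {x : MvPolynomial (Fin 3) B}
    (hx : x ∈ I ⊔ a.map (MvPolynomial.C : B →+* MvPolynomial (Fin 3) B)) :
    Ideal.Quotient.mk I x ∈ a.map (algebraMap B (MvPolynomial (Fin 3) B ⧸ I)) := by
  obtain ⟨y, hy, z, hz, rfl⟩ := Submodule.mem_sup.1 hx
  rw [map_add, Ideal.Quotient.eq_zero_iff_mem.2 hy, zero_add]
  have h1 : Ideal.Quotient.mk I z ∈
      (a.map (MvPolynomial.C : B →+* MvPolynomial (Fin 3) B)).map (Ideal.Quotient.mk I) :=
    Ideal.mem_map_of_mem _ hz
  rw [Ideal.map_map] at h1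
  exact h1

/-- Cayley-Hamilton. -/
theorem a3b_ch {B A : Type u} [CommRing B] [CommRing A] [Algebra B A] [Module.Finite B A]
    (a : Ideal B) {y : A} (hy : y ∈ a.map (algebraMap B A)) :
    ∃ p : B[X], p.Monic ∧ (∀ i, i < p.natDegree → p.coeff i ∈ a) ∧ aeval y p = 0 := by
  have hr : LinearMap.range (Algebra.lmul B A y) ≤ (a • ⊤ : Submodule B A) := by
    rintro z ⟨t, rfl⟩
    rw [Ideal.smul_top_eq_map, Submodule.restrictScalars_mem]
    exact Ideal.mul_mem_right _ _ hy
  obtain ⟨p, hp, -, hc, h0⟩ :=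
    LinearMap.exists_monic_and_natDegree_eq_and_coeff_mem_pow_and_aeval_eq_zero B
      (Algebra.lmul B A y) a hr
  refine ⟨p, hp, fun i hi => ?_, ?_⟩
  · have h1 : a ^ (p.natDegree - i) ≤ a := Ideal.pow_le_self (by omega)
    exact h1 (hc i)
  · rw [aeval_algHom_apply] at h0
    have h2 : Algebra.lmul B A (aeval y p) 1 = 0 := by
      rw [h0]
      rfl
    rw [Algebra.coe_lmul_eq_mul, LinearMap.mul_apply', mul_one] at h2
    exact h2

theorem a3b_eval {k : Type u} [Field k] {m : ℕ} {p : (BB k m)[X]} (hp : p.Monic)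
    (hc : ∀ i, i < p.natDegree → p.coeff i ∈ irr k m) :
    MvPolynomial.constantCoeff (p.eval 1) = 1 := by
  have h0 : ∀ b ∈ irr k m, MvPolynomial.constantCoeff b = 0 := by
    intro b hb
    have h1 : irr k m ≤ RingHom.ker (MvPolynomial.constantCoeff : BB k m →+* k) := by
      refine Ideal.span_le.2 ?_
      rintro _ ⟨i, rfl⟩
      exact RingHom.mem_ker.2 (MvPolynomial.constantCoeff_X k i)
    exact h1 hb
  have h1 : p.map (MvPolynomial.constantCoeff : BB k m →+* k) = X ^ p.natDegree := by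
    ext i
    rw [coeff_map, coeff_X_pow]
    rcases lt_trichotomy i p.natDegree with h | h | h
    · rw [h0 _ (hc i h), if_neg h.ne]
    · rw [h, if_pos rfl, hp.coeff_natDegree, map_one]
    · rw [coeff_eq_zero_of_natDegree_lt h, map_zero, if_neg h.ne']
  have h2 : MvPolynomial.constantCoeff (p.eval 1) =
      (p.map (MvPolynomial.constantCoeff : BB k m →+* k)).eval
        (MvPolynomial.constantCoeff (1 : BB k m)) := (eval_map_apply _ _).symm
  rw [h2, h1, map_one, eval_pow, eval_X, one_pow]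

theorem unit_trick {k : Type u} [Field k] {m : ℕ} (U : MvPolynomial (Fin 3) (BB k m))
    (hU : MvPolynomial.constantCoeff (MvPolynomial.constantCoeff U) = 1) :
    ∃ (V : MvPolynomial (Fin 3) (BB k m)) (f : BB k m), MvPolynomial.constantCoeff f = 1 ∧
      MvPolynomial.C f - U * V ∈ JJ k m := by
  have hfin : Module.Finite (BB k m) (MvPolynomial (Fin 3) (BB k m) ⧸ JJ k m) := a2a_finite k m
  have hw : (1 - U) ∈ (a3b_I k m).radical := by
    refine a3b_rad _ ?_
    rw [map_sub, map_sub, hU, map_one, map_one, sub_self]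
  obtain ⟨K, hK⟩ := Ideal.mem_radical_iff.1 hw
  have hy := a3b_mem _ _ hK
  set y : MvPolynomial (Fin 3) (BB k m) ⧸ JJ k m := Ideal.Quotient.mk (JJ k m) ((1 - U) ^ K)
    with hyd
  obtain ⟨p, hp, hc, h0⟩ := a3b_ch (irr k m) hy
  obtain ⟨q, hq⟩ : (X - C 1) ∣ p - C (p.eval 1) := by
    rw [dvd_iff_isRoot, IsRoot.def, eval_sub, eval_C, sub_self]
  have h1 : Ideal.Quotient.mk (JJ k m) (MvPolynomial.C (p.eval 1)) = (1 - y) * aeval y q := by
    have h2 := congrArg (aeval y) hq
    rw [map_sub, h0, map_mul, map_sub, aeval_X, aeval_C, aeval_C, map_one] at h2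
    have h3 : Ideal.Quotient.mk (JJ k m) (MvPolynomial.C (p.eval 1)) =
        algebraMap (BB k m) (MvPolynomial (Fin 3) (BB k m) ⧸ JJ k m) (p.eval 1) := rfl
    rw [h3]
    linear_combination -h2
  obtain ⟨g, hg⟩ : U ∣ 1 - (1 - U) ^ K := by
    have h2 := sub_dvd_pow_sub_pow (1 : MvPolynomial (Fin 3) (BB k m)) (1 - U) K
    rwa [one_pow, sub_sub_cancel] at h2
  obtain ⟨z, hz⟩ := Ideal.Quotient.mk_surjective (aeval y q)
  refine ⟨g * z, p.eval 1, a3b_eval hp hc, ?_⟩
  rw [← Ideal.Quotient.eq_zero_iff_mem, map_sub, h1, ← hz]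
  have h4 : 1 - y = Ideal.Quotient.mk (JJ k m) (U * g) := by
    rw [← hg, map_sub, map_one]
  rw [h4, ← map_mul, ← map_sub]
  have e : U * g * z - U * (g * z) = 0 := by ring
  rw [e, map_zero]

end Pool.Agent.Lib.H33S
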