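import Pool.Agent.Lib.H33S.A2c
import Pool.Agent.Lib.H33S.A3a
import Pool.Agent.Lib.H33S.A3b

/-!
# A3c: the universal polynomial exists
-/

namespace Pool.Agent.Lib.H33S

open Polynomial

universe u

theorem exists_univ (k : Type u) [Field k] [CharZero k] (m : ℕ) (hm : 2 ≤ m) :
    Nonempty (Univ k m) := by
  obtain ⟨N, P, U, hN, hP, hU⟩ := exists_P k m
  have h1 := u_one hm (by omega) hP hU
  obtain ⟨V, f, hf, hV⟩ := unit_trick U h1
  refine ⟨⟨N, P, V, f, hN, hP, hf, ?_⟩⟩
  have e : MvPolynomial.C f * psi k m - V * Del P =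
      psi k m * (MvPolynomial.C f - U * V) - V * (Del P - psi k m * U) := by ring
  rw [e]
  exact Ideal.sub_mem _ (Ideal.mul_mem_left _ _ hV) (Ideal.mul_mem_left _ _ hU)

end Pool.Agent.Lib.H33S
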