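import Pool.Agent.Lib.H33S.T2
import Pool.Agent.Lib.H33S.A3c

/-!
# Main: smooth racks
-/

namespace Pool.Agent.Lib.H33S

open Polynomial
open scoped TensorProduct

universe u v

/-- Over a field of characteristic `0`, every finite-dimensional Leibniz algebra is the Leibniz
algebra of a smooth affine algebraic rack. -/
theorem exists_smooth_rack (k : Type u) [Field k] [CharZero k] (q : Type v) [AddCommGroup q]
    [Module k q] [FiniteDimensional k q] (L : LeibnizAlgebra k q) :
    ∃ (A : Type u) (_ : CommRing A) (_ : Algebra k A), Algebra.Smooth k A ∧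
      ∃ Q : AffineRack k A, L.Iso Q.leibnizAlgebra := by
  let n := Module.finrank k q
  let b : Module.Basis (Fin n) k q := Module.finBasis k q
  let c : Fin n → Fin n → Fin n → k := fun i j l => b.repr (L.bracket (b i) (b j)) l
  have hbr : ∀ x y l, b.repr (L.bracket x y) l =
      ∑ i, ∑ j, c i j l * (b.repr x i * b.repr y j) := by
    intro x y l
    change b.coord l (L.bracket x y) = _
    conv_lhs => rw [← b.sum_repr x, ← b.sum_repr y]
    simp only [map_sum, map_smul, LinearMap.sum_apply, LinearMap.smul_apply, smul_eq_mul,
      Finset.mul_sum]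
    rw [Finset.sum_comm]
    refine Finset.sum_congr rfl fun i _ => Finset.sum_congr rfl fun j _ => ?_
    simp only [c, Module.Basis.coord_apply]
    ring
  have hc : ∀ i a b l, ∑ j, c a b j * c i j l =
      ∑ j, c i a j * c j b l + ∑ j, c i b j * c a j l := by
    intro i a b' l
    have h := congrArg (fun x => b.repr x l) (L.leibniz (b i) (b a) (b b'))
    simp only [map_add, Finsupp.add_apply] at h
    have h1 : ∀ (i : Fin n) (y : q), b.repr (L.bracket (b i) y) l = ∑ j, b.repr y j * c i j l := by
      intro i y
      change b.coord l (L.bracket (b i) y) = _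
      conv_lhs => rw [← b.sum_repr y]
      simp only [map_sum, map_smul, smul_eq_mul, c, Module.Basis.coord_apply]
    have h2 : ∀ (x : q) (j : Fin n), b.repr (L.bracket x (b j)) l = ∑ i, b.repr x i * c i j l := by
      intro x j
      change b.coord l (L.bracket x (b j)) = _
      conv_lhs => rw [← b.sum_repr x]
      simp only [map_sum, map_smul, LinearMap.sum_apply, LinearMap.smul_apply, smul_eq_mul, c,
        Module.Basis.coord_apply]
    rw [h1, h2, h1] at h
    exact h
  obtain ⟨D⟩ := exists_univ k (n + 2) (by omega)
  obtain ⟨e, t, h, he⟩ := exists_base D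
  refine ⟨AA D c, inferInstance, inferInstance, aa_smooth D c, rackS hc h, ?_⟩
  refine ⟨b.equivFun.trans (LinearEquiv.ofBijective (evT h c) (evT_bijective h c)).symm, ?_⟩
  intro x y
  have hev : ∀ z : q, evT h c ((b.equivFun.trans
      (LinearEquiv.ofBijective (evT h c) (evT_bijective h c)).symm) z) = b.equivFun z := by
    intro z
    exact (LinearEquiv.ofBijective (evT h c) (evT_bijective h c)).apply_symm_apply (b.equivFun z)
  apply (evT_bijective h c).1
  refine (hev _).trans ?_
  funext l
  have h1 := bracket_cV (hc := hc) h he (F := (((b.equivFun.trans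
      (LinearEquiv.ofBijective (evT h c) (evT_bijective h c)).symm) y).1)) (((b.equivFun.trans
      (LinearEquiv.ofBijective (evT h c) (evT_bijective h c)).symm) x).2) l
  refine Eq.trans ?_ h1.symm
  have h2 : (fun i => ((b.equivFun.trans
      (LinearEquiv.ofBijective (evT h c) (evT_bijective h c)).symm) x).1 (cV D c i)) =
      b.equivFun x := hev x
  have h3 : (fun i => ((b.equivFun.trans
      (LinearEquiv.ofBijective (evT h c) (evT_bijective h c)).symm) y).1 (cV D c i)) =
      b.equivFun y := hev y
  rw [h2, h3]
  exact hbr x y l

end Pool.Agent.Lib.H33S
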