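import Pool.Agent.Lib.H33S.Defs

/-!
# Chunk A1 (M): the truncated logarithm is additive on nilpotent elements

`a1_polyzero`: a polynomial over a commutative `ℚ`-algebra `R` which vanishes at all natural numbers is `0`: for a `ℚ`-linear
map `φ : R → ℚ` the polynomial `∑ φ(p_i) X^i ∈ ℚ[X]` vanishes at all `n : ℕ` (`φ (p_i * n^i) = n^i φ(p_i)`), so it is `0`
(`Polynomial.eq_zero_of_infinite_isRoot` or `Polynomial.funext`-like over the infinite domain `ℚ`); so `φ(p_i) = 0` for all `φ`, and
`p_i = 0` by `Module.forall_dual_apply_eq_zero_iff ℚ`.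

`logP_add`: make `R` a `ℚ`-algebra (`Algebra.compHom` or `(algebraMap k R).comp (algebraMap ℚ k)`; `k` is one by `DivisionRing.toRatAlgebra`).
For `x : R` put `E x := ∑ j ∈ range (N+1), C (x^j / j!) * descPochhammer R j ∈ R[X]` (variable `K`). If `x^(N+1) = 0` then
`(E x).eval n = (1 + x)^n` for all `n : ℕ` (`descPochhammer_eval_eq_descFactorial`, `Nat.descFactorial_eq_factorial_mul_choose`, binomial
theorem `add_pow`; terms with `j > N` vanish as `x^j = 0`, terms with `j > n` vanish as `choose = 0`). So `E r - E s * E t` vanishes at all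
`n`, hence `E r = E s * E t`. Take derivatives at `0`: `(E x).eval 0 = 1` and `(E x).derivative.eval 0 = aeval x (logP k N)`.
-/

namespace Pool.Agent.Lib.H33S

open Polynomial

universe u

theorem a1_polyzero {R : Type*} [CommRing R] [Algebra ℚ R] (p : R[X])
    (h : ∀ n : ℕ, p.eval (n : R) = 0) : p = 0 := by
  ext i
  rw [coeff_zero]
  rw [← Module.forall_dual_apply_eq_zero_iff ℚ]
  intro φ
  let q : ℚ[X] := ∑ j ∈ Finset.range (p.natDegree + 1), C (φ (p.coeff j)) * X ^ j
  have hq : q = 0 := by
    apply Polynomial.eq_zero_of_infinite_isRoot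
    apply Set.Infinite.mono (s := Set.range (fun n : ℕ => (n : ℚ)))
    · rintro _ ⟨n, rfl⟩
      change q.eval (n : ℚ) = 0
      have h1 : q.eval (n : ℚ) = φ (p.eval (n : R)) := by
        have h0 : p.eval (n : R) = ∑ j ∈ Finset.range (p.natDegree + 1), p.coeff j * (n : R) ^ j :=
          eval_eq_sum_range _
        rw [h0]
        simp only [q, eval_finsetSum, eval_mul, eval_C, eval_pow, eval_X, map_sum]
        refine Finset.sum_congr rfl fun j _ => ?_
        have h2 : p.coeff j * (n : R) ^ j = ((n : ℚ) ^ j) • p.coeff j := by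
          rw [Algebra.smul_def, map_pow, map_natCast, mul_comm]
        rw [h2, map_smul, smul_eq_mul, mul_comm]
      rw [h1, h n, map_zero]
    · exact Set.infinite_range_of_injective Nat.cast_injective
  have h3 : q.coeff i = 0 := by rw [hq, coeff_zero]
  by_cases hi : i < p.natDegree + 1
  · have h4 : q.coeff i = φ (p.coeff i) := by
      simp only [q, finsetSum_coeff, coeff_C_mul, coeff_X_pow]
      rw [Finset.sum_eq_single i]
      · simp
      · intro b _ hb
        simp [Ne.symm hb]
      · intro h5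
        exact absurd (Finset.mem_range.2 hi) h5
    rw [← h4, h3]
  · rw [coeff_eq_zero_of_natDegree_lt (by omega), map_zero]

/-- The polynomial in the exponent `K` whose value at `n` is `(1 + x)^n`. -/
noncomputable def a1_E {R : Type*} [CommRing R] [Algebra ℚ R] (N : ℕ) (x : R) : R[X] :=
  ∑ j ∈ Finset.range (N + 1),
    C (x ^ j * algebraMap ℚ R ((j.factorial : ℚ)⁻¹)) * descPochhammer R j

theorem a1_E_eval {R : Type*} [CommRing R] [Algebra ℚ R] (N : ℕ) (x : R) (hx : x ^ (N + 1) = 0)
    (n : ℕ) : (a1_E N x).eval (n : R) = (1 + x) ^ n := by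
  have h1 : (a1_E N x).eval (n : R) = ∑ j ∈ Finset.range (N + 1), x ^ j * (n.choose j : R) := by
    simp only [a1_E, eval_finsetSum, eval_mul, eval_C]
    refine Finset.sum_congr rfl fun j _ => ?_
    rw [descPochhammer_eval_eq_descFactorial, Nat.descFactorial_eq_factorial_mul_choose,
      Nat.cast_mul, mul_assoc]
    congr 1
    rw [← mul_assoc]
    have h2 : algebraMap ℚ R ((j.factorial : ℚ)⁻¹) * (j.factorial : R) = 1 := by
      have h3 : (j.factorial : R) = algebraMap ℚ R (j.factorial : ℚ) := by rw [map_natCast]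
      rw [h3, ← map_mul, inv_mul_cancel₀ (by exact_mod_cast j.factorial_ne_zero), map_one]
    rw [h2, one_mul]
  have h4 : (1 + x) ^ n = ∑ j ∈ Finset.range (n + 1), x ^ j * (n.choose j : R) := by
    rw [add_comm, add_pow]
    refine Finset.sum_congr rfl fun j _ => ?_
    rw [one_pow, mul_one]
  rw [h1, h4]
  have hz : ∀ j, N + 1 ≤ j → x ^ j * (n.choose j : R) = 0 := by
    intro j hj
    obtain ⟨i, rfl⟩ := Nat.exists_eq_add_of_le hj
    rw [pow_add, hx, zero_mul, zero_mul]
  have hz' : ∀ j, n + 1 ≤ j → x ^ j * (n.choose j : R) = 0 := by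
    intro j hj
    rw [Nat.choose_eq_zero_of_lt (by omega), Nat.cast_zero, mul_zero]
  rcases le_total N n with hN | hN
  · refine Finset.sum_subset (Finset.range_subset_range.2 (by omega)) fun j _ hj => hz j ?_
    rw [Finset.mem_range] at hj
    omega
  · refine (Finset.sum_subset (Finset.range_subset_range.2 (by omega)) fun j _ hj => hz' j ?_).symm
    rw [Finset.mem_range] at hj
    omega

theorem a1_E_zero {R : Type*} [CommRing R] [Algebra ℚ R] (N : ℕ) (x : R) :
    (a1_E N x).eval 0 = 1 := by
  simp only [a1_E, eval_finsetSum, eval_mul, eval_C]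
  rw [Finset.sum_eq_single 0]
  · simp
  · intro b _ hb
    rw [descPochhammer_ne_zero_eval_zero R hb, mul_zero]
  · intro h
    exact absurd (Finset.mem_range.2 (Nat.succ_pos N)) h

theorem a1_E_deriv {R : Type*} [CommRing R] [Algebra ℚ R] (N : ℕ) (x : R) :
    (a1_E N x).derivative.eval 0 =
      ∑ j ∈ Finset.range (N + 1), algebraMap ℚ R (logC j) * x ^ j := by
  simp only [a1_E, derivative_sum, eval_finsetSum, derivative_C_mul, eval_mul, eval_C]
  refine Finset.sum_congr rfl fun j _ => ?_
  have h1 : (descPochhammer R j).derivative.eval 0 =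
      algebraMap ℚ R ((descPochhammer ℚ j).derivative.eval 0) := by
    rw [← descPochhammer_map (algebraMap ℚ R) j, derivative_map]
    have h2 : (0 : R) = algebraMap ℚ R 0 := (map_zero _).symm
    rw [h2, eval_map_algebraMap, aeval_algebraMap_apply_eq_algebraMap_eval]
  rw [h1, logC, div_eq_mul_inv, map_mul]
  ring

theorem logP_add {k : Type u} [Field k] [CharZero k] {R : Type*} [CommRing R] [Algebra k R]
    (N : ℕ) (s t r : R) (hs : s ^ (N + 1) = 0) (ht : t ^ (N + 1) = 0) (hr : r ^ (N + 1) = 0)
    (h : 1 + r = (1 + s) * (1 + t)) :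
    aeval r (logP k N) = aeval s (logP k N) + aeval t (logP k N) := by
  let _ : Algebra ℚ R := ((algebraMap k R).comp (algebraMap ℚ k)).toAlgebra
  have hE : a1_E N r = a1_E N s * a1_E N t := by
    rw [← sub_eq_zero]
    apply a1_polyzero
    intro n
    rw [eval_sub, eval_mul, a1_E_eval N r hr, a1_E_eval N s hs, a1_E_eval N t ht, h, mul_pow,
      sub_self]
  have hA : ∀ x : R, aeval x (logP k N) = (a1_E N x).derivative.eval 0 := by
    intro x
    rw [a1_E_deriv, logP, map_sum]
    refine Finset.sum_congr rfl fun j _ => ?_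
    rw [map_mul, map_pow, aeval_C, aeval_X]
    have h3 : algebraMap ℚ R (logC j) = algebraMap k R ((logC j : ℚ) : k) := by
      change (algebraMap k R) ((algebraMap ℚ k) (logC j)) = _
      rw [eq_ratCast]
    rw [h3]
  rw [hA, hA, hA, hE, derivative_mul, eval_add, eval_mul, eval_mul, a1_E_zero, a1_E_zero, mul_one,
    one_mul]

end Pool.Agent.Lib.H33S
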