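import Pool.Agent.Lib.H33S.Defs

/-!
# Chunk A1b (S): first coefficients of the truncated logarithm

`logC 0 = 0` (`descPochhammer ℚ 0 = 1`), `logC 1 = 1` (`descPochhammer ℚ 1 = X`). `coeff` of the sum: `Polynomial.finsetSum_coeff`,
`coeff_C_mul_X_pow`.
-/

namespace Pool.Agent.Lib.H33S

open Polynomial

universe u

theorem a1b_coeff (k : Type u) [Field k] [CharZero k] {N i : ℕ} (hi : i ≤ N) :
    (logP k N).coeff i = ((logC i : ℚ) : k) := by
  unfold logP
  rw [Polynomial.finsetSum_coeff, Finset.sum_eq_single i]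
  · rw [coeff_C_mul_X_pow, if_pos rfl]
  · intro j _ hj
    rw [coeff_C_mul_X_pow, if_neg (Ne.symm hj)]
  · intro h
    exact absurd (Finset.mem_range.mpr (by omega)) h

theorem logP_coeff_zero (k : Type u) [Field k] [CharZero k] (N : ℕ) : (logP k N).coeff 0 = 0 := by
  rw [a1b_coeff k (Nat.zero_le N)]
  have h : logC 0 = 0 := by
    unfold logC
    rw [descPochhammer_zero]
    simp
  rw [h, Rat.cast_zero]

theorem logP_coeff_one (k : Type u) [Field k] [CharZero k] {N : ℕ} (hN : 1 ≤ N) :
    (logP k N).coeff 1 = 1 := by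
  rw [a1b_coeff k hN]
  have h : logC 1 = 1 := by
    unfold logC
    rw [descPochhammer_one]
    simp
  rw [h, Rat.cast_one]

end Pool.Agent.Lib.H33S
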