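import Pool.Agent.Lib.H33S.Defs

/-!
# Chunk B3 (S): `gam`

`gam a` is monic of degree `m` (`Polynomial.monic_X_pow_add`, `Polynomial.degree_sum_fin_lt`), its coefficients below `m` are the `a i`.
`charpoly_eq_gam`: the characteristic polynomial is monic of degree `Fintype.card (Fin m) = m` (`Matrix.charpoly_monic`,
`Matrix.charpoly_natDegree_eq_dim`), compare coefficients (`Polynomial.ext`); trivial ring separately.
`eP_coeff`: coefficients of `eP`.
-/

namespace Pool.Agent.Lib.H33S

open Polynomial

variable {R : Type*} [CommRing R] {m : ℕ}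

theorem gam_monic (a : Fin m → R) : (gam a).Monic := by
  unfold gam
  exact monic_X_pow_add (degree_sum_fin_lt a)

theorem gam_natDegree [Nontrivial R] (a : Fin m → R) : (gam a).natDegree = m := by
  unfold gam
  have h1 : (X ^ m + ∑ i : Fin m, C (a i) * X ^ (i : ℕ) : R[X]).degree = m := by
    rw [degree_add_eq_left_of_degree_lt]
    · exact degree_X_pow m
    · rw [degree_X_pow]
      exact degree_sum_fin_lt a
  exact natDegree_eq_of_degree_eq_some h1

theorem gam_coeff (a : Fin m → R) (i : Fin m) : (gam a).coeff i = a i := by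
  unfold gam
  rw [coeff_add, coeff_X_pow, if_neg (ne_of_lt i.2), zero_add, finsetSum_coeff]
  rw [Finset.sum_eq_single i]
  · rw [coeff_C_mul_X_pow, if_pos rfl]
  · intro j _ hj
    rw [coeff_C_mul_X_pow, if_neg]
    exact fun h => hj (Fin.ext h.symm)
  · intro h
    exact absurd (Finset.mem_univ i) h

theorem charpoly_eq_gam (χ : R[X]) (e : Fin m → R) :
    (mulMat m χ (eP e - 1)).charpoly = gam (cc χ e) := by
  rcases subsingleton_or_nontrivial R with h | h
  · exact Subsingleton.elim _ _
  have h1 : (mulMat m χ (eP e - 1)).charpoly.Monic := Matrix.charpoly_monic _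
  have h2 : (mulMat m χ (eP e - 1)).charpoly.natDegree = m := by
    rw [Matrix.charpoly_natDegree_eq_dim, Fintype.card_fin]
  ext j
  rcases lt_trichotomy j m with hj | hj | hj
  · have h3 := gam_coeff (cc χ e) ⟨j, hj⟩
    rw [show ((⟨j, hj⟩ : Fin m) : ℕ) = j from rfl] at h3
    rw [h3]
    rfl
  · rw [hj]
    have h3 := h1.coeff_natDegree
    rw [h2] at h3
    have h4 := (gam_monic (cc χ e)).coeff_natDegree
    rw [gam_natDegree] at h4
    rw [h3, h4]
  · rw [coeff_eq_zero_of_natDegree_lt (by rw [h2]; exact hj),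
      coeff_eq_zero_of_natDegree_lt (by rw [gam_natDegree]; exact hj)]

theorem eP_coeff (e : Fin m → R) (i : Fin m) : (eP e).coeff i = e i := by
  unfold eP
  rw [finsetSum_coeff]
  rw [Finset.sum_eq_single i]
  · rw [coeff_C_mul_X_pow, if_pos rfl]
  · intro j _ hj
    rw [coeff_C_mul_X_pow, if_neg]
    exact fun h => hj (Fin.ext h.symm)
  · intro h
    exact absurd (Finset.mem_univ i) h

theorem eP_coeff_of_le (e : Fin m → R) {j : ℕ} (hj : m ≤ j) : (eP e).coeff j = 0 := by
  unfold eP
  rw [finsetSum_coeff]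
  refine Finset.sum_eq_zero fun i _ => ?_
  rw [coeff_C_mul_X_pow, if_neg]
  have := i.2
  omega

end Pool.Agent.Lib.H33S
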