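import Pool.Agent.Lib.H33S.Defs
import Pool.Agent.Lib.H33S.B3

/-!
# Chunk A2a (M): the quotient by `JJ` is a finite module

`A3 = MvPolynomial (Fin 3) B ⧸ JJ` is a `B`-algebra of finite type, generated by the images of `X 0, X 1, X 2`, which are integral over `B`
because `gam` is monic (`gam_monic` is in chunk B3 with `Nontrivial`; or prove it here: `Polynomial.monic_X_pow_add` with
`degree < m`) and `aeval (mk (X i)) gam = mk (aeval (X i) gam) = 0` (`Polynomial.aeval_algHom_apply` / `map_aeval`-like, with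
`Ideal.Quotient.mkₐ`). Use `Algebra.finite_iff_isIntegral_and_finiteType` and
`Algebra.IsIntegral` from `Algebra.adjoin` of integral elements (`adjoin_le_integralClosure`), or `MvPolynomial.induction_on` with
`IsIntegral.add`, `IsIntegral.mul`, `isIntegral_algebraMap`.
`a2a_finite'`: quotient of a finite module (`Module.Finite.of_surjective` with `Ideal.Quotient.factor`).
-/

namespace Pool.Agent.Lib.H33S

open Polynomial

universe u

theorem a2a_gen {B A : Type*} [CommRing B] [CommRing A] [Algebra B A]
    (f : MvPolynomial (Fin 3) B →ₐ[B] A) (hf : Function.Surjective f) (g : B[X]) (hg : g.Monic)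
    (h : ∀ i, aeval (f (MvPolynomial.X i)) g = 0) : Module.Finite B A := by
  have hint : ∀ x : A, IsIntegral B x := by
    intro x
    obtain ⟨p, rfl⟩ := hf x
    induction p using MvPolynomial.induction_on with
    | C a =>
      have h1 : f (MvPolynomial.C a) = algebraMap B A a := f.commutes a
      rw [h1]
      exact isIntegral_algebraMap
    | add p q hp hq =>
      rw [map_add]
      exact hp.add hq
    | mul_X p i hp =>
      rw [map_mul]
      exact hp.mul ⟨g, hg, h i⟩
  have h1 : Algebra.IsIntegral B A := ⟨hint⟩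
  have h2 : Algebra.FiniteType B A := Algebra.FiniteType.of_surjective f hf
  exact Algebra.finite_iff_isIntegral_and_finiteType.2 ⟨h1, h2⟩

theorem a2a_gen' {B P : Type*} [CommRing B] [CommRing P] [Algebra B P] (I J : Ideal P) (h : I ≤ J)
    (hfin : Module.Finite B (P ⧸ I)) : Module.Finite B (P ⧸ J) := by
  refine Module.Finite.of_surjective (Ideal.Quotient.factorₐ B h).toLinearMap ?_
  intro x
  obtain ⟨p, rfl⟩ := Ideal.Quotient.mk_surjective x
  exact ⟨Ideal.Quotient.mk _ p, rfl⟩

theorem a2a_finite (k : Type u) [Field k] (m : ℕ) :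
    Module.Finite (BB k m) (MvPolynomial (Fin 3) (BB k m) ⧸ JJ k m) := by
  have hs : Function.Surjective (Ideal.Quotient.mkₐ (BB k m) (JJ k m)) :=
    Ideal.Quotient.mkₐ_surjective (BB k m) (JJ k m)
  have hz : ∀ i : Fin 3, aeval (Ideal.Quotient.mkₐ (BB k m) (JJ k m) (MvPolynomial.X i))
      (gam (fun j : Fin m => (MvPolynomial.X j : BB k m))) = 0 := fun i => by
    rw [Polynomial.aeval_algHom_apply]
    exact Ideal.Quotient.eq_zero_iff_mem.2 (Ideal.subset_span ⟨i, rfl⟩)
  exact a2a_gen (B := BB k m) (A := MvPolynomial (Fin 3) (BB k m) ⧸ JJ k m)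
    (Ideal.Quotient.mkₐ (BB k m) (JJ k m)) hs
    (gam (fun j : Fin m => (MvPolynomial.X j : BB k m))) (gam_monic _) hz

theorem a2a_finite' (k : Type u) [Field k] (m : ℕ) :
    Module.Finite (BB k m)
      (MvPolynomial (Fin 3) (BB k m) ⧸ (JJ k m ⊔ Ideal.span {psi k m})) :=
  a2a_gen' (JJ k m) (JJ k m ⊔ Ideal.span {psi k m}) le_sup_left (a2a_finite k m)

end Pool.Agent.Lib.H33S
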