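import Pool.Agent.Lib.H33S.A1

/-!
# Chunk A2b (M): `Del logP` is small modulo `(J, ψ)`

Let `I = JJ ⊔ span {psi} ⊔ (irr^M).map C` and `Q = MvPolynomial (Fin 3) B ⧸ I`, a `k`-algebra; `x i` the image of `X i`.
`gam(x i) = 0` gives `(x i)^m = - ∑ a_j (x i)^j`, an element of the ideal `irrQ := (irr).map (B → Q)`; so `(x i)^(m M) ∈ irrQ^M = 0`
(`Ideal.pow_mem_pow`, `Ideal.map_pow`, and `irrQ^M = ⊥` since `(irr^M).map C ≤ I`). Hence `(x i)^(N+1) = 0`. `psi = 0` in `Q` gives
`1 + x 2 = (1 + x 0)(1 + x 1)`. `logP_add` gives `logP(x 2) = logP(x 0) + logP(x 1)`, which is the image of `Del (logP.map C)`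
(`aeval_map_algebraMap`-like lemmas: `aeval (X i) ((logP).map C)` maps to `aeval (x i) logP`).
-/

namespace Pool.Agent.Lib.H33S

open Polynomial

universe u

theorem a2b_gen {k : Type u} [Field k] [CharZero k] (m M N : ℕ) (hN : m * M ≤ N + 1)
    {P Q : Type u} [CommRing P] [CommRing Q] [Algebra k P] [Algebra (BB k m) P]
    [IsScalarTower k (BB k m) P] (φ : P →+* Q) (y : Fin 3 → P)
    (hJ : ∀ i, φ (aeval (y i) (gam (fun j : Fin m => (MvPolynomial.X j : BB k m)))) = 0)
    (hpsi : φ ((1 + y 2) - (1 + y 0) * (1 + y 1)) = 0)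
    (hirr : ∀ a ∈ irr k m ^ M, φ (algebraMap (BB k m) P a) = 0) :
    φ (aeval (y 2) ((logP k N).map (algebraMap k (BB k m))) -
      aeval (y 0) ((logP k N).map (algebraMap k (BB k m))) -
      aeval (y 1) ((logP k N).map (algebraMap k (BB k m)))) = 0 := by
  let x : Fin 3 → Q := fun i => φ (y i)
  let ι : BB k m →+* Q := φ.comp (algebraMap (BB k m) P)
  let _ : Algebra k Q := (φ.comp (algebraMap k P)).toAlgebra
  have hbot : (irr k m).map ι ^ M = ⊥ := by
    rw [← Ideal.map_pow, Ideal.map_eq_bot_iff_le_ker]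
    intro a ha
    exact hirr a ha
  have hxm : ∀ i, x i ^ m ∈ (irr k m).map ι := by
    intro i
    have h2 : x i ^ m = - ∑ j : Fin m, ι (MvPolynomial.X j) * x i ^ (j : ℕ) := by
      rw [eq_neg_iff_add_eq_zero, ← hJ i]
      unfold gam
      rw [map_add, map_pow, aeval_X, map_sum, map_add, map_pow, map_sum]
      congr 1
      refine Finset.sum_congr rfl fun j _ => ?_
      rw [map_mul, map_pow, aeval_X, aeval_C, map_mul, map_pow]
      rfl
    rw [h2]
    refine neg_mem (Ideal.sum_mem _ fun j _ => Ideal.mul_mem_right _ _ ?_)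
    exact Ideal.mem_map_of_mem ι (Ideal.subset_span ⟨j, rfl⟩)
  have hnil : ∀ i, x i ^ (N + 1) = 0 := by
    intro i
    have h1 : x i ^ (m * M) = 0 := by
      have h2 : (x i ^ m) ^ M ∈ (irr k m).map ι ^ M := Ideal.pow_mem_pow (hxm i) M
      rw [hbot, Ideal.mem_bot] at h2
      rw [pow_mul]
      exact h2
    exact pow_eq_zero_of_le hN h1
  have hrel : 1 + x 2 = (1 + x 0) * (1 + x 1) := by
    rw [map_sub, map_mul, map_add, map_add, map_add, map_one, sub_eq_zero] at hpsi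
    exact hpsi
  have hadd := logP_add (k := k) N (x 0) (x 1) (x 2) (hnil 0) (hnil 1) (hnil 2) hrel
  have hmk : ∀ i, φ (aeval (y i) ((logP k N).map (algebraMap k (BB k m))))
      = aeval (x i) (logP k N) := by
    intro i
    rw [Polynomial.aeval_map_algebraMap (BB k m), Polynomial.aeval_def, Polynomial.hom_eval₂,
      Polynomial.aeval_def]
    rfl
  rw [map_sub, map_sub, hmk, hmk, hmk, hadd]
  ring

theorem del_log (k : Type u) [Field k] [CharZero k] (m M N : ℕ) (hN : m * M ≤ N + 1) :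
    Del ((logP k N).map (MvPolynomial.C : k →+* BB k m)) ∈
      JJ k m ⊔ Ideal.span {psi k m} ⊔
        (irr k m ^ M).map (MvPolynomial.C : BB k m →+* MvPolynomial (Fin 3) (BB k m)) := by
  have hJ : JJ k m ≤ JJ k m ⊔ Ideal.span {psi k m} ⊔
        (irr k m ^ M).map (MvPolynomial.C : BB k m →+* MvPolynomial (Fin 3) (BB k m)) :=
    le_sup_left.trans le_sup_left
  have hpsi : psi k m ∈ JJ k m ⊔ Ideal.span {psi k m} ⊔
        (irr k m ^ M).map (MvPolynomial.C : BB k m →+* MvPolynomial (Fin 3) (BB k m)) :=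
    (le_sup_right.trans le_sup_left : Ideal.span {psi k m} ≤ JJ k m ⊔ Ideal.span {psi k m} ⊔
        (irr k m ^ M).map (MvPolynomial.C : BB k m →+* MvPolynomial (Fin 3) (BB k m)))
      (Ideal.mem_span_singleton_self _)
  have hirr : ∀ a ∈ irr k m ^ M, MvPolynomial.C a ∈ JJ k m ⊔ Ideal.span {psi k m} ⊔
        (irr k m ^ M).map (MvPolynomial.C : BB k m →+* MvPolynomial (Fin 3) (BB k m)) :=
    fun a ha => (le_sup_right : (irr k m ^ M).map
        (MvPolynomial.C : BB k m →+* MvPolynomial (Fin 3) (BB k m)) ≤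
        JJ k m ⊔ Ideal.span {psi k m} ⊔
        (irr k m ^ M).map (MvPolynomial.C : BB k m →+* MvPolynomial (Fin 3) (BB k m)))
        (Ideal.mem_map_of_mem _ ha)
  have key := a2b_gen m M N hN (P := MvPolynomial (Fin 3) (BB k m))
    (Q := MvPolynomial (Fin 3) (BB k m) ⧸ (JJ k m ⊔ Ideal.span {psi k m} ⊔
        (irr k m ^ M).map (MvPolynomial.C : BB k m →+* MvPolynomial (Fin 3) (BB k m))))
    (Ideal.Quotient.mk (JJ k m ⊔ Ideal.span {psi k m} ⊔
        (irr k m ^ M).map (MvPolynomial.C : BB k m →+* MvPolynomial (Fin 3) (BB k m))))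
    (fun i => (MvPolynomial.X i : MvPolynomial (Fin 3) (BB k m)))
    (fun i => Ideal.Quotient.eq_zero_iff_mem.2 (hJ (Ideal.subset_span ⟨i, rfl⟩)))
    (Ideal.Quotient.eq_zero_iff_mem.2 hpsi)
    (fun a ha => Ideal.Quotient.eq_zero_iff_mem.2 (hirr a ha))
  exact Ideal.Quotient.eq_zero_iff_mem.1 key

end Pool.Agent.Lib.H33S
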