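import Pool.Agent.Lib.H33S.A2a
import Pool.Agent.Lib.H33S.A2b

/-!
# Chunk A2c (M/L): Artin-Rees

`B = BB k m` is Noetherian. `W = MvPolynomial (Fin 3) B ⧸ (JJ ⊔ span {psi})` is a finite `B`-module (`a2a_finite'`). Let
`Ψ : B[X] →ₗ[B] W`, `P ↦ mk (Del P)` (`Del` is `B`-linear: `aeval` is). `Ideal.exists_pow_inf_eq_pow_smul (irr k m) (range Ψ)` gives `c`
with `irr^M • ⊤ ⊓ range Ψ = irr^(M-c) • (irr^c • ⊤ ⊓ range Ψ)` for `M ≥ c`. Take `M = c + 2`, `N = m * M` (so `m ≤ N`, `m M ≤ N + 1`).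
By `del_log`, `Ψ (logP.map C) ∈ irr^M • ⊤` (the image in `W` of `(irr^M).map C` is `irr^M • ⊤`: `Ideal.smul_top_eq_map` or
`Submodule.span_induction`). So `Ψ (logP.map C) ∈ irr^2 • range Ψ = map Ψ (irr^2 • ⊤)` (`Submodule.map_smul''`, `Submodule.smul_mono`,
`LinearMap.range_eq_map`): there is `P' ∈ irr^2 • (⊤ : Submodule B B[X])` with `Ψ P' = Ψ (logP.map C)`; the coefficients of `P'` lie in
`irr^2` (`Submodule.smul_induction_on`). `P := logP.map C - P'`, and `mk (Del P) = 0` gives `U` (`Submodule.mem_sup`,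
`Ideal.mem_span_singleton'`).
-/

namespace Pool.Agent.Lib.H33S

open Polynomial

universe u

/-- `Del` as a linear map. -/
noncomputable def a2c_del (k : Type u) [Field k] (m : ℕ) :
    (BB k m)[X] →ₗ[BB k m] MvPolynomial (Fin 3) (BB k m) :=
  (aeval (MvPolynomial.X 2 : MvPolynomial (Fin 3) (BB k m))).toLinearMap -
    (aeval (MvPolynomial.X 0 : MvPolynomial (Fin 3) (BB k m))).toLinearMap -
    (aeval (MvPolynomial.X 1 : MvPolynomial (Fin 3) (BB k m))).toLinearMap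

theorem a2c_del_apply (k : Type u) [Field k] (m : ℕ) (P : (BB k m)[X]) :
    a2c_del k m P = Del P := rfl

/-- Membership in `I ⊔ map C 𝔞` gives membership of the class in `𝔞 • ⊤`. -/
theorem a2c_mem {B : Type u} [CommRing B] (I : Ideal (MvPolynomial (Fin 3) B)) (a : Ideal B)
    {x : MvPolynomial (Fin 3) B}
    (hx : x ∈ I ⊔ a.map (MvPolynomial.C : B →+* MvPolynomial (Fin 3) B)) :
    Ideal.Quotient.mk I x ∈ (a • ⊤ : Submodule B (MvPolynomial (Fin 3) B ⧸ I)) := by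
  obtain ⟨y, hy, z, hz, rfl⟩ := Submodule.mem_sup.1 hx
  rw [map_add, Ideal.Quotient.eq_zero_iff_mem.2 hy, zero_add, Ideal.smul_top_eq_map,
    Submodule.restrictScalars_mem]
  have h1 : Ideal.Quotient.mk I z ∈
      (a.map (MvPolynomial.C : B →+* MvPolynomial (Fin 3) B)).map (Ideal.Quotient.mk I) :=
    Ideal.mem_map_of_mem _ hz
  rw [Ideal.map_map] at h1
  exact h1

theorem a2c_coeff {B : Type u} [CommRing B] (a : Ideal B) {P : B[X]}
    (hP : P ∈ (a • ⊤ : Submodule B B[X])) (i : ℕ) : P.coeff i ∈ a := by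
  induction hP using Submodule.smul_induction_on' with
  | smul r hr n _ =>
    rw [coeff_smul, smul_eq_mul]
    exact Ideal.mul_mem_right _ _ hr
  | add x _ y _ hx hy =>
    rw [coeff_add]
    exact Ideal.add_mem _ hx hy

theorem exists_P (k : Type u) [Field k] [CharZero k] (m : ℕ) :
    ∃ (N : ℕ) (P : (BB k m)[X]) (U : MvPolynomial (Fin 3) (BB k m)), m ≤ N ∧
      (∀ i, P.coeff i - MvPolynomial.C ((logP k N).coeff i) ∈ irr k m ^ 2) ∧
      Del P - psi k m * U ∈ JJ k m := by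
  set I : Ideal (MvPolynomial (Fin 3) (BB k m)) := JJ k m ⊔ Ideal.span {psi k m} with hI
  have hfin : Module.Finite (BB k m) (MvPolynomial (Fin 3) (BB k m) ⧸ I) := a2a_finite' k m
  set Ψ : (BB k m)[X] →ₗ[BB k m] MvPolynomial (Fin 3) (BB k m) ⧸ I :=
    (Ideal.Quotient.mkₐ (BB k m) I).toLinearMap ∘ₗ a2c_del k m with hΨ
  have hΨa : ∀ P, Ψ P = Ideal.Quotient.mk I (Del P) := fun P => rfl
  obtain ⟨c, hc⟩ := Ideal.exists_pow_inf_eq_pow_smul (irr k m) (LinearMap.range Ψ)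
  set Lg : (BB k m)[X] := (logP k (m * (c + 2))).map (MvPolynomial.C : k →+* BB k m) with hLg
  have h1 : Ψ Lg ∈ (irr k m ^ (c + 2) • ⊤ :
      Submodule (BB k m) (MvPolynomial (Fin 3) (BB k m) ⧸ I)) := by
    rw [hΨa]
    exact a2c_mem I _ (del_log k m (c + 2) (m * (c + 2)) (Nat.le_succ _))
  have h2 : Ψ Lg ∈ irr k m ^ (c + 2 - c) •
      (irr k m ^ c • ⊤ ⊓ LinearMap.range Ψ :
        Submodule (BB k m) (MvPolynomial (Fin 3) (BB k m) ⧸ I)) := by
    rw [← hc (c + 2) (by omega)]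
    exact ⟨h1, LinearMap.mem_range_self Ψ Lg⟩
  have h3 : Ψ Lg ∈ (Submodule.map Ψ (irr k m ^ 2 • ⊤ : Submodule (BB k m) (BB k m)[X])) := by
    rw [Submodule.map_smul'', Submodule.map_top]
    have e : c + 2 - c = 2 := by omega
    rw [e] at h2
    exact Submodule.smul_mono le_rfl inf_le_right h2
  obtain ⟨P', hP', hP'2⟩ := h3
  have h4 : Del (Lg - P') ∈ I := by
    rw [← Ideal.Quotient.eq_zero_iff_mem, ← hΨa, map_sub, hP'2, sub_self]
  obtain ⟨y, hy, z, hz, hyz⟩ := Submodule.mem_sup.1 h4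
  obtain ⟨U, hU⟩ := Ideal.mem_span_singleton'.1 hz
  refine ⟨m * (c + 2), Lg - P', U, by nlinarith, fun i => ?_, ?_⟩
  · have e : (Lg - P').coeff i - MvPolynomial.C ((logP k (m * (c + 2))).coeff i) =
        - P'.coeff i := by
      rw [coeff_sub, hLg, coeff_map]
      ring
    rw [e]
    exact (Ideal.neg_mem_iff _).2 (a2c_coeff _ hP' i)
  · have e : Del (Lg - P') - psi k m * U = y := by
      rw [← hyz, ← hU]
      ring
    rw [e]
    exact hy

end Pool.Agent.Lib.H33S
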