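import Pool.Agent.Lib.H33S.Defs

/-!
# Chunk A4 (M): specialisation of the universal identity

Let `θ : MvPolynomial (Fin 3) B →+* T` be `MvPolynomial.eval₂Hom ((algebraMap R T).comp (MvPolynomial.aeval c)) h`. It kills `JJ`:
`θ (aeval (X i) gam_univ) = aeval (h i) (gam c) = 0`. In general `θ (aeval (X i) p) = aeval (h i) (p.map (MvPolynomial.aeval c))` for
`p : B[X]` (`Polynomial.induction_on` or `Polynomial.hom_eval₂`, `Polynomial.aeval_def`, `Polynomial.eval₂_map`). Apply `θ` to `D.key`
and take `w = θ D.V`.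
-/

namespace Pool.Agent.Lib.H33S

open Polynomial

universe u

theorem a4_gam_map {R S : Type*} [CommRing R] [CommRing S] {m : ℕ} (φ : R →+* S) (a : Fin m → R) :
    (gam a).map φ = gam (fun i => φ (a i)) := by
  unfold gam
  rw [Polynomial.map_add, Polynomial.map_pow, Polynomial.map_X, Polynomial.map_sum]
  congr 1
  refine Finset.sum_congr rfl fun i _ => ?_
  rw [Polynomial.map_mul, Polynomial.map_pow, Polynomial.map_X, Polynomial.map_C]

theorem Univ.spec {k : Type u} [Field k] {m : ℕ} (D : Univ k m) {R : Type*} [CommRing R]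
    [Algebra k R] (c : Fin m → R) {T : Type*} [CommRing T] [Algebra R T] (h : Fin 3 → T)
    (hh : ∀ i, aeval (h i) (gam c) = 0) :
    ∃ w : T, algebraMap R T (MvPolynomial.aeval c D.f) * ((1 + h 2) - (1 + h 0) * (1 + h 1)) =
      w * (aeval (h 2) (D.PP c) - aeval (h 0) (D.PP c) - aeval (h 1) (D.PP c)) := by
  set φ : BB k m →+* R := (MvPolynomial.aeval c : BB k m →ₐ[k] R).toRingHom with hφ
  set θ : MvPolynomial (Fin 3) (BB k m) →+* T :=
    MvPolynomial.eval₂Hom ((algebraMap R T).comp φ) h with hθ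
  have hC : ∀ b : BB k m, θ (MvPolynomial.C b) = algebraMap R T (φ b) := by
    intro b
    rw [hθ, MvPolynomial.eval₂Hom_C]
    rfl
  have hX : ∀ i, θ (MvPolynomial.X i) = h i := by
    intro i
    rw [hθ, MvPolynomial.eval₂Hom_X']
  have hA : ∀ (i : Fin 3) (p : (BB k m)[X]),
      θ (aeval (MvPolynomial.X i : MvPolynomial (Fin 3) (BB k m)) p) = aeval (h i) (p.map φ) := by
    intro i p
    rw [Polynomial.aeval_def, Polynomial.hom_eval₂, Polynomial.aeval_def, Polynomial.eval₂_map, hX]
    congr 1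
    exact RingHom.ext fun b => hC b
  have hJ : JJ k m ≤ RingHom.ker θ := by
    unfold JJ
    rw [Ideal.span_le]
    rintro _ ⟨i, rfl⟩
    rw [SetLike.mem_coe, RingHom.mem_ker]
    show θ _ = 0
    rw [hA, a4_gam_map]
    have e : (fun j : Fin m => φ (MvPolynomial.X j : BB k m)) = c := by
      funext j
      exact MvPolynomial.aeval_X c j
    rw [e]
    exact hh i
  have hk : θ (MvPolynomial.C D.f * psi k m - D.V * Del D.P) = 0 := hJ D.key
  rw [map_sub, map_mul, map_mul, hC] at hk
  have hpsi : θ (psi k m) = (1 + h 2) - (1 + h 0) * (1 + h 1) := by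
    unfold psi
    rw [map_sub, map_mul, map_add, map_add, map_add, map_one, hX, hX, hX]
  have hdel : θ (Del D.P) = aeval (h 2) (D.PP c) - aeval (h 0) (D.PP c) - aeval (h 1) (D.PP c) := by
    unfold Del
    rw [map_sub, map_sub, hA, hA, hA]
    rfl
  rw [hpsi, hdel] at hk
  exact ⟨θ D.V, sub_eq_zero.1 hk⟩

end Pool.Agent.Lib.H33S
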