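import Pool.Agent.Lib.H33S.Defs

/-!
# Chunk B2 (M): Cayley-Hamilton for the multiplication by `h` on `R[X]/χ`

For `f : R[X]` let `vec f : Fin m → R`, `i ↦ (f %ₘ χ).coeff i` (`R`-linear in `f`). Then `vec (f * h) = (mulMat m χ h).mulVec (vec f)`:
both sides are linear in `f` and depend only on `f %ₘ χ = ∑_{j<m} C (vec f j) X^j` (`(f * h) %ₘ χ = ((f %ₘ χ) * h) %ₘ χ`, degree of
`f %ₘ χ` is `< m`). So `vec (h^l * f) = (mulMat)^l.mulVec (vec f)` and, for `p : R[X]`, `vec (p.comp h) = (aeval (mulMat) p).mulVec (vec 1)`.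
For `p = charpoly` this is `0` (`Matrix.aeval_self_charpoly`), so `(p.comp h) %ₘ χ = 0` (its degree is `< m`) and `χ ∣ p.comp h`
(`Polynomial.modByMonic_eq_zero_iff_dvd`, called `(Polynomial.modByMonic_eq_zero_iff_dvd hχ).1`). Trivial ring: everything is `0`.
(Alternatively `AdjoinRoot.powerBasis'` and `Algebra.leftMulMatrix`.)
-/

namespace Pool.Agent.Lib.H33S

open Polynomial

theorem b2_expand {R : Type*} [CommRing R] [Nontrivial R] {m : ℕ} {χ : R[X]} (hχ : χ.Monic)
    (hd : χ.natDegree = m) (f : R[X]) :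
    f %ₘ χ = ∑ j : Fin m, (f %ₘ χ).coeff (j : ℕ) • (X : R[X]) ^ (j : ℕ) := by
  have hdeg : (f %ₘ χ).degree < m := by
    have h1 := Polynomial.degree_modByMonic_lt f hχ
    rwa [Polynomial.degree_eq_natDegree hχ.ne_zero, hd] at h1
  ext n
  rw [Polynomial.finsetSum_coeff]
  simp_rw [Polynomial.coeff_smul, Polynomial.coeff_X_pow, smul_eq_mul, mul_ite, mul_one, mul_zero]
  rcases lt_or_ge n m with hn | hn
  · rw [Finset.sum_eq_single (⟨n, hn⟩ : Fin m)]
    · rw [if_pos rfl]
    · intro j _ hj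
      rw [if_neg]
      intro h
      exact hj (Fin.ext h.symm)
    · intro h
      exact absurd (Finset.mem_univ _) h
  · rw [Polynomial.coeff_eq_zero_of_degree_lt (lt_of_lt_of_le hdeg (by exact_mod_cast hn))]
    refine (Finset.sum_eq_zero fun j _ => ?_).symm
    rw [if_neg]
    have := j.2
    omega

theorem b2_vec {R : Type*} [CommRing R] [Nontrivial R] {m : ℕ} {χ : R[X]} (hχ : χ.Monic)
    (hd : χ.natDegree = m) (h f : R[X]) :
    (fun i : Fin m => ((f * h) %ₘ χ).coeff (i : ℕ)) =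
      (mulMat m χ h).mulVec (fun j : Fin m => (f %ₘ χ).coeff (j : ℕ)) := by
  have e1 : (f * h) %ₘ χ = ((f %ₘ χ) * h) %ₘ χ := by
    refine Polynomial.modByMonic_eq_of_dvd_sub hχ ?_
    rw [← sub_mul]
    refine Dvd.dvd.mul_right ?_ h
    have h1 := Polynomial.modByMonic_add_div f χ
    exact ⟨f /ₘ χ, sub_eq_iff_eq_add'.2 h1.symm⟩
  funext i
  rw [e1]
  conv_lhs => rw [b2_expand hχ hd f]
  rw [Finset.sum_mul]
  have e2 : (∑ j : Fin m, (f %ₘ χ).coeff (j : ℕ) • (X : R[X]) ^ (j : ℕ) * h) %ₘ χ =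
      ∑ j : Fin m, (f %ₘ χ).coeff (j : ℕ) • (((X : R[X]) ^ (j : ℕ) * h) %ₘ χ) := by
    show Polynomial.modByMonicHom χ _ = _
    rw [map_sum]
    refine Finset.sum_congr rfl fun j _ => ?_
    rw [smul_mul_assoc, map_smul]
    rfl
  rw [e2, Polynomial.finsetSum_coeff, Matrix.mulVec, dotProduct]
  refine Finset.sum_congr rfl fun j _ => ?_
  rw [Polynomial.coeff_smul, smul_eq_mul, mul_comm]
  rfl

theorem dvd_charpoly_comp {R : Type*} [CommRing R] {m : ℕ} {χ : R[X]} (hχ : χ.Monic)
    (hd : χ.natDegree = m) (h : R[X]) : χ ∣ (mulMat m χ h).charpoly.comp h := by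
  rcases subsingleton_or_nontrivial R with hR | hR
  · exact ⟨0, Subsingleton.elim _ _⟩
  set M := mulMat m χ h with hM
  set v1 : Fin m → R := fun j : Fin m => ((1 : R[X]) %ₘ χ).coeff (j : ℕ) with hv1
  have hpow : ∀ n : ℕ, (fun i : Fin m => ((h ^ n) %ₘ χ).coeff (i : ℕ)) = (M ^ n).mulVec v1 := by
    intro n
    induction n with
    | zero => rw [pow_zero, pow_zero, Matrix.one_mulVec]
    | succ n ih =>
      rw [pow_succ, b2_vec hχ hd h (h ^ n), ih, Matrix.mulVec_mulVec, ← pow_succ']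
  have hall : ∀ p : R[X], (fun i : Fin m => ((p.comp h) %ₘ χ).coeff (i : ℕ)) =
      (aeval M p).mulVec v1 := by
    intro p
    induction p using Polynomial.induction_on' with
    | add p q hp hq =>
      rw [map_add, Matrix.add_mulVec, ← hp, ← hq, Polynomial.add_comp, Polynomial.add_modByMonic]
      funext i
      rw [Polynomial.coeff_add]
      rfl
    | monomial n a =>
      have e1 : ((monomial n a : R[X]).comp h) = a • h ^ n := by
        rw [← Polynomial.C_mul_X_pow_eq_monomial, Polynomial.mul_comp, Polynomial.C_comp,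
          Polynomial.X_pow_comp, Polynomial.smul_eq_C_mul]
      rw [e1, Polynomial.aeval_monomial, Polynomial.smul_modByMonic]
      have e2 : algebraMap R (Matrix (Fin m) (Fin m) R) a * M ^ n = a • M ^ n := by
        rw [Algebra.smul_def]
      rw [e2, Matrix.smul_mulVec, ← hpow n]
      funext i
      rw [Polynomial.coeff_smul]
      rfl
  have h0 := hall M.charpoly
  rw [Matrix.aeval_self_charpoly, Matrix.zero_mulVec] at h0
  rw [← Polynomial.modByMonic_eq_zero_iff_dvd hχ, b2_expand hχ hd]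
  refine Finset.sum_eq_zero fun j _ => ?_
  have := congrFun h0 j
  simp only [Pi.zero_apply] at this
  rw [this, zero_smul]

end Pool.Agent.Lib.H33S
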