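import Pool.Agent.Lib.H33S.A4
import Pool.Agent.Lib.H33S.B2
import Pool.Agent.Lib.H33S.B3

/-!
# Chunk A5 (M): `e` is an exponential; `e` is a unit

Put `c = cc χ e`, `h i = aeval (s i) (eP e) - 1 = aeval (s i) (eP e - 1)`.
* `χ ∣ (gam c).comp (eP e - 1)` (`dvd_charpoly_comp`, `charpoly_eq_gam`) and `aeval (s i) χ = 0` give `aeval (h i) (gam c) = 0`
  (`Polynomial.aeval_comp`). This is `a5_gam`.
* `D.FF χ e = 0` gives `χ ∣ (D.PP c).comp (eP e - 1) - X` (`Polynomial.modByMonic_eq_zero_iff_dvd hχ`), so `aeval (h i) (D.PP c) = s i`. This is `a5_PP`.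
* `exp_rel`: `D.spec c h`: `f(c) * ((1 + h 2) - (1 + h 0)(1 + h 1)) = w (s 2 - s 0 - s 1)`; `f(c)` is a unit because
  `ft c = f(c) * _` is (`isUnit_of_mul_isUnit_left`); multiply by its inverse.
* `exp_unit`: `gam c = C ((gam c).eval (-1)) + (X + 1) * q` (`Polynomial.X_sub_C_mul_divByMonic_eq_sub_modByMonic`-like,
  `Polynomial.sub_dvd_eval_sub`, `dvd_iff_isRoot`); evaluate at `h = aeval s (eP e) - 1`: `0 = algebraMap u + (aeval s (eP e)) * q(h)` with `u` a unit.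
-/

namespace Pool.Agent.Lib.H33S

open Polynomial

universe u

variable {k : Type u} [Field k] {m : ℕ} (D : Univ k m) {R : Type*} [CommRing R] [Algebra k R]
  {T : Type*} [CommRing T] [Algebra R T] {χ : R[X]} (hχ : χ.Monic) (hd : χ.natDegree = m)
  {e : Fin m → R}

include hχ hd

omit [Algebra k R] in
theorem a5_gam {s : T} (hs : aeval s χ = 0) :
    aeval (aeval s (eP e) - 1) (gam (cc χ e)) = 0 := by
  have h1 : χ ∣ (gam (cc χ e)).comp (eP e - 1) := by
    rw [← charpoly_eq_gam χ e]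
    exact dvd_charpoly_comp hχ hd _
  obtain ⟨q, hq⟩ := h1
  have h2 : aeval s ((gam (cc χ e)).comp (eP e - 1)) = 0 := by
    rw [hq, map_mul, hs, zero_mul]
  rw [Polynomial.aeval_comp, map_sub, map_one] at h2
  exact h2

omit hd in
theorem a5_PP (hF : D.FF χ e = 0) {s : T} (hs : aeval s χ = 0) :
    aeval (aeval s (eP e) - 1) (D.PP (cc χ e)) = s := by
  have h1 : χ ∣ (D.PP (cc χ e)).comp (eP e - 1) - X :=
    (Polynomial.modByMonic_eq_zero_iff_dvd hχ).1 hF
  obtain ⟨q, hq⟩ := h1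
  have h2 : aeval s ((D.PP (cc χ e)).comp (eP e - 1) - X) = 0 := by
    rw [hq, map_mul, hs, zero_mul]
  rw [map_sub, Polynomial.aeval_comp, aeval_X, sub_eq_zero, map_sub, map_one] at h2
  exact h2

theorem exp_rel (hF : D.FF χ e = 0) (hu : IsUnit (D.ft (cc χ e))) (s : Fin 3 → T)
    (hs : ∀ i, aeval (s i) χ = 0) :
    ∃ w : T, aeval (s 2) (eP e) - aeval (s 0) (eP e) * aeval (s 1) (eP e) =
      w * (s 2 - s 0 - s 1) := by
  obtain ⟨w, hw⟩ := D.spec (cc χ e) (fun i => aeval (s i) (eP e) - 1)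
    (fun i => a5_gam hχ hd (hs i))
  have hfu : IsUnit (MvPolynomial.aeval (cc χ e) D.f : R) := isUnit_of_mul_isUnit_left hu
  obtain ⟨u, hu'⟩ := hfu
  rw [← hu'] at hw
  simp only [a5_PP D hχ hF (hs _)] at hw
  refine ⟨algebraMap R T ↑u⁻¹ * w, ?_⟩
  have h1 : algebraMap R T ↑u⁻¹ * algebraMap R T ↑u = 1 := by
    rw [← map_mul, Units.inv_mul, map_one]
  calc aeval (s 2) (eP e) - aeval (s 0) (eP e) * aeval (s 1) (eP e)
      = (algebraMap R T ↑u⁻¹ * algebraMap R T ↑u) *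
        ((1 + (aeval (s 2) (eP e) - 1)) - (1 + (aeval (s 0) (eP e) - 1)) *
          (1 + (aeval (s 1) (eP e) - 1))) := by rw [h1]; ring
    _ = algebraMap R T ↑u⁻¹ * (w * (s 2 - s 0 - s 1)) := by rw [mul_assoc, hw]
    _ = algebraMap R T ↑u⁻¹ * w * (s 2 - s 0 - s 1) := by ring

theorem exp_unit (hu : IsUnit (D.ft (cc χ e))) {s : T} (hs : aeval s χ = 0) :
    IsUnit (aeval s (eP e)) := by
  have hg := a5_gam (e := e) hχ hd hs
  have hgu : IsUnit ((gam (cc χ e)).eval (-1)) := isUnit_of_mul_isUnit_right hu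
  have hdvd : (X - C (-1 : R)) ∣ gam (cc χ e) - C ((gam (cc χ e)).eval (-1)) := by
    rw [dvd_iff_isRoot]
    simp
  obtain ⟨q, hq⟩ := hdvd
  have h2 := congrArg (aeval (aeval s (eP e) - 1)) hq
  rw [map_sub, hg, aeval_C, map_mul, map_sub, aeval_X, aeval_C, map_neg, map_one] at h2
  have h3 : aeval s (eP e) * -(aeval (aeval s (eP e) - 1) q) =
      algebraMap R T ((gam (cc χ e)).eval (-1)) := by
    linear_combination h2
  exact isUnit_of_mul_isUnit_left (h3 ▸ (hgu.map (algebraMap R T)))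

end Pool.Agent.Lib.H33S
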