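import Pool.Agent.Lib.H33S.A5

/-!
# Chunk A7 (S): the constant coefficient is `1`

`m = n + 1`. Use `exp_rel` and `exp_unit` with `T = R`, `s i = 0` (`aeval 0 χ = χ.coeff 0 = 0`): `aeval 0 (eP e) = e 0`
(`coeff_zero_eq_aeval_zero`, `eP_coeff`), so `e 0 = e 0 * e 0` and `e 0` is a unit.
-/

namespace Pool.Agent.Lib.H33S

open Polynomial

universe u

theorem e_zero {k : Type u} [Field k] {n : ℕ} (D : Univ k (n + 1)) {R : Type*} [CommRing R]
    [Algebra k R] {χ : R[X]} (hχ : χ.Monic) (hd : χ.natDegree = n + 1) (h0 : χ.coeff 0 = 0)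
    {e : Fin (n + 1) → R} (hF : D.FF χ e = 0) (hu : IsUnit (D.ft (cc χ e))) : e 0 = 1 := by
  have hs : ∀ i : Fin 3, aeval ((fun _ => (0 : R)) i) χ = 0 := fun i => by
    show aeval (0 : R) χ = 0
    rw [← coeff_zero_eq_aeval_zero, h0]
  obtain ⟨w, hw⟩ := exp_rel D hχ hd hF hu (fun _ : Fin 3 => (0 : R)) hs
  have hun := exp_unit (T := R) D hχ hd hu (hs 0)
  have he : aeval (0 : R) (eP e) = e 0 := by
    rw [← coeff_zero_eq_aeval_zero]
    exact eP_coeff e 0
  have hw' : e 0 - e 0 * e 0 = w * (0 - 0 - 0) := by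
    rw [← he]
    exact hw
  have hun' : IsUnit (e 0) := by
    rw [← he]
    exact hun
  have h1 : e 0 * 1 = e 0 * e 0 := by
    rw [sub_zero, sub_zero, mul_zero, sub_eq_zero] at hw'
    rw [mul_one]
    exact hw'
  exact (hun'.mul_left_cancel h1).symm

end Pool.Agent.Lib.H33S
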