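import Pool.Agent.Lib.H33S.Defs

/-!
# Chunk B1 (S/M): base change of the constructions

`mulMat_map`: entrywise `Polynomial.map_modByMonic`, `coeff_map`. `cc_map`: `Matrix.charpoly_map`. `PP_map`: `Polynomial.map_map` and
`MvPolynomial` algebra homomorphisms out of `BB k m` agree on the variables. `FF_map`: `map_modByMonic`, `Polynomial.map_comp`.
`ft_map`: `MvPolynomial.map_aeval`-like, `Polynomial.eval_map`/`hom_eval₂`.
-/

namespace Pool.Agent.Lib.H33S

open Polynomial

universe u

section rings

variable {R S : Type*} [CommRing R] [CommRing S] {m : ℕ}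

theorem gam_map (φ : R →+* S) (a : Fin m → R) : (gam a).map φ = gam (fun i => φ (a i)) := by
  unfold gam
  rw [Polynomial.map_add, Polynomial.map_pow, Polynomial.map_X, Polynomial.map_sum]
  refine congrArg _ (Finset.sum_congr rfl fun i _ => ?_)
  rw [Polynomial.map_mul, Polynomial.map_C, Polynomial.map_pow, Polynomial.map_X]

theorem eP_map (φ : R →+* S) (e : Fin m → R) : (eP e).map φ = eP (fun i => φ (e i)) := by
  unfold eP
  rw [Polynomial.map_sum]
  refine Finset.sum_congr rfl fun i _ => ?_
  rw [Polynomial.map_mul, Polynomial.map_C, Polynomial.map_pow, Polynomial.map_X]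

theorem mulMat_map (φ : R →+* S) {χ : R[X]} (hχ : χ.Monic) (h : R[X]) :
    (mulMat m χ h).map φ = mulMat m (χ.map φ) (h.map φ) := by
  ext i j
  simp only [mulMat, Matrix.map_apply, Matrix.of_apply]
  rw [← Polynomial.coeff_map, Polynomial.map_modByMonic φ hχ, Polynomial.map_mul,
    Polynomial.map_pow, Polynomial.map_X]

theorem cc_map (φ : R →+* S) {χ : R[X]} (hχ : χ.Monic) (e : Fin m → R) :
    cc (χ.map φ) (fun i => φ (e i)) = fun i => φ (cc χ e i) := by
  funext i
  unfold cc
  have h1 : mulMat m (χ.map φ) (eP (fun i => φ (e i)) - 1) = (mulMat m χ (eP e - 1)).map φ := by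
    rw [mulMat_map φ hχ, Polynomial.map_sub, Polynomial.map_one, eP_map]
  rw [h1, Matrix.charpoly_map, Polynomial.coeff_map]

end rings

section algebras

variable {k : Type u} [Field k] {m : ℕ} (D : Univ k m) {R S : Type*} [CommRing R] [CommRing S]
  [Algebra k R] [Algebra k S]

theorem PP_map (φ : R →ₐ[k] S) (c : Fin m → R) :
    (D.PP c).map (φ : R →+* S) = D.PP (fun i => φ (c i)) := by
  unfold Univ.PP
  rw [Polynomial.map_map]
  congr 1
  ext x
  · simp
  · simp

theorem ft_map (φ : R →ₐ[k] S) (c : Fin m → R) : φ (D.ft c) = D.ft (fun i => φ (c i)) := by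
  unfold Univ.ft
  rw [map_mul]
  have h1 : φ (MvPolynomial.aeval c D.f) = MvPolynomial.aeval (fun i => φ (c i)) D.f := by
    have h2 := MvPolynomial.comp_aeval c φ
    exact DFunLike.congr_fun h2 D.f
  have h3 : φ ((gam c).eval (-1)) = (gam (fun i => φ (c i))).eval (-1) := by
    have h4 := gam_map (φ : R →+* S) c
    have h5 : (gam (fun i => φ (c i))) = (gam c).map (φ : R →+* S) := h4.symm
    have h6 : ((gam c).map (φ : R →+* S)).eval ((φ : R →+* S) (-1)) =
        (φ : R →+* S) ((gam c).eval (-1)) := by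
      rw [Polynomial.eval_map, Polynomial.eval₂_at_apply]
    rw [map_neg, map_one] at h6
    rw [h5, h6]
    rfl
  rw [h1, h3]

theorem FF_map (φ : R →ₐ[k] S) {χ : R[X]} (hχ : χ.Monic) (e : Fin m → R) :
    (D.FF χ e).map (φ : R →+* S) = D.FF (χ.map (φ : R →+* S)) (fun i => φ (e i)) := by
  unfold Univ.FF
  have h1 : cc (χ.map (φ : R →+* S)) (fun i => φ (e i)) = fun i => φ (cc χ e i) :=
    cc_map (φ : R →+* S) hχ e
  rw [Polynomial.map_modByMonic _ hχ, Polynomial.map_sub, Polynomial.map_comp, PP_map,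
    Polynomial.map_sub, Polynomial.map_one, eP_map, Polynomial.map_X, h1]
  rfl

end algebras

end Pool.Agent.Lib.H33S
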