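import Pool.Agent.Lib.H33S.B1

/-!
# Chunk B4 (M): evaluation of the relations

`rel_eval`: `FF_map` for the `k`-algebra homomorphism `MvPolynomial (Fin m) R → S` with `C r ↦ φ r`, `X i ↦ e i` (build it as an `AlgHom` over
`k`: `{ MvPolynomial.eval₂Hom (φ : R →+* S) e with commutes' := _ }`), and `Polynomial.map_map`: `(χ.map C).map (eval₂Hom φ e) = χ.map φ`.
`χ.map C` is monic. `fR_eval` the same with `ft_map`, `cc_map`.
`rel_map`: apply `FF_map` to the map `MvPolynomial.map φ` (`MvPolynomial.mapAlgHom`-like; as a `k`-algebra homomorphism), `map_X`, `map_C`.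
`jac_map`: `RingHom.map_det`, `MvPolynomial.pderiv_map`, `rel_map`. `jac_eval`: `MvPolynomial.eval₂Hom φ e p = eval e (map φ p)`
(`MvPolynomial.eval₂_eq_eval_map`), `jac_map`.
-/

namespace Pool.Agent.Lib.H33S

open Polynomial

universe u

variable {k : Type u} [Field k] {m : ℕ} (D : Univ k m) {R S : Type*} [CommRing R] [CommRing S]
  [Algebra k R] [Algebra k S] (φ : R →ₐ[k] S) {χ : R[X]} (hχ : χ.Monic)

/-- The evaluation as a homomorphism of `k`-algebras. -/
noncomputable def b4_ev (e : Fin m → S) : MvPolynomial (Fin m) R →ₐ[k] S :=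
  { MvPolynomial.eval₂Hom (φ : R →+* S) e with
    commutes' := fun r => by
      show MvPolynomial.eval₂Hom (φ : R →+* S) e (algebraMap k (MvPolynomial (Fin m) R) r) =
        algebraMap k S r
      rw [IsScalarTower.algebraMap_apply k R (MvPolynomial (Fin m) R) r,
        MvPolynomial.algebraMap_eq, MvPolynomial.eval₂Hom_C]
      exact φ.commutes r }

theorem b4_ev_coe (e : Fin m → S) :
    ((b4_ev φ e : MvPolynomial (Fin m) R →ₐ[k] S) : MvPolynomial (Fin m) R →+* S) =
      MvPolynomial.eval₂Hom (φ : R →+* S) e := rfl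

theorem b4_ev_apply (e : Fin m → S) (p : MvPolynomial (Fin m) R) :
    b4_ev φ e p = MvPolynomial.eval₂Hom (φ : R →+* S) e p := rfl

theorem b4_ev_X (e : Fin m → S) :
    (fun j : Fin m => b4_ev φ e (MvPolynomial.X j)) = e := by
  funext j
  rw [b4_ev_apply, MvPolynomial.eval₂Hom_X']

theorem b4_ev_map (e : Fin m → S) (χ : R[X]) :
    (χ.map (MvPolynomial.C : R →+* MvPolynomial (Fin m) R)).map
      ((b4_ev φ e : MvPolynomial (Fin m) R →ₐ[k] S) : MvPolynomial (Fin m) R →+* S) =
      χ.map (φ : R →+* S) := by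
  rw [b4_ev_coe, Polynomial.map_map, MvPolynomial.eval₂Hom_comp_C]

/-- The map of the coefficients as a homomorphism of `k`-algebras. -/
noncomputable def b4_mp : MvPolynomial (Fin m) R →ₐ[k] MvPolynomial (Fin m) S :=
  { MvPolynomial.map (φ : R →+* S) with
    commutes' := fun r => by
      show MvPolynomial.map (φ : R →+* S) (algebraMap k (MvPolynomial (Fin m) R) r) =
        algebraMap k (MvPolynomial (Fin m) S) r
      rw [IsScalarTower.algebraMap_apply k R (MvPolynomial (Fin m) R) r,
        IsScalarTower.algebraMap_apply k S (MvPolynomial (Fin m) S) r,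
        MvPolynomial.algebraMap_eq, MvPolynomial.algebraMap_eq, MvPolynomial.map_C]
      exact congrArg MvPolynomial.C (φ.commutes r) }

theorem b4_mp_coe :
    ((b4_mp (m := m) φ : MvPolynomial (Fin m) R →ₐ[k] MvPolynomial (Fin m) S) :
      MvPolynomial (Fin m) R →+* MvPolynomial (Fin m) S) = MvPolynomial.map (φ : R →+* S) := rfl

theorem b4_mp_X :
    (fun j : Fin m => b4_mp (m := m) φ (MvPolynomial.X j)) =
      fun j : Fin m => (MvPolynomial.X j : MvPolynomial (Fin m) S) := by
  funext j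
  exact MvPolynomial.map_X (φ : R →+* S) j

theorem b4_mp_map (χ : R[X]) :
    (χ.map (MvPolynomial.C : R →+* MvPolynomial (Fin m) R)).map
      ((b4_mp (m := m) φ : MvPolynomial (Fin m) R →ₐ[k] MvPolynomial (Fin m) S) :
        MvPolynomial (Fin m) R →+* MvPolynomial (Fin m) S) =
      (χ.map (φ : R →+* S)).map (MvPolynomial.C : S →+* MvPolynomial (Fin m) S) := by
  rw [b4_mp_coe, Polynomial.map_map, Polynomial.map_map]
  have h : (MvPolynomial.map (φ : R →+* S)).comp (MvPolynomial.C : R →+* MvPolynomial (Fin m) R) =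
      (MvPolynomial.C : S →+* MvPolynomial (Fin m) S).comp (φ : R →+* S) := by
    refine RingHom.ext fun r => ?_
    show MvPolynomial.map (φ : R →+* S) (MvPolynomial.C r) = MvPolynomial.C (φ r)
    rw [MvPolynomial.map_C]
    rfl
  rw [h]

include hχ

theorem rel_eval (e : Fin m → S) (i : Fin m) :
    MvPolynomial.eval₂Hom (φ : R →+* S) e (D.rel χ i) =
      (D.FF (χ.map (φ : R →+* S)) e).coeff i := by
  have h1 := FF_map D (b4_ev φ e)
    (hχ.map (MvPolynomial.C : R →+* MvPolynomial (Fin m) R))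
    (fun j : Fin m => (MvPolynomial.X j : MvPolynomial (Fin m) R))
  rw [b4_ev_map, b4_ev_X] at h1
  rw [← h1, Polynomial.coeff_map]
  rfl

theorem fR_eval (e : Fin m → S) :
    MvPolynomial.eval₂Hom (φ : R →+* S) e (D.fR χ) =
      D.ft (cc (χ.map (φ : R →+* S)) e) := by
  have h1 := ft_map D (b4_ev φ e)
    (cc (χ.map (MvPolynomial.C : R →+* MvPolynomial (Fin m) R))
      (fun j : Fin m => (MvPolynomial.X j : MvPolynomial (Fin m) R)))
  have h2 := cc_map ((b4_ev φ e : MvPolynomial (Fin m) R →ₐ[k] S) :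
      MvPolynomial (Fin m) R →+* S)
    (hχ.map (MvPolynomial.C : R →+* MvPolynomial (Fin m) R))
    (fun j : Fin m => (MvPolynomial.X j : MvPolynomial (Fin m) R))
  rw [b4_ev_map] at h2
  have h3 : (fun j : Fin m => ((b4_ev φ e : MvPolynomial (Fin m) R →ₐ[k] S) :
      MvPolynomial (Fin m) R →+* S) (MvPolynomial.X j)) = e := b4_ev_X φ e
  rw [h3] at h2
  rw [h2]
  exact h1

theorem rel_map (i : Fin m) :
    MvPolynomial.map (φ : R →+* S) (D.rel χ i) = D.rel (χ.map (φ : R →+* S)) i := by
  have h1 := FF_map D (b4_mp (m := m) φ)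
    (hχ.map (MvPolynomial.C : R →+* MvPolynomial (Fin m) R))
    (fun j : Fin m => (MvPolynomial.X j : MvPolynomial (Fin m) R))
  rw [b4_mp_map, b4_mp_X] at h1
  show MvPolynomial.map (φ : R →+* S) (D.rel χ i) =
    (D.FF ((χ.map (φ : R →+* S)).map (MvPolynomial.C : S →+* MvPolynomial (Fin m) S))
      (fun j : Fin m => (MvPolynomial.X j : MvPolynomial (Fin m) S))).coeff i
  rw [← h1, Polynomial.coeff_map]
  rfl

theorem jac_map :
    MvPolynomial.map (φ : R →+* S) (D.jac χ) = D.jac (χ.map (φ : R →+* S)) := by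
  show MvPolynomial.map (φ : R →+* S)
      (Matrix.of fun i j : Fin m => MvPolynomial.pderiv i (D.rel χ j)).det =
    (Matrix.of fun i j : Fin m =>
      MvPolynomial.pderiv i (D.rel (χ.map (φ : R →+* S)) j)).det
  rw [RingHom.map_det]
  refine congrArg Matrix.det (Matrix.ext fun i j => ?_)
  show MvPolynomial.map (φ : R →+* S) (MvPolynomial.pderiv i (D.rel χ j)) =
    MvPolynomial.pderiv i (D.rel (χ.map (φ : R →+* S)) j)
  rw [← rel_map D φ hχ j, MvPolynomial.pderiv_map]

theorem jac_eval (e : Fin m → S) :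
    MvPolynomial.eval₂Hom (φ : R →+* S) e (D.jac χ) =
      MvPolynomial.eval e (D.jac (χ.map (φ : R →+* S))) := by
  rw [← jac_map D φ hχ, MvPolynomial.eval_map]
  rfl

end Pool.Agent.Lib.H33S
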