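import Pool.Agent.Lib.H33S.B4

/-!
# Chunk B4b (S/M): points of the etale algebra

`good_iff`: `Good` is the vanishing of the relations `vv`. For `inl i`: `MvPolynomial.eval₂Hom_rename`-like
(`MvPolynomial.eval₂_rename`), `rel_eval`. `FF` is a remainder modulo a monic polynomial of degree `m` (if `S` is nontrivial,
`(χ.map φ).natDegree = m`), so `FF = 0` iff its coefficients `i < m` vanish (`Polynomial.ext`, `coeff_eq_zero_of_degree_lt`,
`degree_modByMonic_lt`). Trivial `S`: everything is `0`. For `inr`: `jac_eval`, `fR_eval`, `sub_eq_zero`.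
`good_map`: from `FF_map`, `jac_eval`-like (`eval (φ ∘ e) (jac (χ.map φ)) = eval (φ ∘ e) (map φ (jac χ)) = φ (eval e (jac χ))`), `ft_map`, `cc_map`.
-/

namespace Pool.Agent.Lib.H33S

open Polynomial

universe u

variable {k : Type u} [Field k] {m : ℕ} (D : Univ k m) {R S : Type u} [CommRing R] [CommRing S]
  [Algebra k R] [Algebra k S] (φ : R →ₐ[k] S) {χ : R[X]} (hχ : χ.Monic)

include hχ

theorem good_iff (hd : χ.natDegree = m) (e : Fin m → S) (t : S) :
    D.Good (χ.map (φ : R →+* S)) e t ↔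
      ∀ i, MvPolynomial.eval₂Hom (φ : R →+* S) (Sum.elim e (fun _ => t)) (D.vv χ i) = 0 := by
  have hren : ∀ p : MvPolynomial (Fin m) R,
      MvPolynomial.eval₂Hom (φ : R →+* S) (Sum.elim e (fun _ : Unit => t))
        (MvPolynomial.rename Sum.inl p) = MvPolynomial.eval₂Hom (φ : R →+* S) e p := by
    intro p
    rw [MvPolynomial.coe_eval₂Hom, MvPolynomial.coe_eval₂Hom, MvPolynomial.eval₂_rename,
      Sum.elim_comp_inl]
  have hinl : ∀ i : Fin m, MvPolynomial.eval₂Hom (φ : R →+* S) (Sum.elim e (fun _ => t))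
      (D.vv χ (Sum.inl i)) = (D.FF (χ.map (φ : R →+* S)) e).coeff i := by
    intro i
    rw [Univ.vv, hren, rel_eval D φ hχ]
  have hinr : ∀ u : Unit, MvPolynomial.eval₂Hom (φ : R →+* S) (Sum.elim e (fun _ => t))
      (D.vv χ (Sum.inr u)) =
        t * (MvPolynomial.eval e (D.jac (χ.map (φ : R →+* S))) *
          D.ft (cc (χ.map (φ : R →+* S)) e)) - 1 := by
    intro u
    rw [Univ.vv, map_sub, map_mul, hren, map_mul, jac_eval D φ hχ, fR_eval D φ hχ, map_one,
      MvPolynomial.eval₂Hom_X', Sum.elim_inr]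
  constructor
  · intro h i
    rcases i with i | u
    · rw [hinl, h.rel, coeff_zero]
    · rw [hinr, h.unit, sub_self]
  · intro h
    refine ⟨?_, ?_⟩
    · rcases subsingleton_or_nontrivial S with hS | hS
      · exact Subsingleton.elim _ _
      · ext j
        rw [coeff_zero]
        by_cases hj : j < m
        · exact (hinl ⟨j, hj⟩).symm.trans (h (Sum.inl ⟨j, hj⟩))
        · apply coeff_eq_zero_of_degree_lt
          rw [Univ.FF]
          refine lt_of_lt_of_le (degree_modByMonic_lt _ (hχ.map _)) ?_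
          rw [degree_eq_natDegree (hχ.map (φ : R →+* S)).ne_zero, hχ.natDegree_map, hd]
          exact_mod_cast not_lt.mp hj
    · exact sub_eq_zero.mp ((hinr ()).symm.trans (h (Sum.inr ())))

theorem good_map {e : Fin m → R} {t : R} (h : D.Good χ e t) :
    D.Good (χ.map (φ : R →+* S)) (fun i => φ (e i)) (φ t) := by
  have hj : MvPolynomial.eval (fun i => φ (e i)) (D.jac (χ.map (φ : R →+* S))) =
      φ (MvPolynomial.eval e (D.jac χ)) := by
    rw [← jac_eval D φ hχ]
    have h1 := MvPolynomial.eval₂_comp_left (φ : R →+* S) (RingHom.id R) e (D.jac χ)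
    rw [RingHom.comp_id] at h1
    exact h1.symm
  refine ⟨?_, ?_⟩
  · rw [← FF_map D φ hχ, h.rel, Polynomial.map_zero]
  · have hc := cc_map (φ : R →+* S) hχ e
    have hc' : cc (χ.map (φ : R →+* S)) (fun i => φ (e i)) = fun i => φ (cc χ e i) := hc
    rw [hj, hc', ← ft_map, ← map_mul, ← map_mul, h.unit, map_one]

end Pool.Agent.Lib.H33S
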