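import Pool.Agent.Lib.H33S.B1

/-!
# Chunk B5b (M): characteristic polynomials near the base point

`b5b_mulMat`: for `χ = X^m` the matrix `mulMat m (X^m) h` has entries `(i, j) ↦ h.coeff (i - j)` if `j ≤ i`, else `0`
(`X^m ∣ p - p %ₘ X^m`, coefficients below `m` agree: `Polynomial.coeff_X_pow_mul'`, `modByMonic_add_div`).
`cc_base`: if `(eP e).coeff 0 = 1` then the matrix for `h = eP e - 1` is strictly lower triangular, so its characteristic polynomial is
`X^m` (`Matrix.charpoly_of_upperTriangular` for the transpose (`Matrix.charpoly_transpose`), or `Matrix.charpoly` = det of a triangular matrix,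
`Matrix.det_of_lowerTriangular`), and its coefficients below `m` vanish.
`cc_dual`: over the dual numbers: apply `cc_map` to `TrivSqZeroExt.fstHom k k k`: the `fst` of `cc` is `cc` of the `fst`s, which is `0`.
-/

namespace Pool.Agent.Lib.H33S

open Polynomial

universe u

theorem b5b_mulMat {R : Type*} [CommRing R] {m : ℕ} (h : R[X]) (i j : Fin m) :
    mulMat m (X ^ m) h i j = if (j : ℕ) ≤ i then h.coeff (i - j) else 0 := by
  have hsplit := modByMonic_add_div (X ^ (j : ℕ) * h) (X ^ m : R[X])
  have hcoef : ((X ^ (j : ℕ) * h) %ₘ X ^ m).coeff i = (X ^ (j : ℕ) * h).coeff i := by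
    conv_rhs => rw [← hsplit]
    rw [coeff_add, coeff_X_pow_mul', if_neg (by omega), add_zero]
  rw [mulMat, Matrix.of_apply, hcoef, coeff_X_pow_mul']

theorem cc_base {R : Type*} [CommRing R] {m : ℕ} {e : Fin m → R} (he : (eP e).coeff 0 = 1) :
    cc (X ^ m) e = 0 := by
  funext i
  have htri : ((mulMat m (X ^ m) (eP e - 1)).transpose).BlockTriangular id := by
    intro a b hab
    rw [Matrix.transpose_apply, b5b_mulMat, if_neg]
    have h1 : (b : Fin m) < a := hab
    have h2 : (b : ℕ) < (a : ℕ) := h1
    omega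
  have hch : (mulMat m (X ^ m) (eP e - 1)).charpoly = X ^ m := by
    rw [← Matrix.charpoly_transpose, Matrix.charpoly_of_upperTriangular _ htri]
    have hd : ∀ a : Fin m, (X - C ((mulMat m (X ^ m) (eP e - 1)).transpose a a) : R[X]) = X := by
      intro a
      rw [Matrix.transpose_apply, b5b_mulMat, if_pos le_rfl, Nat.sub_self, coeff_sub, he,
        coeff_one_zero, sub_self, map_zero, sub_zero]
    rw [Finset.prod_congr rfl (fun a _ => hd a), Finset.prod_const, Finset.card_univ,
      Fintype.card_fin]
  rw [cc, hch, coeff_X_pow, if_neg (by omega), Pi.zero_apply]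

theorem cc_dual {k : Type u} [Field k] {m : ℕ} {e : Fin m → DualNumber k}
    (he : TrivSqZeroExt.fst ((eP e).coeff 0) = 1) (i : Fin m) :
    TrivSqZeroExt.fst (cc (X ^ m) e i) = 0 := by
  have h1 := cc_map (TrivSqZeroExt.fstHom k k k : DualNumber k →+* k) (monic_X_pow m) e
  have h2 : (eP (fun i => (TrivSqZeroExt.fstHom k k k : DualNumber k →+* k) (e i))).coeff 0 = 1 := by
    rw [← eP_map, coeff_map]
    exact he
  rw [Polynomial.map_pow, map_X, cc_base h2] at h1
  exact (congrFun h1 i).symm

end Pool.Agent.Lib.H33S
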