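import Pool.Agent.Lib.H33S.Defs

/-!
# Chunk B5c (S/M): `P` for small coefficients

If `c i * c j = 0` for all `i, j` then `MvPolynomial.aeval c` kills `irr^2` (`Ideal.span_pow`-like, `Submodule.span_induction`,
`Ideal.pow_le_iff`; an element of `irr^2` is a combination of the products `X i * X j`: `Ideal.span_mul_span'`, `pow_two`), so by `D.hP` the
coefficients of `D.PP c` are those of `logP k D.N` (`coeff_map`, `MvPolynomial.aeval_C`).
-/

namespace Pool.Agent.Lib.H33S

open Polynomial

universe u

theorem PP_small {k : Type u} [Field k] {m : ℕ} (D : Univ k m) {R : Type*} [CommRing R]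
    [Algebra k R] {c : Fin m → R} (hc : ∀ i j, c i * c j = 0) :
    D.PP c = (logP k D.N).map (algebraMap k R) := by
  have hker : irr k m ^ 2 ≤ RingHom.ker (MvPolynomial.aeval c : BB k m →ₐ[k] R).toRingHom := by
    rw [pow_two, irr, Ideal.span_mul_span', Ideal.span_le]
    rintro _ ⟨_, ⟨i, rfl⟩, _, ⟨j, rfl⟩, rfl⟩
    simp [RingHom.mem_ker, hc]
  ext i
  rw [Univ.PP, coeff_map, coeff_map]
  have h := hker (D.hP i)
  rw [RingHom.mem_ker, map_sub, sub_eq_zero] at h
  rw [h]
  simp

end Pool.Agent.Lib.H33S
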