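import Pool.Agent.Lib.H33S.Defs

/-!
# Chunk B5d (S): partial derivatives and dual numbers

`MvPolynomial.induction_on p`: both sides are `R`-linear in `p`, value at constants, and for `p * X j` use the product rule
(`MvPolynomial.pderiv` is a derivation, `TrivSqZeroExt.snd_mul`). The first component is `eval e p` (`fst`).
-/

namespace Pool.Agent.Lib.H33S

universe u

theorem eval_dual {k : Type u} [Field k] {m : ℕ} (p : MvPolynomial (Fin m) k) (e : Fin m → k)
    (i : Fin m) :
    MvPolynomial.aeval (fun j : Fin m =>
      (TrivSqZeroExt.inl (e j) + if j = i then DualNumber.eps else 0 : DualNumber k)) p =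
      TrivSqZeroExt.inl (MvPolynomial.eval e p) +
        TrivSqZeroExt.inr (MvPolynomial.eval e (MvPolynomial.pderiv i p)) := by
  induction p using MvPolynomial.induction_on with
  | C a =>
    simp [TrivSqZeroExt.algebraMap_eq_inl']
  | add p q hp hq =>
    rw [map_add, hp, hq]
    ext <;> simp [map_add]
  | mul_X p j hp =>
    have h1 : (TrivSqZeroExt.inl (e j) + if j = i then DualNumber.eps else 0 : DualNumber k) =
        TrivSqZeroExt.inl (e j) + TrivSqZeroExt.inr (if j = i then 1 else 0) := by
      by_cases hj : j = i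
      · rw [if_pos hj, if_pos hj]; rfl
      · rw [if_neg hj, if_neg hj, TrivSqZeroExt.inr_zero]
    rw [map_mul, hp, MvPolynomial.aeval_X, h1, Derivation.leibniz, MvPolynomial.pderiv_X]
    have h2 : MvPolynomial.eval e
        (Pi.single (M := fun _ => MvPolynomial (Fin m) k) i (1 : MvPolynomial (Fin m) k) j) =
        if j = i then (1 : k) else 0 := by
      by_cases hj : j = i
      · subst hj; simp
      · simp [hj]
    ext
    · simp only [TrivSqZeroExt.fst_mul, TrivSqZeroExt.fst_add, TrivSqZeroExt.fst_inl,
        TrivSqZeroExt.fst_inr, add_zero, map_mul, MvPolynomial.eval_X]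
    · simp only [TrivSqZeroExt.snd_mul, TrivSqZeroExt.snd_add, TrivSqZeroExt.snd_inl,
        TrivSqZeroExt.snd_inr, TrivSqZeroExt.fst_add, TrivSqZeroExt.fst_inl,
        TrivSqZeroExt.fst_inr, smul_eq_mul, map_add, map_mul, MvPolynomial.eval_X,
        MulOpposite.smul_eq_mul_unop, MulOpposite.unop_op, zero_add, add_zero, h2]
      ring

end Pool.Agent.Lib.H33S
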