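import Pool.Agent.Lib.H33S.A1b
import Pool.Agent.Lib.H33S.B3
import Pool.Agent.Lib.H33S.B4
import Pool.Agent.Lib.H33S.B5b
import Pool.Agent.Lib.H33S.B5c
import Pool.Agent.Lib.H33S.B5d

/-!
# Chunk B5e (M): the Jacobian at the base point

`L = logP k D.N`, `h : k[X]` with `h.coeff 0 = 0`, `h.coeff 1 = 1`, `h.coeff j = 0` for `j ≥ m`, `X^m ∣ L.comp h - X`;
`e i = (1 + h).coeff i`, so `eP e = 1 + h`.
`pderiv i (rel (X^m) j)` at `e` is the `snd` component of `(D.FF (X^m) e').coeff j`, `e' = e + ε δ_i` in the dual numbers (`eval_dual`,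
`rel_eval` with `φ = Algebra.ofId k (DualNumber k)`, `(X^m).map = X^m`). There `cc (X^m) e'` has `fst = 0` (`cc_dual`), so products vanish and
`D.PP _ = L` (`PP_small`), `eP e' = 1 + h + C ε * X^i`, and
`L.comp (h + C ε X^i) = L.comp h + C ε * X^i * L'.comp h` (`ε^2 = 0`: `Polynomial.induction_on` or `Polynomial.binomExpansion`). So
`FF = (L.comp h - X + C ε X^i (L'.comp h)) %ₘ X^m = C ε (X^i (L'.comp h) %ₘ X^m)`, whose coefficient `j < m` is `ε` times
`(L'.comp h).coeff (j - i)` for `j ≥ i`, else `0` (coefficients below `m` of `p %ₘ X^m` are those of `p`). The matrix is triangular with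
diagonal `(L'.comp h).coeff 0 = L.coeff 1 = 1`, so the determinant is `1` (`Matrix.det_of_upperTriangular`).
-/

namespace Pool.Agent.Lib.H33S

open Polynomial

universe u

private theorem b5e_rem {R : Type*} [CommRing R] {m : ℕ} (p : R[X]) {j : ℕ} (hj : j < m) :
    (p %ₘ X ^ m).coeff j = p.coeff j := by
  have hsplit := modByMonic_add_div p (X ^ m : R[X])
  conv_rhs => rw [← hsplit]
  rw [coeff_add, coeff_X_pow_mul', if_neg (by omega), add_zero]

private theorem b5e_comp {k : Type u} [Field k] (L h : k[X]) (i : ℕ) :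
    (L.map (algebraMap k (DualNumber k))).comp
        (h.map (algebraMap k (DualNumber k)) + C DualNumber.eps * X ^ i) =
      (L.comp h).map (algebraMap k (DualNumber k)) +
        ((derivative L).comp h).map (algebraMap k (DualNumber k)) * (C DualNumber.eps * X ^ i) := by
  obtain ⟨r, hr⟩ := binomExpansion ((L.map (algebraMap k (DualNumber k))).map C)
    (h.map (algebraMap k (DualNumber k))) (C DualNumber.eps * X ^ i)
  have hc1 : ∀ f g : (DualNumber k)[X], (f.map C).eval g = f.comp g := fun f g => by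
    rw [Polynomial.comp, eval₂_eq_eval_map]
  rw [derivative_map, hc1, hc1, hc1, derivative_map] at hr
  have he : (C DualNumber.eps * X ^ i : (DualNumber k)[X]) ^ 2 = 0 := by
    have h2 : (C DualNumber.eps * X ^ i : (DualNumber k)[X]) ^ 2 =
        C (DualNumber.eps * DualNumber.eps) * (X ^ i * X ^ i) := by
      rw [C_mul]; ring
    rw [h2, DualNumber.eps_mul_eps, C_0, zero_mul]
  rw [hr, he, mul_zero, add_zero, map_comp, map_comp]

private theorem b5e_entry {k : Type u} [Field k] [CharZero k] {m : ℕ} (hm : 2 ≤ m) (D : Univ k m)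
    {h : k[X]} (h0 : h.coeff 0 = 0) (h1 : ∀ j, m ≤ j → h.coeff j = 0)
    (hL : X ^ m ∣ (logP k D.N).comp h - X) (i j : Fin m) :
    MvPolynomial.eval (fun i : Fin m => (1 + h).coeff i)
      (MvPolynomial.pderiv i (D.rel (X ^ m) j)) =
      if (i : ℕ) ≤ j then ((derivative (logP k D.N)).comp h).coeff (j - i) else 0 := by
  set e : Fin m → k := fun i : Fin m => (1 + h).coeff i with he
  set e' : Fin m → DualNumber k := fun j : Fin m =>
    (TrivSqZeroExt.inl (e j) + if j = i then DualNumber.eps else 0 : DualNumber k) with he'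
  have hev := eval_dual (D.rel (X ^ m) j) e i
  have hrel := rel_eval D (Algebra.ofId k (DualNumber k)) (χ := (X ^ m : k[X])) (monic_X_pow m)
    e' j
  have hmap : Polynomial.map (Algebra.ofId k (DualNumber k) : k →+* DualNumber k) (X ^ m : k[X]) =
      (X ^ m : (DualNumber k)[X]) := by
    rw [Polynomial.map_pow, map_X]
  rw [hmap] at hrel
  have hsame : MvPolynomial.aeval e' (D.rel (X ^ m : k[X]) j) =
      (D.FF (X ^ m : (DualNumber k)[X]) e').coeff j := by
    rw [← hrel]
    rfl
  have heP : eP e' = (1 + h).map (algebraMap k (DualNumber k)) + C DualNumber.eps * X ^ (i : ℕ) := by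
    ext1 n
    rw [coeff_add, coeff_map, coeff_C_mul, coeff_X_pow]
    by_cases hn : n < m
    · rw [show n = ((⟨n, hn⟩ : Fin m) : ℕ) from rfl, eP_coeff, he']
      beta_reduce
      by_cases hni : (⟨n, hn⟩ : Fin m) = i
      · rw [if_pos hni, if_pos (by rw [hni]), mul_one]; rfl
      · have : ¬ ((⟨n, hn⟩ : Fin m) : ℕ) = i := fun hh => hni (Fin.ext hh)
        rw [if_neg hni, if_neg this, mul_zero]; rfl
    · rw [eP_coeff_of_le e' (not_lt.mp hn), coeff_add, h1 n (not_lt.mp hn), coeff_one,
        if_neg (by omega), if_neg (by omega), add_zero, map_zero, mul_zero, add_zero]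
  have hfst : TrivSqZeroExt.fst ((eP e').coeff 0) = 1 := by
    rw [heP, coeff_add, coeff_map, coeff_C_mul, coeff_add, h0, coeff_one_zero, add_zero, map_one,
      TrivSqZeroExt.fst_add, TrivSqZeroExt.fst_one, TrivSqZeroExt.fst_mul, DualNumber.fst_eps,
      zero_mul, add_zero]
  have hcc : ∀ a b, cc (X ^ m) e' a * cc (X ^ m) e' b = 0 := by
    intro a b
    have ha := cc_dual hfst a
    have hb := cc_dual hfst b
    ext
    · rw [TrivSqZeroExt.fst_mul, ha, zero_mul, TrivSqZeroExt.fst_zero]
    · rw [TrivSqZeroExt.snd_mul, ha, hb, zero_smul, MulOpposite.op_zero, zero_smul, add_zero,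
        TrivSqZeroExt.snd_zero]
  have hFF : (D.FF (X ^ m) e').coeff j = (TrivSqZeroExt.inr
      (if (i : ℕ) ≤ j then ((derivative (logP k D.N)).comp h).coeff (j - i) else 0) :
        DualNumber k) := by
    obtain ⟨q, hq⟩ := hL
    rw [Univ.FF, b5e_rem _ j.isLt, PP_small D hcc, heP, Polynomial.map_add, Polynomial.map_one,
      show (1 : (DualNumber k)[X]) + h.map (algebraMap k (DualNumber k)) +
        C DualNumber.eps * X ^ (i : ℕ) - 1 = h.map (algebraMap k (DualNumber k)) +
          C DualNumber.eps * X ^ (i : ℕ) by ring, b5e_comp]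
    have hq' : ((logP k D.N).comp h).map (algebraMap k (DualNumber k)) =
        X + X ^ m * q.map (algebraMap k (DualNumber k)) := by
      have : (logP k D.N).comp h = X + X ^ m * q := by rw [← hq]; ring
      rw [this, Polynomial.map_add, map_X, Polynomial.map_mul, Polynomial.map_pow, map_X]
    rw [hq', show X + X ^ m * q.map (algebraMap k (DualNumber k)) +
        ((derivative (logP k D.N)).comp h).map (algebraMap k (DualNumber k)) *
          (C DualNumber.eps * X ^ (i : ℕ)) - X =
        X ^ m * q.map (algebraMap k (DualNumber k)) +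
          C DualNumber.eps * (X ^ (i : ℕ) *
            ((derivative (logP k D.N)).comp h).map (algebraMap k (DualNumber k))) by ring,
      coeff_add, coeff_X_pow_mul', if_neg (by omega), zero_add, coeff_C_mul, coeff_X_pow_mul']
    by_cases hij : (i : ℕ) ≤ j
    · rw [if_pos hij, if_pos hij, coeff_map]
      ext
      · rw [TrivSqZeroExt.fst_mul, DualNumber.fst_eps, zero_mul, TrivSqZeroExt.fst_inr]
      · rw [TrivSqZeroExt.snd_mul, DualNumber.fst_eps, DualNumber.snd_eps, zero_smul, zero_add,
          TrivSqZeroExt.snd_inr, op_smul_eq_mul, one_mul]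
        rfl
    · rw [if_neg hij, if_neg hij, mul_zero, TrivSqZeroExt.inr_zero]
  have := congrArg TrivSqZeroExt.snd (hev.symm.trans (hsame.trans hFF))
  rw [TrivSqZeroExt.snd_add, TrivSqZeroExt.snd_inl, TrivSqZeroExt.snd_inr, zero_add,
    TrivSqZeroExt.snd_inr] at this
  exact this

theorem b5e_jac {k : Type u} [Field k] [CharZero k] {m : ℕ} (hm : 2 ≤ m) (D : Univ k m) {h : k[X]}
    (h0 : h.coeff 0 = 0) (h1 : ∀ j, m ≤ j → h.coeff j = 0)
    (hL : X ^ m ∣ (logP k D.N).comp h - X) :
    MvPolynomial.eval (fun i : Fin m => (1 + h).coeff i) (D.jac (X ^ m)) = 1 := by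
  have hN : 1 ≤ D.N := by have := D.hN; omega
  have hG : ((derivative (logP k D.N)).comp h).coeff 0 = 1 := by
    rw [coeff_zero_eq_eval_zero, eval_comp, ← coeff_zero_eq_eval_zero, h0,
      ← coeff_zero_eq_eval_zero, coeff_derivative]
    simp [logP_coeff_one k hN]
  rw [Univ.jac, RingHom.map_det]
  have hM : (MvPolynomial.eval (fun i : Fin m => (1 + h).coeff i)).mapMatrix
      (Matrix.of fun i j : Fin m => MvPolynomial.pderiv i (D.rel (X ^ m) j)) =
      Matrix.of fun i j : Fin m =>
        if (i : ℕ) ≤ j then ((derivative (logP k D.N)).comp h).coeff (j - i) else 0 := by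
    ext i j
    rw [RingHom.mapMatrix_apply, Matrix.map_apply, Matrix.of_apply, Matrix.of_apply]
    exact b5e_entry hm D h0 h1 hL i j
  rw [hM, Matrix.det_of_upperTriangular]
  · apply Finset.prod_eq_one
    intro i _
    rw [Matrix.of_apply, if_pos le_rfl, Nat.sub_self, hG]
  · intro a b hab
    have h2 : (b : Fin m) < a := hab
    have h3 : (b : ℕ) < (a : ℕ) := h2
    rw [Matrix.of_apply, if_neg (by omega)]

end Pool.Agent.Lib.H33S
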