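import Pool.Agent.Lib.H33S.B5a
import Pool.Agent.Lib.H33S.B5e

/-!
# Chunk B5 (S/M): the base point

`h` from `exists_inverse` for `L = logP k D.N` (`logP_coeff_zero`, `logP_coeff_one`, `D.hN`). `e i = (1 + h).coeff i`, so `eP e = 1 + h`
(`Polynomial.ext`, `eP_coeff`, `eP_coeff_of_le`), `cc (X^m) e = 0` (`cc_base`), `D.PP 0 = L` (`PP_small`; `map (algebraMap k k) = id`),
`FF = (L.comp h - X) %ₘ X^m = 0`. `D.ft 0 = constantCoeff f * (gam 0).eval (-1) = (-1)^m` (`aeval 0 = constantCoeff`) and the Jacobian is `1`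
(`b5e_jac`), so `t = (-1)^m` works.
-/

namespace Pool.Agent.Lib.H33S

open Polynomial

universe u

theorem exists_base {k : Type u} [Field k] [CharZero k] {n : ℕ} (D : Univ k (n + 2)) :
    ∃ (e : Fin (n + 2) → k) (t : k), D.Good (X ^ (n + 2)) e t ∧ e 1 = 1 := by
  have hN := D.hN
  obtain ⟨h, h0, h1, hj, hdvd⟩ := exists_inverse (logP k D.N) (logP_coeff_zero k D.N)
    (logP_coeff_one k (by omega)) (m := n + 2) (by omega)
  have he : eP (fun i : Fin (n + 2) => (1 + h).coeff i) = 1 + h := by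
    apply Polynomial.ext
    intro j
    by_cases hjm : j < n + 2
    · exact eP_coeff (fun i : Fin (n + 2) => (1 + h).coeff i) ⟨j, hjm⟩
    · rw [eP_coeff_of_le _ (by omega), Polynomial.coeff_add, hj j (by omega),
        Polynomial.coeff_one, if_neg (by omega), add_zero]
  have he0 : (eP (fun i : Fin (n + 2) => (1 + h).coeff i)).coeff 0 = 1 := by
    rw [he, Polynomial.coeff_add, h0, Polynomial.coeff_one_zero, add_zero]
  have hcc := cc_base he0
  have hPP : D.PP (0 : Fin (n + 2) → k) = logP k D.N := by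
    have h2 := PP_small D (R := k) (c := 0) (fun i j => by simp)
    rw [h2, Algebra.algebraMap_self, Polynomial.map_id]
  refine ⟨fun i => (1 + h).coeff i, (-1) ^ (n + 2), ⟨?_, ?_⟩, ?_⟩
  · unfold Univ.FF
    rw [hcc, hPP, he, add_sub_cancel_left]
    exact (Polynomial.modByMonic_eq_zero_iff_dvd (monic_X_pow (n + 2))).mpr hdvd
  · have hjac := b5e_jac (by omega) D h0 hj hdvd
    rw [hjac, hcc]
    unfold Univ.ft
    rw [MvPolynomial.aeval_zero, D.hf]
    have hg : (gam (0 : Fin (n + 2) → k)).eval (-1) = (-1) ^ (n + 2) := by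
      unfold gam
      simp
    rw [hg, map_one, one_mul, one_mul, ← mul_pow, neg_mul_neg, one_mul, one_pow]
  · show (1 + h).coeff ((1 : Fin (n + 2)) : ℕ) = 1
    rw [Fin.val_one, Polynomial.coeff_add, h1, Polynomial.coeff_one, if_neg (by norm_num),
      zero_add]

end Pool.Agent.Lib.H33S
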