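import Pool.Agent.Lib.H33S.Defs

/-!
# Chunk B5a (S/M): inverse of a polynomial `X + ...` modulo `X^m`

Induction on `m` (start with `m = 2`, `h = X`: `L.comp X - X = L - X` is divisible by `X^2`): let `X^m ∣ L.comp h - X`, `a` the coefficient of
`X^m` in `L.comp h - X`, `h' = h - C a * X^m`. Then `L.comp h' - L.comp h + C a * X^m` is divisible by `X^(m+1)`: write
`L = X + X^2 * L2`-like, or use: `L.comp h' - L.comp h = (h' - h) * (L'.comp h) + (h' - h)^2 * _` (`Polynomial.binomExpansion` /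
`Polynomial.evalSubFactor`), `(h' - h) = - C a X^m`, `L'.comp h` has constant coefficient `L.coeff 1 = 1`. Finally replace `h` by
`h %ₘ X^m` to have degree `< m` (this does not change `L.comp h` modulo `X^m`: `sub_dvd_eval_sub`-like, and not the coefficients below `m`).
-/

namespace Pool.Agent.Lib.H33S

open Polynomial

private theorem b5a_step {k : Type*} [Field k] (L : k[X]) (h1 : L.coeff 1 = 1)
    {m : ℕ} (hm : 2 ≤ m) {h : k[X]} (a0 : h.coeff 0 = 0) (a1 : h.coeff 1 = 1)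
    (hd : X ^ m ∣ L.comp h - X) :
    ∃ h : k[X], h.coeff 0 = 0 ∧ h.coeff 1 = 1 ∧ X ^ (m + 1) ∣ L.comp h - X := by
  obtain ⟨q, hq⟩ := hd
  set a := q.coeff 0 with ha
  obtain ⟨r, hr⟩ := binomExpansion (L.map C) h (-(C a * X ^ m))
  have hc1 : ∀ g : k[X], (L.map C).eval g = L.comp g := fun g => by
    rw [Polynomial.comp, eval₂_eq_eval_map]
  have hc2 : ((L.map C).derivative).eval h = (derivative L).comp h := by
    rw [derivative_map, Polynomial.comp, eval₂_eq_eval_map]
  rw [hc1, hc1, hc2] at hr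
  have hz : ((derivative L).comp h).coeff 0 = 1 := by
    rw [coeff_zero_eq_eval_zero, eval_comp, ← coeff_zero_eq_eval_zero, a0,
      ← coeff_zero_eq_eval_zero, coeff_derivative]
    simp [h1]
  refine ⟨h + -(C a * X ^ m), ?_, ?_, ?_⟩
  · simp [a0, coeff_X_pow]
    intro h; omega
  · simp [a1, coeff_X_pow]
    intro h; omega
  · have e1 : L.comp (h + -(C a * X ^ m)) - X =
        X ^ m * (q - (derivative L).comp h * C a + r * C a ^ 2 * X ^ m) := by
      rw [hr]
      linear_combination hq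
    rw [e1, pow_succ]
    refine mul_dvd_mul_left _ ?_
    rw [X_dvd_iff]
    have hm0 : (0 : ℕ) ≠ m := by omega
    rw [coeff_add, coeff_sub, mul_coeff_zero, mul_coeff_zero (r * C a ^ 2), coeff_X_pow,
      if_neg hm0, hz]
    simp [ha]

private theorem b5a_ex {k : Type*} [Field k] (L : k[X]) (h0 : L.coeff 0 = 0) (h1 : L.coeff 1 = 1)
    {m : ℕ} (hm : 2 ≤ m) :
    ∃ h : k[X], h.coeff 0 = 0 ∧ h.coeff 1 = 1 ∧ X ^ m ∣ L.comp h - X := by
  induction m, hm using Nat.le_induction with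
  | base =>
    refine ⟨X, by simp, by simp, ?_⟩
    rw [comp_X, X_pow_dvd_iff]
    intro d hd
    interval_cases d
    · simp [h0]
    · simp [h1]
  | succ m hm ih =>
    obtain ⟨h, a0, a1, hd⟩ := ih
    exact b5a_step L h1 hm a0 a1 hd

theorem exists_inverse {k : Type*} [Field k] (L : k[X]) (h0 : L.coeff 0 = 0) (h1 : L.coeff 1 = 1)
    {m : ℕ} (hm : 2 ≤ m) :
    ∃ h : k[X], h.coeff 0 = 0 ∧ h.coeff 1 = 1 ∧ (∀ j, m ≤ j → h.coeff j = 0) ∧
      X ^ m ∣ L.comp h - X := by
  obtain ⟨h, a0, a1, hd⟩ := b5a_ex L h0 h1 hm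
  have hmon : (X ^ m : k[X]).Monic := monic_X_pow m
  have hsplit := modByMonic_add_div h (X ^ m : k[X])
  have hcoef : ∀ j, j < m → (h %ₘ X ^ m).coeff j = h.coeff j := by
    intro j hj
    conv_rhs => rw [← hsplit]
    rw [coeff_add, coeff_X_pow_mul', if_neg (by omega), add_zero]
  refine ⟨h %ₘ X ^ m, ?_, ?_, ?_, ?_⟩
  · rw [hcoef 0 (by omega), a0]
  · rw [hcoef 1 (by omega), a1]
  · intro j hj
    apply coeff_eq_zero_of_degree_lt
    refine lt_of_lt_of_le (degree_modByMonic_lt h hmon) ?_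
    rw [degree_X_pow]
    exact_mod_cast hj
  · have h3 : X ^ m ∣ L.comp (h %ₘ X ^ m) - L.comp h := by
      have h4 : (h %ₘ X ^ m) - h ∣ L.comp (h %ₘ X ^ m) - L.comp h := by
        have := sub_dvd_eval_sub (h %ₘ X ^ m) h (L.map C)
        rwa [← eval₂_eq_eval_map, ← eval₂_eq_eval_map] at this
      refine dvd_trans ⟨-(h /ₘ X ^ m), ?_⟩ h4
      linear_combination hsplit
    have := dvd_add h3 hd
    rwa [sub_add_sub_cancel] at this

end Pool.Agent.Lib.H33S
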