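import Pool.Agent.Lib.H33S.Defs

/-!
# Chunk C1 (M/L): `CA` is etale

Use `Algebra.PreSubmersivePresentation.naive` with `v = D.vv χ`, `a = id` (`Function.injective_id`); `jacobiMatrix_naive` gives the entries
`pderiv (a i) (v j)`, `jacobian_eq_jacobiMatrix_det`. The matrix on `Fin m ⊕ Unit` is block triangular:
`(inl i, inl j)`: `pderiv (inl i) (rename inl (rel j)) = rename inl (pderiv i (rel j))` (`MvPolynomial.pderiv_rename Sum.inl_injective`);
`(inr, inl j)`: `0` (`MvPolynomial.pderiv_eq_zero_of_notMem_vars`, `vars_rename`); `(inr, inr)`: `rename inl (jac * fR)`.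
`Matrix.det_fromBlocks_zero₂₁` (or `₁₂`): the determinant is `rename inl jac * rename inl (jac * fR)`
(`Matrix.det` of a `1 × 1` matrix; `AlgHom.map_det` for `rename`). Its image in `CA` is a unit because `X (inr ()) * rename inl (jac * fR) - 1`
is in the ideal. So this is an `Algebra.SubmersivePresentation` of dimension `0`:
`Algebra.SubmersivePresentation.isStandardSmoothOfRelativeDimension` with `n = 0` (`Presentation.dimension`: `Nat.card_sum`...), and the instance
`[IsStandardSmoothOfRelativeDimension 0 R S] : Etale R S` of `Mathlib.RingTheory.Smooth.StandardSmoothCotangent`.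
-/

namespace Pool.Agent.Lib.H33S

open Polynomial

universe u

theorem c1_zero {R : Type u} [CommRing R] {m : ℕ} (p : MvPolynomial (Fin m) R) (u : Unit) :
    MvPolynomial.pderiv (Sum.inr u : Fin m ⊕ Unit) (MvPolynomial.rename Sum.inl p) = 0 := by
  classical
  refine MvPolynomial.pderiv_eq_zero_of_notMem_vars fun h => ?_
  have h1 := MvPolynomial.vars_rename (Sum.inl : Fin m → Fin m ⊕ Unit) p h
  obtain ⟨i, -, hi⟩ := Finset.mem_image.1 h1
  exact absurd hi (by simp)

theorem c1_last {R : Type u} [CommRing R] {m : ℕ} (p : MvPolynomial (Fin m) R) (u : Unit) :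
    MvPolynomial.pderiv (Sum.inr u : Fin m ⊕ Unit)
      (MvPolynomial.X (Sum.inr ()) * MvPolynomial.rename Sum.inl p - 1) =
      MvPolynomial.rename Sum.inl p := by
  cases u
  rw [map_sub, Derivation.leibniz, c1_zero, MvPolynomial.pderiv_X_self, Derivation.map_one_eq_zero]
  simp

theorem c1_unit {R : Type u} [CommRing R] {m : ℕ} (p q : MvPolynomial (Fin m) R)
    (I : Ideal (MvPolynomial (Fin m ⊕ Unit) R))
    (h : MvPolynomial.X (Sum.inr ()) * MvPolynomial.rename Sum.inl (p * q) - 1 ∈ I) :
    IsUnit (Ideal.Quotient.mk I (MvPolynomial.rename Sum.inl p *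
      MvPolynomial.rename Sum.inl (p * q))) := by
  have h1 : Ideal.Quotient.mk I (MvPolynomial.X (Sum.inr ())) *
      Ideal.Quotient.mk I (MvPolynomial.rename Sum.inl (p * q)) = 1 := by
    rw [← map_mul, ← sub_eq_zero, ← map_one (Ideal.Quotient.mk I), ← map_sub]
    exact Ideal.Quotient.eq_zero_iff_mem.2 h
  have h2 : IsUnit (Ideal.Quotient.mk I (MvPolynomial.rename Sum.inl (p * q))) :=
    IsUnit.of_mul_eq_one_right _ h1
  have h3 : IsUnit (Ideal.Quotient.mk I (MvPolynomial.rename Sum.inl p)) := by
    rw [map_mul (MvPolynomial.rename Sum.inl) p q, map_mul] at h2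
    exact isUnit_of_mul_isUnit_left h2
  rw [map_mul]
  exact h3.mul h2

theorem ca_etale {k : Type u} [Field k] {m : ℕ} (D : Univ k m) {R : Type u} [CommRing R]
    [Algebra k R] (χ : R[X]) : Algebra.Etale R (D.CA χ) := by
  classical
  let P : Algebra.PreSubmersivePresentation R
      (MvPolynomial (Fin m ⊕ Unit) R ⧸ Ideal.span (Set.range (D.vv χ))) (Fin m ⊕ Unit)
      (Fin m ⊕ Unit) :=
    Algebra.PreSubmersivePresentation.naive (v := D.vv χ) id Function.injective_id
  have hM : P.jacobiMatrix = Matrix.fromBlocks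
      ((Matrix.of fun i j : Fin m => MvPolynomial.pderiv i (D.rel χ j)).map
        (MvPolynomial.rename (R := R) (Sum.inl : Fin m → Fin m ⊕ Unit)))
      (Matrix.of fun (i : Fin m) (j : Unit) =>
        MvPolynomial.pderiv (Sum.inl i) (D.vv χ (Sum.inr j)))
      0
      (Matrix.of fun _ _ : Unit => MvPolynomial.rename Sum.inl (D.jac χ * D.fR χ)) := by
    ext1 i j
    have h1 : P.jacobiMatrix i j = MvPolynomial.pderiv i (D.vv χ j) :=
      Algebra.PreSubmersivePresentation.jacobiMatrix_naive id Function.injective_id _ _ i j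
    rw [h1]
    rcases i with i | i
    · rcases j with j | j
      · exact MvPolynomial.pderiv_rename Sum.inl_injective i (D.rel χ j)
      · rfl
    · rcases j with j | j
      · exact c1_zero (D.rel χ j) i
      · exact c1_last (D.jac χ * D.fR χ) i
  have hdet : P.jacobiMatrix.det = MvPolynomial.rename Sum.inl (D.jac χ) *
      MvPolynomial.rename Sum.inl (D.jac χ * D.fR χ) := by
    rw [hM, Matrix.det_fromBlocks_zero₂₁]
    refine congrArg₂ (· * ·) ?_ (Matrix.det_unique _)
    exact (AlgHom.map_det (MvPolynomial.rename (R := R) (Sum.inl : Fin m → Fin m ⊕ Unit)) _).symm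
  have hj : IsUnit P.jacobian := by
    rw [Algebra.PreSubmersivePresentation.jacobian_eq_jacobiMatrix_det, hdet]
    exact c1_unit _ _ _ (Ideal.subset_span ⟨Sum.inr (), rfl⟩)
  let Q : Algebra.SubmersivePresentation R
      (MvPolynomial (Fin m ⊕ Unit) R ⧸ Ideal.span (Set.range (D.vv χ))) (Fin m ⊕ Unit)
      (Fin m ⊕ Unit) := { P with jacobian_isUnit := hj }
  have h0 : Algebra.IsStandardSmoothOfRelativeDimension 0 R
      (MvPolynomial (Fin m ⊕ Unit) R ⧸ Ideal.span (Set.range (D.vv χ))) := by
    refine Q.isStandardSmoothOfRelativeDimension ?_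
    show Nat.card (Fin m ⊕ Unit) - Nat.card (Fin m ⊕ Unit) = 0
    exact Nat.sub_self _
  infer_instance

end Pool.Agent.Lib.H33S
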