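import Pool.Agent.Lib.H33S.B4b

/-!
# Chunk C2 (M): homomorphisms out of `CA`

`ca_hom_ext`: `Ideal.Quotient.algHom_ext`, `MvPolynomial.ringHom_ext`-like (two ring homomorphisms on `MvPolynomial (Fin m ⊕ Unit) R`).
`ca_lift`: `Ideal.Quotient.lift` of `MvPolynomial.eval₂Hom φ (Sum.elim e (fun _ => t))`, which kills the generators by `good_iff`;
`k`-algebra structure from `φ`.
`ca_good`: for a homomorphism `g`, `good_iff` with `φ = g ∘ algebraMap`: the two ring homomorphisms
`eval₂Hom φ (Sum.elim ..)` and `g ∘ mk` agree, and `mk` kills the generators.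
-/

namespace Pool.Agent.Lib.H33S

open Polynomial

universe u

variable {k : Type u} [Field k] {m : ℕ} (D : Univ k m) {R S : Type u} [CommRing R] [CommRing S]
  [Algebra k R] [Algebra k S] {χ : R[X]}

theorem ca_hom_ext {g g' : D.CA χ →ₐ[k] S}
    (h1 : ∀ b : R, g (algebraMap R (D.CA χ) b) = g' (algebraMap R (D.CA χ) b))
    (h2 : ∀ i, g (Ideal.Quotient.mk _ (MvPolynomial.X i)) =
      g' (Ideal.Quotient.mk _ (MvPolynomial.X i))) : g = g' := by
  have hr : (g : D.CA χ →+* S).comp (Ideal.Quotient.mk (Ideal.span (Set.range (D.vv χ)))) =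
      (g' : D.CA χ →+* S).comp (Ideal.Quotient.mk (Ideal.span (Set.range (D.vv χ)))) := by
    apply MvPolynomial.ringHom_ext
    · intro b
      exact h1 b
    · intro i
      exact h2 i
  apply AlgHom.ext
  intro x
  obtain ⟨y, rfl⟩ := Ideal.Quotient.mk_surjective x
  exact RingHom.congr_fun hr y

theorem ca_lift (hχ : χ.Monic) (hd : χ.natDegree = m) (φ : R →ₐ[k] S) {e : Fin m → S} {t : S}
    (h : D.Good (χ.map (φ : R →+* S)) e t) :
    ∃ g : D.CA χ →ₐ[k] S, (∀ b : R, g (algebraMap R (D.CA χ) b) = φ b) ∧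
      (∀ i, g (Ideal.Quotient.mk _ (MvPolynomial.X (Sum.inl i))) = e i) ∧
      g (Ideal.Quotient.mk _ (MvPolynomial.X (Sum.inr ()))) = t := by
  have hv := (good_iff D φ hχ hd e t).1 h
  have hk : ∀ a ∈ Ideal.span (Set.range (D.vv χ)),
      MvPolynomial.eval₂Hom (φ : R →+* S) (Sum.elim e (fun _ => t)) a = 0 := by
    intro a ha
    have hle : Ideal.span (Set.range (D.vv χ)) ≤
        RingHom.ker (MvPolynomial.eval₂Hom (φ : R →+* S) (Sum.elim e (fun _ => t))) := by
      rw [Ideal.span_le]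
      rintro _ ⟨i, rfl⟩
      exact hv i
    exact hle ha
  let g0 : D.CA χ →+* S := Ideal.Quotient.lift (Ideal.span (Set.range (D.vv χ)))
    (MvPolynomial.eval₂Hom (φ : R →+* S) (Sum.elim e (fun _ => t))) hk
  have hg0 : ∀ b : R, g0 (algebraMap R (D.CA χ) b) = φ b := by
    intro b
    have h1 : algebraMap R (D.CA χ) b =
        Ideal.Quotient.mk (Ideal.span (Set.range (D.vv χ))) (MvPolynomial.C b) := rfl
    rw [h1]
    show Ideal.Quotient.lift _ _ _ _ = _
    rw [Ideal.Quotient.lift_mk, MvPolynomial.eval₂Hom_C]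
    rfl
  refine ⟨{ g0 with commutes' := ?_ }, ?_, ?_, ?_⟩
  · intro r
    have h1 : algebraMap k (D.CA χ) r = algebraMap R (D.CA χ) (algebraMap k R r) := rfl
    show g0 (algebraMap k (D.CA χ) r) = _
    rw [h1, hg0, AlgHom.commutes]
  · intro b
    exact hg0 b
  · intro i
    show Ideal.Quotient.lift _ _ _ _ = _
    rw [Ideal.Quotient.lift_mk, MvPolynomial.eval₂Hom_X']
    rfl
  · show Ideal.Quotient.lift _ _ _ _ = _
    rw [Ideal.Quotient.lift_mk, MvPolynomial.eval₂Hom_X']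
    rfl

theorem ca_good (hχ : χ.Monic) (hd : χ.natDegree = m) (φ : R →ₐ[k] S) (g : D.CA χ →ₐ[k] S)
    (hg : ∀ b : R, g (algebraMap R (D.CA χ) b) = φ b) :
    D.Good (χ.map (φ : R →+* S)) (fun i => g (Ideal.Quotient.mk _ (MvPolynomial.X (Sum.inl i))))
      (g (Ideal.Quotient.mk _ (MvPolynomial.X (Sum.inr ())))) := by
  rw [good_iff D φ hχ hd]
  have hr : MvPolynomial.eval₂Hom (φ : R →+* S) (Sum.elim
      (fun i => g (Ideal.Quotient.mk _ (MvPolynomial.X (Sum.inl i))))
      (fun _ => g (Ideal.Quotient.mk _ (MvPolynomial.X (Sum.inr ()))))) =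
      (g : D.CA χ →+* S).comp (Ideal.Quotient.mk (Ideal.span (Set.range (D.vv χ)))) := by
    apply MvPolynomial.ringHom_ext
    · intro b
      rw [MvPolynomial.eval₂Hom_C]
      exact (hg b).symm
    · rintro (i | i)
      · rw [MvPolynomial.eval₂Hom_X']
        rfl
      · rw [MvPolynomial.eval₂Hom_X']
        rfl
  intro i
  rw [hr]
  have h0 : Ideal.Quotient.mk (Ideal.span (Set.range (D.vv χ))) (D.vv χ i) = 0 :=
    Ideal.Quotient.eq_zero_iff_mem.2 (Ideal.subset_span ⟨i, rfl⟩)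
  show g (Ideal.Quotient.mk (Ideal.span (Set.range (D.vv χ))) (D.vv χ i)) = 0
  rw [h0, map_zero]

end Pool.Agent.Lib.H33S
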