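import Pool.Agent.Lib.H33S.Rack

/-!
# Smooth racks: definitions

`k` is a field of characteristic 0. See `PROOF.md`.
-/

namespace Pool.Agent.Lib.H33S

open Polynomial

universe u

/-- The monic polynomial `X^m + ∑ a_i X^i`. -/
noncomputable def gam {R : Type*} [CommRing R] {m : ℕ} (a : Fin m → R) : R[X] :=
  X ^ m + ∑ i : Fin m, C (a i) * X ^ (i : ℕ)

/-- The polynomial `∑ e_i X^i`. -/
noncomputable def eP {R : Type*} [CommRing R] {m : ℕ} (e : Fin m → R) : R[X] :=
  ∑ i : Fin m, C (e i) * X ^ (i : ℕ)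

/-- The matrix of the multiplication by `h` on `R[X]/χ` (`χ` monic of degree `m`). -/
noncomputable def mulMat {R : Type*} [CommRing R] (m : ℕ) (χ h : R[X]) :
    Matrix (Fin m) (Fin m) R :=
  Matrix.of fun i j => ((X ^ (j : ℕ) * h) %ₘ χ).coeff i

/-- The coefficients of the characteristic polynomial of the multiplication by `e(X) - 1` on
`R[X]/χ`. -/
noncomputable def cc {R : Type*} [CommRing R] {m : ℕ} (χ : R[X]) (e : Fin m → R) : Fin m → R :=
  fun i => (mulMat m χ (eP e - 1)).charpoly.coeff i

/-- The coefficients of the logarithm: the derivative at `0` of `K(K-1)...(K-j+1)/j!`. -/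
noncomputable def logC (j : ℕ) : ℚ := (descPochhammer ℚ j).derivative.eval 0 / (j.factorial : ℚ)

/-- The truncated logarithm `log(1 + X)`. -/
noncomputable def logP (k : Type u) [Field k] (N : ℕ) : k[X] :=
  ∑ j ∈ Finset.range (N + 1), C ((logC j : ℚ) : k) * X ^ j

/-- The ring `k[a_0, ..., a_{m-1}]`. -/
abbrev BB (k : Type u) [Field k] (m : ℕ) : Type u := MvPolynomial (Fin m) k

/-- The ideal `(a_0, ..., a_{m-1})`. -/
noncomputable def irr (k : Type u) [Field k] (m : ℕ) : Ideal (BB k m) :=
  Ideal.span (Set.range fun i : Fin m => (MvPolynomial.X i : BB k m))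

/-- `ψ = (1 + s₂) - (1 + s₀)(1 + s₁)`. -/
noncomputable def psi (k : Type u) [Field k] (m : ℕ) : MvPolynomial (Fin 3) (BB k m) :=
  (1 + MvPolynomial.X 2) - (1 + MvPolynomial.X 0) * (1 + MvPolynomial.X 1)

/-- `P(s₂) - P(s₀) - P(s₁)`. -/
noncomputable def Del {k : Type u} [Field k] {m : ℕ} (P : (BB k m)[X]) :
    MvPolynomial (Fin 3) (BB k m) :=
  aeval (MvPolynomial.X 2 : MvPolynomial (Fin 3) (BB k m)) P -
    aeval (MvPolynomial.X 0 : MvPolynomial (Fin 3) (BB k m)) P -
    aeval (MvPolynomial.X 1 : MvPolynomial (Fin 3) (BB k m)) P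

/-- The ideal generated by `χ(s₀), χ(s₁), χ(s₂)` for the universal monic polynomial `χ`. -/
noncomputable def JJ (k : Type u) [Field k] (m : ℕ) : Ideal (MvPolynomial (Fin 3) (BB k m)) :=
  Ideal.span (Set.range fun i : Fin 3 =>
    aeval (MvPolynomial.X i : MvPolynomial (Fin 3) (BB k m))
      (gam (fun j : Fin m => (MvPolynomial.X j : BB k m))))

/-- The universal polynomial `P` with its cofactor. -/
structure Univ (k : Type u) [Field k] (m : ℕ) where
  /-- order of the logarithm -/
  N : ℕ
  /-- the polynomial -/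
  P : (BB k m)[X]
  /-- the cofactor -/
  V : MvPolynomial (Fin 3) (BB k m)
  /-- the denominator -/
  f : BB k m
  hN : m ≤ N
  hP : ∀ i, P.coeff i - MvPolynomial.C ((logP k N).coeff i) ∈ irr k m ^ 2
  hf : MvPolynomial.constantCoeff f = 1
  key : MvPolynomial.C f * psi k m - V * Del P ∈ JJ k m

namespace Univ

variable {k : Type u} [Field k] {m : ℕ} (D : Univ k m)

/-- `P` with the coefficients `c` in place of `a`. -/
noncomputable def PP {R : Type*} [CommRing R] [Algebra k R] (c : Fin m → R) : R[X] :=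
  D.P.map (MvPolynomial.aeval c : BB k m →ₐ[k] R).toRingHom

/-- `f(c) γ_c(-1)`. -/
noncomputable def ft {R : Type*} [CommRing R] [Algebra k R] (c : Fin m → R) : R :=
  MvPolynomial.aeval c D.f * (gam c).eval (-1)

/-- `P_c(e(X) - 1) - X` modulo `χ`, where `c = cc χ e`. -/
noncomputable def FF {R : Type*} [CommRing R] [Algebra k R] (χ : R[X]) (e : Fin m → R) : R[X] :=
  ((D.PP (cc χ e)).comp (eP e - 1) - X) %ₘ χ

/-- The coefficients of `FF` as polynomials in `e`. -/
noncomputable def rel {R : Type*} [CommRing R] [Algebra k R] (χ : R[X]) (i : Fin m) :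
    MvPolynomial (Fin m) R :=
  (D.FF (χ.map (MvPolynomial.C : R →+* MvPolynomial (Fin m) R))
    (fun j : Fin m => (MvPolynomial.X j : MvPolynomial (Fin m) R))).coeff i

/-- The Jacobian. -/
noncomputable def jac {R : Type*} [CommRing R] [Algebra k R] (χ : R[X]) :
    MvPolynomial (Fin m) R :=
  (Matrix.of fun i j : Fin m => MvPolynomial.pderiv i (D.rel χ j)).det

/-- `ft` as a polynomial in `e`. -/
noncomputable def fR {R : Type*} [CommRing R] [Algebra k R] (χ : R[X]) :
    MvPolynomial (Fin m) R :=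
  D.ft (cc (χ.map (MvPolynomial.C : R →+* MvPolynomial (Fin m) R))
    (fun j : Fin m => (MvPolynomial.X j : MvPolynomial (Fin m) R)))

/-- The `R`-valued points over `χ` of the etale neighbourhood. -/
structure Good {R : Type*} [CommRing R] [Algebra k R] (χ : R[X]) (e : Fin m → R) (t : R) :
    Prop where
  rel : D.FF χ e = 0
  unit : t * (MvPolynomial.eval e (D.jac χ) * D.ft (cc χ e)) = 1

/-- The relations of the etale algebra. -/
noncomputable def vv {R : Type u} [CommRing R] [Algebra k R] (χ : R[X]) :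
    Fin m ⊕ Unit → MvPolynomial (Fin m ⊕ Unit) R
  | .inl i => MvPolynomial.rename Sum.inl (D.rel χ i)
  | .inr _ => MvPolynomial.X (Sum.inr ()) * MvPolynomial.rename Sum.inl (D.jac χ * D.fR χ) - 1

/-- The etale algebra. -/
abbrev CA {R : Type u} [CommRing R] [Algebra k R] (χ : R[X]) : Type u :=
  MvPolynomial (Fin m ⊕ Unit) R ⧸ Ideal.span (Set.range (D.vv χ))

end Univ

/-- The matrix of `ad v`. -/
def adM {k : Type u} [Field k] {n : ℕ} (c : Fin n → Fin n → Fin n → k) {R : Type u} [CommRing R]
    [Algebra k R] (v : Fin n → R) : Matrix (Fin n) (Fin n) R :=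
  Matrix.of fun l j => ∑ i, c i j l • v i

/-- `X^2` times the characteristic polynomial of `ad v`. -/
noncomputable def chiV {k : Type u} [Field k] {n : ℕ} (c : Fin n → Fin n → Fin n → k)
    {R : Type u} [CommRing R] [Algebra k R] (v : Fin n → R) : R[X] :=
  X ^ 2 * (adM c v).charpoly

/-- The `R`-valued points of the smooth rack. -/
@[ext]
structure Pt {k : Type u} [Field k] {n : ℕ} (D : Univ k (n + 2))
    (c : Fin n → Fin n → Fin n → k) (R : Type u) [CommRing R] [Algebra k R] where
  /-- the vector -/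
  v : Fin n → R
  /-- the coefficients of the exponential -/
  e : Fin (n + 2) → R
  /-- the inverse of the Jacobian -/
  t : R
  good : D.Good (chiV c v) e t

/-- The automorphism `e(ad v)`. -/
noncomputable def Pt.g {k : Type u} [Field k] {n : ℕ} {D : Univ k (n + 2)}
    {c : Fin n → Fin n → Fin n → k} {R : Type u} [CommRing R] [Algebra k R] (x : Pt D c R) :
    Matrix (Fin n) (Fin n) R :=
  aeval (adM c x.v) (eP x.e)

/-- The coordinate ring of the smooth rack. -/
abbrev AA {k : Type u} [Field k] {n : ℕ} (D : Univ k (n + 2)) (c : Fin n → Fin n → Fin n → k) :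
    Type u :=
  D.CA (chiV c (fun i : Fin n => (MvPolynomial.X i : MvPolynomial (Fin n) k)))

end Pool.Agent.Lib.H33S
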