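import Pool.Agent.Lib.H33S.A5

/-!
# Chunk E1 (M): the exponential of a derivation is multiplicative

`M := V →ₗ[R] V →ₗ[R] V`. The three endomorphisms `X0 μ = fun x y => μ (d x) y`, `X1 μ = fun x y => μ x (d y)`, `X2 μ = fun x y => d (μ x y)`
of `M` commute (`X0 = LinearMap.lcomp`-like; define them with `LinearMap.mk₂` or as `{ toFun := fun μ => μ.comp d, .. }`,
`{ toFun := fun μ => μ.compl₂ d, .. }`, `{ toFun := fun μ => μ.compr₂ d, .. }`). For `p : R[X]`:
`aeval X0 p μ = μ.comp (aeval d p)`, `aeval X1 p μ = μ.compl₂ (aeval d p)`, `aeval X2 p μ = μ.compr₂ (aeval d p)`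
(`Polynomial.induction_on'`), so `aeval Xi χ = 0`. Let `T = Algebra.adjoin R {X0, X1, X2} ⊆ Module.End R M`, a commutative ring by
`Algebra.adjoinCommRingOfComm`. `exp_rel` in `T` (elements `⟨Xi, _⟩`; `aeval` commutes with the inclusion `T.val`, injective) gives
`w : T` with `aeval X2 (eP e) - aeval X0 (eP e) * aeval X1 (eP e) = w * (X2 - X0 - X1)` in `Module.End R M`. Apply it to `b`:
`(X2 - X0 - X1) b = 0` by `hder`. So `aeval d (eP e) (b x y) = b (aeval d (eP e) x) (aeval d (eP e) y)`.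
-/

namespace Pool.Agent.Lib.H33S

open Polynomial

universe u

section e1

variable {R : Type*} [CommRing R] {V : Type*} [AddCommGroup V] [Module R V]

/-- `μ ↦ μ (d ·) ·`. -/
def e1_X0 (d : Module.End R V) : Module.End R (V →ₗ[R] V →ₗ[R] V) where
  toFun μ := μ.comp d
  map_add' _ _ := rfl
  map_smul' _ _ := rfl

/-- `μ ↦ μ · (d ·)`. -/
def e1_X1 (d : Module.End R V) : Module.End R (V →ₗ[R] V →ₗ[R] V) where
  toFun μ := μ.compl₂ d
  map_add' _ _ := rfl
  map_smul' _ _ := rfl

/-- `μ ↦ d (μ · ·)`. -/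
def e1_X2 (d : Module.End R V) : Module.End R (V →ₗ[R] V →ₗ[R] V) where
  toFun μ := μ.compr₂ d
  map_add' μ ν := by
    ext x y
    exact map_add d (μ x y) (ν x y)
  map_smul' c μ := by
    ext x y
    exact map_smul d c (μ x y)

theorem e1_X0_apply (d : Module.End R V) (μ : V →ₗ[R] V →ₗ[R] V) (x y : V) :
    e1_X0 d μ x y = μ (d x) y := rfl

theorem e1_X1_apply (d : Module.End R V) (μ : V →ₗ[R] V →ₗ[R] V) (x y : V) :
    e1_X1 d μ x y = μ x (d y) := rfl

theorem e1_X2_apply (d : Module.End R V) (μ : V →ₗ[R] V →ₗ[R] V) (x y : V) :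
    e1_X2 d μ x y = d (μ x y) := rfl

theorem e1_pow0 (d : Module.End R V) (n : ℕ) (μ : V →ₗ[R] V →ₗ[R] V) (x y : V) :
    (e1_X0 d ^ n) μ x y = μ ((d ^ n) x) y := by
  induction n generalizing μ with
  | zero => rfl
  | succ n ih =>
    rw [pow_succ, Module.End.mul_apply, ih, e1_X0_apply, pow_succ', Module.End.mul_apply]

theorem e1_pow1 (d : Module.End R V) (n : ℕ) (μ : V →ₗ[R] V →ₗ[R] V) (x y : V) :
    (e1_X1 d ^ n) μ x y = μ x ((d ^ n) y) := by
  induction n generalizing μ with
  | zero => rfl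
  | succ n ih =>
    rw [pow_succ, Module.End.mul_apply, ih, e1_X1_apply, pow_succ', Module.End.mul_apply]

theorem e1_pow2 (d : Module.End R V) (n : ℕ) (μ : V →ₗ[R] V →ₗ[R] V) (x y : V) :
    (e1_X2 d ^ n) μ x y = (d ^ n) (μ x y) := by
  induction n generalizing μ with
  | zero => rfl
  | succ n ih =>
    rw [pow_succ, Module.End.mul_apply, ih, e1_X2_apply, pow_succ, Module.End.mul_apply]

theorem e1_aeval0 (d : Module.End R V) (p : R[X]) (μ : V →ₗ[R] V →ₗ[R] V) (x y : V) :
    aeval (e1_X0 d) p μ x y = μ (aeval d p x) y := by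
  induction p using Polynomial.induction_on' with
  | add p q hp hq =>
    rw [map_add, map_add, LinearMap.add_apply, LinearMap.add_apply, LinearMap.add_apply,
      LinearMap.add_apply, hp, hq, map_add, LinearMap.add_apply]
  | monomial n a =>
    rw [aeval_monomial, aeval_monomial, Module.End.mul_apply, Module.End.mul_apply,
      Module.algebraMap_end_apply, Module.algebraMap_end_apply, LinearMap.smul_apply,
      LinearMap.smul_apply, e1_pow0, map_smul, LinearMap.smul_apply]

theorem e1_aeval1 (d : Module.End R V) (p : R[X]) (μ : V →ₗ[R] V →ₗ[R] V) (x y : V) :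
    aeval (e1_X1 d) p μ x y = μ x (aeval d p y) := by
  induction p using Polynomial.induction_on' with
  | add p q hp hq =>
    rw [map_add, map_add, LinearMap.add_apply, LinearMap.add_apply, LinearMap.add_apply,
      LinearMap.add_apply, hp, hq, map_add]
  | monomial n a =>
    rw [aeval_monomial, aeval_monomial, Module.End.mul_apply, Module.End.mul_apply,
      Module.algebraMap_end_apply, Module.algebraMap_end_apply, LinearMap.smul_apply,
      LinearMap.smul_apply, e1_pow1, map_smul]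

theorem e1_aeval2 (d : Module.End R V) (p : R[X]) (μ : V →ₗ[R] V →ₗ[R] V) (x y : V) :
    aeval (e1_X2 d) p μ x y = aeval d p (μ x y) := by
  induction p using Polynomial.induction_on' with
  | add p q hp hq =>
    rw [map_add, map_add, LinearMap.add_apply, LinearMap.add_apply, LinearMap.add_apply,
      LinearMap.add_apply, hp, hq]
  | monomial n a =>
    rw [aeval_monomial, aeval_monomial, Module.End.mul_apply, Module.End.mul_apply,
      Module.algebraMap_end_apply, Module.algebraMap_end_apply, LinearMap.smul_apply,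
      LinearMap.smul_apply, e1_pow2]

end e1

/-- `exp_rel` for commuting elements of a ring. -/
theorem e1_rel {k : Type u} [Field k] {m : ℕ} (D : Univ k m) {R : Type*} [CommRing R]
    [Algebra k R] {χ : R[X]} (hχ : χ.Monic) (hd : χ.natDegree = m) {e : Fin m → R}
    (hF : D.FF χ e = 0) (hu : IsUnit (D.ft (cc χ e))) {A : Type*} [Ring A] [Algebra R A]
    (s : Fin 3 → A) (hc : ∀ i j, s i * s j = s j * s i) (hs : ∀ i, aeval (s i) χ = 0) :
    ∃ w : A, aeval (s 2) (eP e) - aeval (s 0) (eP e) * aeval (s 1) (eP e) =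
      w * (s 2 - s 0 - s 1) := by
  let _inst : CommRing (Algebra.adjoin R (Set.range s)) := Algebra.adjoinCommRingOfComm R (by
    rintro _ ⟨i, rfl⟩ _ ⟨j, rfl⟩
    exact hc i j)
  have hval : ∀ (i : Fin 3) (p : R[X]),
      ((aeval (⟨s i, Algebra.subset_adjoin ⟨i, rfl⟩⟩ : Algebra.adjoin R (Set.range s)) p :
        Algebra.adjoin R (Set.range s)) : A) = aeval (s i) p := by
    intro i p
    exact (Polynomial.aeval_algHom_apply (Algebra.adjoin R (Set.range s)).val
      (⟨s i, Algebra.subset_adjoin ⟨i, rfl⟩⟩ : Algebra.adjoin R (Set.range s)) p).symm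
  obtain ⟨w, hw⟩ := exp_rel D hχ hd hF hu
    (fun i : Fin 3 => (⟨s i, Algebra.subset_adjoin ⟨i, rfl⟩⟩ : Algebra.adjoin R (Set.range s)))
    (fun i => Subtype.ext (by rw [hval i χ, hs i]; rfl))
  refine ⟨w, ?_⟩
  have h1 := congrArg Subtype.val hw
  rw [← hval 2, ← hval 0, ← hval 1]
  exact h1

theorem exp_mult {k : Type u} [Field k] {m : ℕ} (D : Univ k m) {R : Type*} [CommRing R]
    [Algebra k R] {χ : R[X]} (hχ : χ.Monic) (hd : χ.natDegree = m) {e : Fin m → R}
    (hF : D.FF χ e = 0) (hu : IsUnit (D.ft (cc χ e))) {V : Type*} [AddCommGroup V] [Module R V]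
    (d : Module.End R V) (hdχ : aeval d χ = 0) (b : V →ₗ[R] V →ₗ[R] V)
    (hder : ∀ x y, d (b x y) = b (d x) y + b x (d y)) (x y : V) :
    aeval d (eP e) (b x y) = b (aeval d (eP e) x) (aeval d (eP e) y) := by
  obtain ⟨w, hw⟩ := e1_rel D hχ hd hF hu (A := Module.End R (V →ₗ[R] V →ₗ[R] V))
    ![e1_X0 d, e1_X1 d, e1_X2 d] (by
      intro i j
      fin_cases i <;> fin_cases j <;> rfl) (by
      intro i
      fin_cases i
      · ext μ x y
        show aeval (e1_X0 d) χ μ x y = 0
        rw [e1_aeval0, hdχ]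
        simp
      · ext μ x y
        show aeval (e1_X1 d) χ μ x y = 0
        rw [e1_aeval1, hdχ]
        simp
      · ext μ x y
        show aeval (e1_X2 d) χ μ x y = 0
        rw [e1_aeval2, hdχ]
        simp)
  have hw' : aeval (e1_X2 d) (eP e) - aeval (e1_X0 d) (eP e) * aeval (e1_X1 d) (eP e) =
      w * (e1_X2 d - e1_X0 d - e1_X1 d) := hw
  have hb : (e1_X2 d - e1_X0 d - e1_X1 d) b = 0 := by
    ext x y
    show d (b x y) - b (d x) y - b x (d y) = 0
    rw [hder]
    abel
  have h1 := congrArg (fun f : Module.End R (V →ₗ[R] V →ₗ[R] V) => f b x y) hw'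
  simp only [LinearMap.sub_apply, Module.End.mul_apply] at h1
  rw [e1_aeval2, e1_aeval0, e1_aeval1] at h1
  have h2 : w ((e1_X2 d) b - (e1_X0 d) b - (e1_X1 d) b) = 0 := by
    have h3 : (e1_X2 d) b - (e1_X0 d) b - (e1_X1 d) b = 0 := hb
    rw [h3, map_zero]
  rw [h2] at h1
  exact sub_eq_zero.mp h1

end Pool.Agent.Lib.H33S
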