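import Pool.Agent.Lib.H33S.Defs

/-!
# Chunk E2 (S/M): `ad v`

`adM_mulVec`: unfold `brk`, `Matrix.mulVec`, `dotProduct`, `Finset.sum_comm`. `adM_map`. `chiV_monic`: `monic_X_pow.mul`,
`Matrix.charpoly_monic`. `chiV_natDegree`: `Matrix.charpoly_natDegree_eq_dim`, `natDegree_X_pow_mul`-like (`Polynomial.Monic.natDegree_mul`).
`chiV_map`: `Matrix.charpoly_map`, `adM_map`. `chiV_aeval`: `Matrix.aeval_self_charpoly`. `chiV_zero`: `adM c 0 = 0`, `Matrix.charpoly_zero`.
`chiV_conj`: `g` invertible with `adM c w' * g = g * adM c w` gives `adM c w' = g * adM c w * g⁻¹`; `Matrix.charpoly_units_conj`.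
-/

namespace Pool.Agent.Lib.H33S

open Polynomial

universe u

variable {k : Type u} [Field k] {n : ℕ} (c : Fin n → Fin n → Fin n → k)
  {R S : Type u} [CommRing R] [CommRing S] [Algebra k R] [Algebra k S]

theorem adM_mulVec (v w : Fin n → R) : (adM c v).mulVec w = brk c v w := by
  funext l
  simp only [Matrix.mulVec, dotProduct, adM, Matrix.of_apply, brk]
  rw [Finset.sum_comm]
  refine Finset.sum_congr rfl fun j _ => ?_
  rw [Finset.sum_mul]
  refine Finset.sum_congr rfl fun i _ => ?_
  rw [smul_mul_assoc]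

theorem adM_map (φ : R →ₐ[k] S) (v : Fin n → R) :
    (adM c v).map φ = adM c (fun i => φ (v i)) := by
  ext l j
  simp [adM]

theorem adM_zero : adM c (0 : Fin n → R) = 0 := by
  ext l j
  simp [adM]

theorem chiV_monic (v : Fin n → R) : (chiV c v).Monic :=
  (monic_X_pow 2).mul (Matrix.charpoly_monic _)

theorem chiV_natDegree [Nontrivial R] (v : Fin n → R) : (chiV c v).natDegree = n + 2 := by
  rw [chiV, (monic_X_pow 2).natDegree_mul (Matrix.charpoly_monic _), natDegree_X_pow,
    Matrix.charpoly_natDegree_eq_dim, Fintype.card_fin, add_comm]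

theorem chiV_map (φ : R →ₐ[k] S) (v : Fin n → R) :
    (chiV c v).map (φ : R →+* S) = chiV c (fun i => φ (v i)) := by
  rw [chiV, Polynomial.map_mul, Polynomial.map_pow, Polynomial.map_X, ← Matrix.charpoly_map, chiV]
  congr 2
  exact adM_map c φ v

theorem chiV_aeval (v : Fin n → R) : aeval (adM c v) (chiV c v) = 0 := by
  rw [chiV, map_mul, Matrix.aeval_self_charpoly, mul_zero]

theorem chiV_coeff_zero (v : Fin n → R) : (chiV c v).coeff 0 = 0 := by
  rw [chiV, mul_coeff_zero]
  simp

theorem chiV_zero : chiV c (0 : Fin n → R) = X ^ (n + 2) := by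
  rw [chiV, adM_zero, Matrix.charpoly_zero, Fintype.card_fin, ← pow_add, add_comm]

theorem chiV_conj {v w : Fin n → R} {g : Matrix (Fin n) (Fin n) R} (hg : IsUnit g)
    (h : adM c v * g = g * adM c w) : chiV c v = chiV c w := by
  obtain ⟨u, rfl⟩ := hg
  have e : adM c v = u.val * adM c w * u⁻¹.val := by
    rw [← h, mul_assoc, Units.mul_inv, mul_one]
  rw [chiV, chiV, e, Matrix.coe_units_inv, Matrix.charpoly_units_conj]

end Pool.Agent.Lib.H33S
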