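import Pool.Agent.Lib.H33S.A7
import Pool.Agent.Lib.H33S.E1
import Pool.Agent.Lib.H33S.E2

/-!
# Chunk E3 (M): the automorphism `x.g`

`x : Pt D c R`, `x.g = aeval (adM c x.v) (eP x.e)`. If `R` is trivial everything is trivial (`Subsingleton.elim`); otherwise
`(chiV c x.v).natDegree = n + 2`, `x.good.rel : FF = 0`, `x.good.unit` gives `IsUnit (ft ..)` (`IsUnit.of_mul_eq_one`-like, right factor).
* `g_mult`: `exp_mult` with `V = Fin n → R`, `d = Matrix.toLin' (adM c x.v)` (or `Matrix.mulVecLin`), `b` the bilinear map `brk c`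
  (`LinearMap.mk₂ R (brk c)`; `brk_add_left`, `brk_add_right` are in Rack.lean, scalars by `simp [brk]`), `hder` is `brk_leibniz c hc` with
  `adM_mulVec`. `aeval (toLin' A) p = toLin' (aeval A p)` (`Matrix.toLinAlgEquiv'`, `Polynomial.aeval_algHom_apply`).
* `g_unit`: `exp_unit` with the commutative ring `T = R[X] ⧸ span {chiV}` (or `Algebra.adjoin R {adM c x.v}`), `s = mk X`, and the
  algebra homomorphism `T → Matrix` (`Ideal.Quotient.liftₐ` of `aeval (adM c x.v)`, `chiV_aeval`); a unit maps to a unit.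
* `g_e0`: `e_zero`.
* `g_ad`: `adM c (g w) * g = g * adM c w`: apply to a vector (`Matrix.ext_iff_mulVec`-like: `Matrix.toLin'` injective), `adM_mulVec`, `g_mult`.
-/

namespace Pool.Agent.Lib.H33S

open Polynomial

universe u

variable {k : Type u} [Field k] {n : ℕ} {D : Univ k (n + 2)} {c : Fin n → Fin n → Fin n → k}
  {R : Type u} [CommRing R] [Algebra k R]

theorem e3_unit (x : Pt D c R) : IsUnit (D.ft (cc (chiV c x.v) x.e)) := by
  have h := x.good.unit
  have h2 : IsUnit (x.t * (MvPolynomial.eval x.e (D.jac (chiV c x.v)) *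
      D.ft (cc (chiV c x.v) x.e))) := by
    rw [h]; exact isUnit_one
  rw [← mul_assoc] at h2
  exact isUnit_of_mul_isUnit_right h2

theorem e3_aeval (A : Matrix (Fin n) (Fin n) R) (p : R[X]) :
    aeval (Matrix.toLin' A) p = Matrix.toLin' (aeval A p) := by
  have h := Polynomial.aeval_algHom_apply
    (Matrix.toLinAlgEquiv' : Matrix (Fin n) (Fin n) R ≃ₐ[R] _).toAlgHom A p
  exact h

theorem g_mult
    (hc : ∀ i a b l, ∑ j, c a b j * c i j l = ∑ j, c i a j * c j b l + ∑ j, c i b j * c a j l)
    (x : Pt D c R) (v w : Fin n → R) :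
    x.g.mulVec (brk c v w) = brk c (x.g.mulVec v) (x.g.mulVec w) := by
  cases subsingleton_or_nontrivial R
  · exact Subsingleton.elim _ _
  · let b : (Fin n → R) →ₗ[R] (Fin n → R) →ₗ[R] (Fin n → R) :=
      LinearMap.mk₂ R (brk c) (fun X X' Y => brk_add_left c X X' Y)
        (fun r X Y => by
          funext l
          simp only [brk, Pi.smul_apply, smul_eq_mul, Finset.mul_sum]
          refine Finset.sum_congr rfl fun i _ => Finset.sum_congr rfl fun j _ => ?_
          rw [mul_assoc, mul_smul_comm])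
        (fun X Y Y' => brk_add_right c X Y Y')
        (fun r X Y => by
          funext l
          simp only [brk, Pi.smul_apply, smul_eq_mul, Finset.mul_sum]
          refine Finset.sum_congr rfl fun i _ => Finset.sum_congr rfl fun j _ => ?_
          rw [mul_left_comm, mul_smul_comm])
    have h := exp_mult D (chiV_monic c x.v) (chiV_natDegree c x.v) x.good.rel (e3_unit x)
      (Matrix.toLin' (adM c x.v)) (by rw [e3_aeval, chiV_aeval, map_zero]) b
      (fun y z => by
        simp only [b, LinearMap.mk₂_apply, Matrix.toLin'_apply, adM_mulVec]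
        exact brk_leibniz c hc _ _ _) v w
    rw [e3_aeval] at h
    simp only [b, LinearMap.mk₂_apply, Matrix.toLin'_apply] at h
    exact h

theorem g_unit (x : Pt D c R) : IsUnit x.g := by
  cases subsingleton_or_nontrivial R
  · exact isUnit_of_subsingleton _
  · let I : Ideal R[X] := Ideal.span {chiV c x.v}
    let φ : (R[X] ⧸ I) →ₐ[R] Matrix (Fin n) (Fin n) R :=
      Ideal.Quotient.liftₐ I (aeval (adM c x.v)) (by
        intro p hp
        obtain ⟨q, rfl⟩ := Ideal.mem_span_singleton'.1 hp
        rw [map_mul, chiV_aeval, mul_zero])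
    let s : R[X] ⧸ I := Ideal.Quotient.mkₐ R I X
    have hs : ∀ p : R[X], aeval s p = Ideal.Quotient.mkₐ R I p := by
      intro p
      have h := Polynomial.aeval_algHom_apply (Ideal.Quotient.mkₐ R I) (X : R[X]) p
      rw [aeval_X_left_apply] at h
      exact h
    have hs0 : aeval s (chiV c x.v) = 0 := by
      rw [hs]
      exact Ideal.Quotient.eq_zero_iff_mem.2 (Ideal.mem_span_singleton_self _)
    have hu := exp_unit D (chiV_monic c x.v) (chiV_natDegree c x.v) (e3_unit x) hs0
    have h2 := hu.map φ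
    have h3 : φ (aeval s (eP x.e)) = x.g := by
      rw [hs]
      rfl
    rwa [h3] at h2

theorem g_e0 (x : Pt D c R) : x.e 0 = 1 := by
  cases subsingleton_or_nontrivial R
  · exact Subsingleton.elim _ _
  · exact e_zero D (chiV_monic c x.v) (chiV_natDegree c x.v) (chiV_coeff_zero c x.v) x.good.rel
      (e3_unit x)

theorem g_ad
    (hc : ∀ i a b l, ∑ j, c a b j * c i j l = ∑ j, c i a j * c j b l + ∑ j, c i b j * c a j l)
    (x : Pt D c R) (w : Fin n → R) : adM c (x.g.mulVec w) * x.g = x.g * adM c w := by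
  apply Matrix.toLin'.injective
  apply LinearMap.ext
  intro v
  rw [Matrix.toLin'_apply, Matrix.toLin'_apply, ← Matrix.mulVec_mulVec, ← Matrix.mulVec_mulVec,
    adM_mulVec, adM_mulVec, g_mult hc]

end Pool.Agent.Lib.H33S
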