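import Pool.Agent.Lib.H33S.B4b
import Pool.Agent.Lib.H33S.E3

/-!
# F1: the operations on points

`x ▷ y = (g_x v_y, e_y, t_y)`, `y ▷⁻¹ x = (g_x⁻¹ v_y, e_y, t_y)`.
-/

namespace Pool.Agent.Lib.H33S

open Polynomial

universe u

variable {k : Type u} [Field k] {n : ℕ} {D : Univ k (n + 2)} {c : Fin n → Fin n → Fin n → k}

section ops

variable (hc : ∀ i a b l, ∑ j, c a b j * c i j l = ∑ j, c i a j * c j b l + ∑ j, c i b j * c a j l)
  {R : Type u} [CommRing R] [Algebra k R]

include hc in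
theorem chi_g (x : Pt D c R) (w : Fin n → R) : chiV c (x.g.mulVec w) = chiV c w :=
  chiV_conj c (g_unit x) (g_ad hc x w)

include hc in
theorem chi_ginv (x : Pt D c R) (w : Fin n → R) : chiV c (x.g⁻¹.mulVec w) = chiV c w := by
  have h1 := chi_g hc x (x.g⁻¹.mulVec w)
  have h2 : x.g * x.g⁻¹ = 1 := Matrix.mul_nonsing_inv _ ((Matrix.isUnit_iff_isUnit_det _).1 (g_unit x))
  rw [Matrix.mulVec_mulVec, h2, Matrix.one_mulVec] at h1
  exact h1.symm

/-- `x ▷ y` -/
noncomputable def Pt.op (x y : Pt D c R) : Pt D c R where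
  v := x.g.mulVec y.v
  e := y.e
  t := y.t
  good := by
    rw [chi_g hc]
    exact y.good

/-- `x ▷⁻¹ y = g_y⁻¹ x` -/
noncomputable def Pt.opInv (x y : Pt D c R) : Pt D c R where
  v := y.g⁻¹.mulVec x.v
  e := x.e
  t := x.t
  good := by
    rw [chi_ginv hc]
    exact x.good

end ops

/-- Base change of points. -/
noncomputable def Pt.map {R S : Type u} [CommRing R] [CommRing S] [Algebra k R] [Algebra k S]
    (φ : R →ₐ[k] S) (x : Pt D c R) : Pt D c S where
  v := fun i => φ (x.v i)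
  e := fun i => φ (x.e i)
  t := φ x.t
  good := by
    have h := good_map D φ (chiV_monic c x.v) x.good
    rw [chiV_map] at h
    exact h

end Pool.Agent.Lib.H33S
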