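import Pool.Agent.Lib.H33S.F1

/-!
# Chunk F2 (M): rack identities and naturality

`g_op`: `(x ▷ y).g = x.g * y.g * x.g⁻¹`: `adM c (x.g v) = x.g * adM c v * x.g⁻¹` (`g_ad`, `g_unit`), and
`aeval (g * A * g⁻¹) p = g * aeval A p * g⁻¹` (`Polynomial.induction_on'`, or conjugation as an algebra automorphism, e.g. `MulSemiringAction`
/ write `g` as a unit `u` and use `Units.conj_pow`). `g_opInv`: `(y ▷⁻¹ x).g = x.g⁻¹ * y.g * x.g` the same (with `x ▷ (y ▷⁻¹ x) = y`).
The identities: compare `v` (`Pt.ext`), `Matrix.mulVec_mulVec`, `Matrix.mul_nonsing_inv`, `Matrix.nonsing_inv_mul`.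
`g_map`: `(x.map φ).g = x.g.map φ` (`adM_map`, `eP_map`, `Matrix` version of `aeval` under `map`: `RingHom.mapMatrix`, `Polynomial.map_aeval_eq_aeval_map`-like).
`map_op`, `map_opInv`: `RingHom.map_mulVec`, and for the inverse: `(x.g⁻¹).map φ = (x.g.map φ)⁻¹` because both are inverses of `x.g.map φ`
(`Matrix.inv_eq_left_inv`).
-/

namespace Pool.Agent.Lib.H33S

open Polynomial

universe u

variable {k : Type u} [Field k] {n : ℕ} {D : Univ k (n + 2)} {c : Fin n → Fin n → Fin n → k}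
  (hc : ∀ i a b l, ∑ j, c a b j * c i j l = ∑ j, c i a j * c j b l + ∑ j, c i b j * c a j l)
  {R S : Type u} [CommRing R] [CommRing S] [Algebra k R] [Algebra k S]

private theorem f2_mul_inv (x : Pt D c R) : x.g * x.g⁻¹ = 1 :=
  Matrix.mul_nonsing_inv _ ((Matrix.isUnit_iff_isUnit_det _).1 (g_unit x))

private theorem f2_inv_mul (x : Pt D c R) : x.g⁻¹ * x.g = 1 :=
  Matrix.nonsing_inv_mul _ ((Matrix.isUnit_iff_isUnit_det _).1 (g_unit x))

private theorem f2_aeval {A B g : Matrix (Fin n) (Fin n) R} (h : B * g = g * A) (p : R[X]) :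
    aeval B p * g = g * aeval A p := by
  induction p using Polynomial.induction_on' with
  | add p q hp hq => rw [map_add, map_add, add_mul, mul_add, hp, hq]
  | monomial i a =>
    rw [aeval_monomial, aeval_monomial]
    have h1 : B ^ i * g = g * A ^ i := by
      induction i with
      | zero => simp
      | succ i ih => rw [pow_succ, pow_succ, mul_assoc, h, ← mul_assoc, ih, mul_assoc]
    rw [mul_assoc, h1, ← mul_assoc, ← mul_assoc, Algebra.commutes]

theorem g_op (x y : Pt D c R) : (x.op hc y).g = x.g * y.g * x.g⁻¹ := by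
  have h1 : (x.op hc y).g * x.g = x.g * y.g :=
    f2_aeval (g_ad hc x y.v) _
  rw [← h1, mul_assoc, f2_mul_inv, mul_one]

theorem pt_inv_op (x y : Pt D c R) : (x.op hc y).opInv hc x = y := by
  have h : x.g⁻¹.mulVec (x.g.mulVec y.v) = y.v := by
    rw [Matrix.mulVec_mulVec, f2_inv_mul, Matrix.one_mulVec]
  exact Pt.ext h rfl rfl

theorem pt_op_inv (x y : Pt D c R) : x.op hc (y.opInv hc x) = y := by
  have h : x.g.mulVec (x.g⁻¹.mulVec y.v) = y.v := by
    rw [Matrix.mulVec_mulVec, f2_mul_inv, Matrix.one_mulVec]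
  exact Pt.ext h rfl rfl

theorem g_opInv (x y : Pt D c R) : (x.opInv hc y).g = y.g⁻¹ * x.g * y.g := by
  have h1 := g_op hc y (x.opInv hc y)
  rw [pt_op_inv] at h1
  rw [h1]
  calc (x.opInv hc y).g = (y.g⁻¹ * y.g) * (x.opInv hc y).g * (y.g⁻¹ * y.g) := by
        rw [f2_inv_mul, one_mul, mul_one]
    _ = y.g⁻¹ * (y.g * (x.opInv hc y).g * y.g⁻¹) * y.g := by
        simp only [mul_assoc]

theorem pt_op_distrib (x y z : Pt D c R) :
    x.op hc (y.op hc z) = (x.op hc y).op hc (x.op hc z) := by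
  have h : x.g.mulVec (y.g.mulVec z.v) = (x.op hc y).g.mulVec (x.g.mulVec z.v) := by
    rw [g_op, Matrix.mulVec_mulVec, Matrix.mulVec_mulVec, mul_assoc, f2_inv_mul, mul_one]
  exact Pt.ext h rfl rfl

theorem pt_inv_distrib (x y z : Pt D c R) :
    (x.opInv hc y).opInv hc z = (x.opInv hc z).opInv hc (y.opInv hc z) := by
  have hg : (y.opInv hc z).g⁻¹ = z.g⁻¹ * y.g⁻¹ * z.g := by
    apply Matrix.inv_eq_left_inv
    rw [g_opInv]
    calc z.g⁻¹ * y.g⁻¹ * z.g * (z.g⁻¹ * y.g * z.g)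
        = z.g⁻¹ * (y.g⁻¹ * ((z.g * z.g⁻¹) * (y.g * z.g))) := by simp only [mul_assoc]
      _ = z.g⁻¹ * ((y.g⁻¹ * y.g) * z.g) := by rw [f2_mul_inv, one_mul, mul_assoc]
      _ = 1 := by rw [f2_inv_mul, one_mul, f2_inv_mul]
  have h : z.g⁻¹.mulVec (y.g⁻¹.mulVec x.v) = (y.opInv hc z).g⁻¹.mulVec (z.g⁻¹.mulVec x.v) := by
    rw [hg, Matrix.mulVec_mulVec, Matrix.mulVec_mulVec, mul_assoc _ z.g, f2_mul_inv, mul_one]
  exact Pt.ext h rfl rfl

private theorem f2_map_aeval (φ : R →ₐ[k] S) (A : Matrix (Fin n) (Fin n) R) (p : R[X]) :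
    (aeval A p).map φ = aeval (A.map φ) (p.map (φ : R →+* S)) := by
  have h := Polynomial.map_aeval_eq_aeval_map (S := Matrix (Fin n) (Fin n) R)
    (U := Matrix (Fin n) (Fin n) S) (φ := (φ : R →+* S)) (ψ := (φ : R →+* S).mapMatrix)
    (by
      ext a i j
      by_cases hij : i = j
      · subst hij
        simp [Matrix.algebraMap_matrix_apply]
      · simp [Matrix.algebraMap_matrix_apply, hij]) p A
  exact h

private theorem f2_map_mulVec (φ : R →ₐ[k] S) (A : Matrix (Fin n) (Fin n) R) (v : Fin n → R) :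
    (fun i => φ (A.mulVec v i)) = (A.map φ).mulVec (fun i => φ (v i)) := by
  funext i
  simp [Matrix.mulVec, dotProduct, map_sum, map_mul]

theorem g_map (φ : R →ₐ[k] S) (x : Pt D c R) : (x.map φ).g = x.g.map φ := by
  have h1 : x.g.map φ = aeval ((adM c x.v).map φ) ((eP x.e).map (φ : R →+* S)) :=
    f2_map_aeval φ _ _
  rw [h1, adM_map, eP_map]
  rfl

theorem map_op (φ : R →ₐ[k] S) (x y : Pt D c R) :
    (x.op hc y).map φ = (x.map φ).op hc (y.map φ) := by
  have h : (fun i => φ (x.g.mulVec y.v i)) = (x.map φ).g.mulVec (fun i => φ (y.v i)) := by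
    rw [f2_map_mulVec, g_map]
  exact Pt.ext h rfl rfl

theorem map_opInv (φ : R →ₐ[k] S) (x y : Pt D c R) :
    (x.opInv hc y).map φ = (x.map φ).opInv hc (y.map φ) := by
  have hinv : (y.map φ).g⁻¹ = y.g⁻¹.map φ := by
    apply Matrix.inv_eq_left_inv
    rw [g_map]
    have h := congrArg (fun M : Matrix (Fin n) (Fin n) R => M.map (φ : R →+* S)) (f2_inv_mul y)
    simp only [Matrix.map_mul] at h
    rw [Matrix.map_one _ (map_zero _) (map_one _)] at h
    exact h
  have h : (fun i => φ (y.g⁻¹.mulVec x.v i)) = (y.map φ).g⁻¹.mulVec (fun i => φ (x.v i)) := by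
    rw [f2_map_mulVec, hinv]
  exact Pt.ext h rfl rfl

end Pool.Agent.Lib.H33S
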