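import Pool.Agent.Lib.H33S.C2
import Pool.Agent.Lib.H33S.F2

/-!
# G1: the points of `AA`
-/

namespace Pool.Agent.Lib.H33S

open Polynomial

universe u

variable {k : Type u} [Field k] {n : ℕ} {D : Univ k (n + 2)} {c : Fin n → Fin n → Fin n → k}
  {R S : Type u} [CommRing R] [Algebra k R] [CommRing S] [Algebra k S]

/-- The point attached to a homomorphism. -/
noncomputable def toPt (x : AA D c →ₐ[k] R) : Pt D c R where
  v := fun i => x (algebraMap (MvPolynomial (Fin n) k) (AA D c) (MvPolynomial.X i))
  e := fun i => x (Ideal.Quotient.mk _ (MvPolynomial.X (Sum.inl i)))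
  t := x (Ideal.Quotient.mk _ (MvPolynomial.X (Sum.inr ())))
  good := by
    have h := ca_good D (chiV_monic c _) (chiV_natDegree c _)
      (x.comp (IsScalarTower.toAlgHom k (MvPolynomial (Fin n) k) (AA D c))) x (fun b => rfl)
    rw [chiV_map] at h
    exact h

theorem toPt_comp (φ : R →ₐ[k] S) (x : AA D c →ₐ[k] R) : toPt (φ.comp x) = (toPt x).map φ := rfl

theorem toPt_injective : Function.Injective (toPt : (AA D c →ₐ[k] R) → Pt D c R) := by
  intro x y h
  apply ca_hom_ext
  · intro b
    have h1 : x.comp (IsScalarTower.toAlgHom k (MvPolynomial (Fin n) k) (AA D c)) =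
        y.comp (IsScalarTower.toAlgHom k (MvPolynomial (Fin n) k) (AA D c)) := by
      apply MvPolynomial.algHom_ext
      intro i
      exact congrFun (congrArg Pt.v h) i
    exact DFunLike.congr_fun h1 b
  · rintro (i | ⟨⟩)
    · exact congrFun (congrArg Pt.e h) i
    · exact congrArg Pt.t h

theorem toPt_surjective : Function.Surjective (toPt : (AA D c →ₐ[k] R) → Pt D c R) := by
  intro y
  have h0 : D.Good ((chiV c (fun i : Fin n => (MvPolynomial.X i : MvPolynomial (Fin n) k))).map
      ((MvPolynomial.aeval y.v : MvPolynomial (Fin n) k →ₐ[k] R) : MvPolynomial (Fin n) k →+* R))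
      y.e y.t := by
    rw [chiV_map]
    simp only [MvPolynomial.aeval_X]
    exact y.good
  obtain ⟨g, h1, h2, h3⟩ := ca_lift D (chiV_monic c _) (chiV_natDegree c _)
    (MvPolynomial.aeval y.v) h0
  refine ⟨g, Pt.ext ?_ ?_ ?_⟩
  · funext i
    change g (algebraMap (MvPolynomial (Fin n) k) (AA D c) (MvPolynomial.X i)) = _
    rw [h1, MvPolynomial.aeval_X]
  · funext i
    exact h2 i
  · exact h3

/-- The points of `AA` are the points `Pt`. -/
noncomputable def ptEquiv (D : Univ k (n + 2)) (c : Fin n → Fin n → Fin n → k) (R : Type u)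
    [CommRing R] [Algebra k R] : (AA D c →ₐ[k] R) ≃ Pt D c R :=
  Equiv.ofBijective toPt ⟨toPt_injective, toPt_surjective⟩

theorem toPt_symm (y : Pt D c R) : toPt ((ptEquiv D c R).symm y) = y :=
  (ptEquiv D c R).apply_symm_apply y

end Pool.Agent.Lib.H33S
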