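import Pool.Agent.Lib.H33S.G1
import Pool.Agent.Lib.H33S.B5

/-!
# G2: the rack structure on `AA`
-/

namespace Pool.Agent.Lib.H33S

open Polynomial
open scoped TensorProduct

universe u

variable {k : Type u} [Field k] {n : ℕ} {D : Univ k (n + 2)} {c : Fin n → Fin n → Fin n → k}
  (hc : ∀ i a b l, ∑ j, c a b j * c i j l = ∑ j, c i a j * c j b l + ∑ j, c i b j * c a j l)
  {R : Type u} [CommRing R] [Algebra k R]

/-- pullback of `▷` -/
noncomputable def nab (D : Univ k (n + 2)) : AA D c →ₐ[k] AA D c ⊗[k] AA D c :=
  (ptEquiv D c (AA D c ⊗[k] AA D c)).symm ((toPt Algebra.TensorProduct.includeLeft).op hc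
    (toPt Algebra.TensorProduct.includeRight))

/-- pullback of `▷⁻¹` -/
noncomputable def nabInv (D : Univ k (n + 2)) : AA D c →ₐ[k] AA D c ⊗[k] AA D c :=
  (ptEquiv D c (AA D c ⊗[k] AA D c)).symm ((toPt Algebra.TensorProduct.includeLeft).opInv hc
    (toPt Algebra.TensorProduct.includeRight))

theorem pair_left (x y : AA D c →ₐ[k] R) :
    (pair x y).comp Algebra.TensorProduct.includeLeft = x := by
  apply AlgHom.ext
  intro a
  simp [pair]

theorem pair_right (x y : AA D c →ₐ[k] R) :
    (pair x y).comp Algebra.TensorProduct.includeRight = y := by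
  apply AlgHom.ext
  intro a
  simp [pair]

theorem toPt_op (x y : AA D c →ₐ[k] R) :
    toPt (op (nab hc D) x y) = (toPt x).op hc (toPt y) := by
  rw [op, toPt_comp, nab, toPt_symm, map_op, ← toPt_comp, ← toPt_comp, pair_left, pair_right]

theorem toPt_opInv (x y : AA D c →ₐ[k] R) :
    toPt (op (nabInv hc D) x y) = (toPt x).opInv hc (toPt y) := by
  rw [op, toPt_comp, nabInv, toPt_symm, map_opInv, ← toPt_comp, ← toPt_comp, pair_left, pair_right]

/-- The base point, from a point of the etale algebra over `X^(n+2)`. -/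
noncomputable def basePoint {e : Fin (n + 2) → k} {t : k} (h : D.Good (X ^ (n + 2)) e t) :
    Pt D c k where
  v := 0
  e := e
  t := t
  good := by
    rw [chiV_zero]
    exact h

theorem base_g {x : Pt D c R} (hx : x.v = 0) : x.g = 1 := by
  have h0 : (eP x.e).coeff 0 = x.e 0 := eP_coeff x.e 0
  rw [Pt.g, hx, adM_zero, ← Polynomial.coeff_zero_eq_aeval_zero', h0, g_e0 x, map_one]

/-- The rack structure. -/
noncomputable def rackS {e : Fin (n + 2) → k} {t : k} (h : D.Good (X ^ (n + 2)) e t) :
    AffineRack k (AA D c) where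
  ε := (ptEquiv D c k).symm (basePoint h)
  nabla := nab hc D
  nablaInv := nabInv hc D
  inv_op := by
    intro R _ _ x y
    apply toPt_injective
    rw [toPt_opInv, toPt_op, pt_inv_op]
  op_inv := by
    intro R _ _ x y
    apply toPt_injective
    rw [toPt_op, toPt_opInv, pt_op_inv]
  op_distrib := by
    intro R _ _ x y z
    apply toPt_injective
    simp only [toPt_op]
    exact pt_op_distrib hc _ _ _
  inv_distrib := by
    intro R _ _ x y z
    apply toPt_injective
    simp only [toPt_opInv]
    exact pt_inv_distrib hc _ _ _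
  base_op := by
    intro R _ _ x
    apply toPt_injective
    rw [toPt_op]
    have h1 : (toPt (basePt R ((ptEquiv D c k).symm (basePoint h)))).v = 0 := by
      rw [basePt, toPt_comp, toPt_symm]
      funext i
      exact map_zero (Algebra.ofId k R)
    apply Pt.ext
    · change (toPt (basePt R ((ptEquiv D c k).symm (basePoint h)))).g.mulVec (toPt x).v = (toPt x).v
      rw [base_g h1, Matrix.one_mulVec]
    · rfl
    · rfl
  op_base := by
    intro R _ _ x
    apply toPt_injective
    rw [toPt_op]
    have h1 : (toPt (basePt R ((ptEquiv D c k).symm (basePoint h)))).v = 0 := by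
      rw [basePt, toPt_comp, toPt_symm]
      funext i
      exact map_zero (Algebra.ofId k R)
    apply Pt.ext
    · change (toPt x).g.mulVec (toPt (basePt R ((ptEquiv D c k).symm (basePoint h)))).v =
        (toPt (basePt R ((ptEquiv D c k).symm (basePoint h)))).v
      rw [h1, Matrix.mulVec_zero]
    · rfl
    · rfl

end Pool.Agent.Lib.H33S
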