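import Pool.Agent.Lib.H33S.Rack

/-!
# Chunk T1 (M/L): the tangent space of an etale algebra over affine space

`B = MvPolynomial (Fin n) k`, `A` formally etale over `B`, `ε : A →ₐ[k] k`.
A functional `D ∈ tangent ε` is the same as a `k`-algebra homomorphism `A → TrivSqZeroExt k k` (`= DualNumber k`) lifting `ε`:
`f ↦ inl (ε f) + inr (D f)`.
* injectivity (`tan_inj`): `D ∈ tangent ε` with `D (algebraMap B A (X i)) = 0` for all `i`. Then `D ∘ algebraMap B A = 0`
  (`MvPolynomial.induction_on`: `D 1 = 0`, Leibniz rule at `ε`). Make `DualNumber k` a `B`-algebra by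
  `b ↦ inl (ε (algebraMap B A b))`; then `f ↦ inl (ε f) + inr (D f)` and `f ↦ inl (ε f)` are two `B`-algebra homomorphisms `A → DualNumber k`
  which agree modulo the ideal `I = ker fst` with `I^2 = ⊥`; by `Algebra.FormallyUnramified.ext` / `comp_injective` they are equal.
* surjectivity (`tan_surj`): given `w`, make `DualNumber k` a `B`-algebra by `MvPolynomial.aeval (fun i => inl (ε (X i)) + inr (w i))`.
  `ε` is a `B`-algebra homomorphism `A → DualNumber k ⧸ I ≃ k`; lift it by `Algebra.FormallySmooth.exists_lift` (or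
  `Algebra.FormallyEtale.comp_bijective`) to `g : A → DualNumber k`; `D f = snd (g f)`, `fst (g f) = ε f`.
-/

namespace Pool.Agent.Lib.H33S

universe u

variable {k : Type u} [Field k] {n : ℕ} {A : Type u} [CommRing A] [Algebra k A]
  [Algebra (MvPolynomial (Fin n) k) A] [IsScalarTower k (MvPolynomial (Fin n) k) A]
  [Algebra.FormallyEtale (MvPolynomial (Fin n) k) A] (ε : A →ₐ[k] k)

omit [Algebra.FormallyEtale (MvPolynomial (Fin n) k) A] [Algebra (MvPolynomial (Fin n) k) A]
  [IsScalarTower k (MvPolynomial (Fin n) k) A] in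
theorem t1_one {E : A →ₗ[k] k} (hE : E ∈ AffineRack.tangent ε) : E 1 = 0 := by
  have h := hE 1 1
  simp only [mul_one, map_one, one_mul] at h
  simpa using h

omit [Algebra.FormallyEtale (MvPolynomial (Fin n) k) A] in
theorem t1_poly {E : A →ₗ[k] k} (hE : E ∈ AffineRack.tangent ε)
    (h : ∀ i, E (algebraMap (MvPolynomial (Fin n) k) A (MvPolynomial.X i)) = 0)
    (p : MvPolynomial (Fin n) k) : E (algebraMap (MvPolynomial (Fin n) k) A p) = 0 := by
  induction p using MvPolynomial.induction_on with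
  | C a =>
    have e : algebraMap (MvPolynomial (Fin n) k) A (MvPolynomial.C a) = a • (1 : A) := by
      rw [← MvPolynomial.algebraMap_eq, ← IsScalarTower.algebraMap_apply, Algebra.algebraMap_eq_smul_one]
    rw [e, map_smul, t1_one ε hE, smul_zero]
  | add p q hp hq => rw [map_add, map_add, hp, hq, add_zero]
  | mul_X p i hp =>
    rw [map_mul]
    have h1 := hE (algebraMap (MvPolynomial (Fin n) k) A p)
      (algebraMap (MvPolynomial (Fin n) k) A (MvPolynomial.X i))
    rw [h1, hp, h i]
    ring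

/-- The two homomorphisms. -/
def t1_hom {A : Type u} [CommRing A] [Algebra k A] (ε : A →ₐ[k] k) {E : A →ₗ[k] k}
    (hE : E ∈ AffineRack.tangent ε) : A →+* TrivSqZeroExt k k where
  toFun a := TrivSqZeroExt.inl (ε a) + TrivSqZeroExt.inr (E a)
  map_one' := by
    rw [map_one, t1_one ε hE, TrivSqZeroExt.inr_zero, add_zero]
    rfl
  map_mul' a b := by
    have h := hE a b
    ext
    · simp
    · simp only [TrivSqZeroExt.snd_add, TrivSqZeroExt.snd_inl, TrivSqZeroExt.snd_inr, zero_add,
        TrivSqZeroExt.snd_mul, TrivSqZeroExt.fst_add, TrivSqZeroExt.fst_inl,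
        TrivSqZeroExt.fst_inr, add_zero, smul_eq_mul, op_smul_eq_smul]
      rw [h]
      ring
  map_zero' := by
    rw [map_zero, map_zero, TrivSqZeroExt.inr_zero, add_zero]
    rfl
  map_add' a b := by
    ext
    · simp
    · simp

theorem t1_nil : IsNilpotent (TrivSqZeroExt.kerIdeal k k) := ⟨2, TrivSqZeroExt.kerIdeal_sq k k⟩

theorem t1_mk (x y : TrivSqZeroExt k k) :
    Ideal.Quotient.mk (TrivSqZeroExt.kerIdeal k k) x =
      Ideal.Quotient.mk (TrivSqZeroExt.kerIdeal k k) y ↔ x.fst = y.fst := by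
  rw [Ideal.Quotient.eq, TrivSqZeroExt.kerIdeal, RingHom.mem_ker, map_sub, sub_eq_zero]
  rfl

theorem tan_inj {E : A →ₗ[k] k} (hE : E ∈ AffineRack.tangent ε)
    (h : ∀ i, E (algebraMap (MvPolynomial (Fin n) k) A (MvPolynomial.X i)) = 0) : E = 0 := by
  have h0 : (0 : A →ₗ[k] k) ∈ AffineRack.tangent ε := Submodule.zero_mem _
  letI alg : Algebra (MvPolynomial (Fin n) k) (TrivSqZeroExt k k) :=
    ((t1_hom ε h0).comp (algebraMap (MvPolynomial (Fin n) k) A)).toAlgebra
  have hal : ∀ p, algebraMap (MvPolynomial (Fin n) k) (TrivSqZeroExt k k) p =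
      t1_hom ε h0 (algebraMap (MvPolynomial (Fin n) k) A p) := fun p => rfl
  let g1 : A →ₐ[MvPolynomial (Fin n) k] TrivSqZeroExt k k :=
    { t1_hom ε hE with
      commutes' := fun p => by
        rw [hal]
        show TrivSqZeroExt.inl (ε (algebraMap (MvPolynomial (Fin n) k) A p)) +
          TrivSqZeroExt.inr (E (algebraMap (MvPolynomial (Fin n) k) A p)) =
          TrivSqZeroExt.inl (ε (algebraMap (MvPolynomial (Fin n) k) A p)) +
          TrivSqZeroExt.inr 0
        rw [t1_poly ε hE h] }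
  let g2 : A →ₐ[MvPolynomial (Fin n) k] TrivSqZeroExt k k :=
    { t1_hom ε h0 with commutes' := fun p => rfl }
  have hg : g1 = g2 := by
    refine Algebra.FormallyUnramified.ext (TrivSqZeroExt.kerIdeal k k) t1_nil fun a => ?_
    rw [t1_mk]
    show (TrivSqZeroExt.inl (ε a) + TrivSqZeroExt.inr (E a) : TrivSqZeroExt k k).fst =
      (TrivSqZeroExt.inl (ε a) + TrivSqZeroExt.inr 0 : TrivSqZeroExt k k).fst
    simp
  ext a
  have h1 : g1 a = g2 a := by rw [hg]
  have h2 : (TrivSqZeroExt.inl (ε a) + TrivSqZeroExt.inr (E a) : TrivSqZeroExt k k).snd =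
      (TrivSqZeroExt.inl (ε a) + TrivSqZeroExt.inr 0 : TrivSqZeroExt k k).snd :=
    congrArg TrivSqZeroExt.snd h1
  simpa using h2

theorem tan_surj (w : Fin n → k) :
    ∃ E ∈ AffineRack.tangent ε,
      ∀ i, E (algebraMap (MvPolynomial (Fin n) k) A (MvPolynomial.X i)) = w i := by
  let ψ : MvPolynomial (Fin n) k →ₐ[k] TrivSqZeroExt k k := MvPolynomial.aeval fun i =>
    TrivSqZeroExt.inl (ε (algebraMap (MvPolynomial (Fin n) k) A (MvPolynomial.X i))) +
      TrivSqZeroExt.inr (w i)
  letI alg : Algebra (MvPolynomial (Fin n) k) (TrivSqZeroExt k k) := ψ.toRingHom.toAlgebra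
  have hal : ∀ p, algebraMap (MvPolynomial (Fin n) k) (TrivSqZeroExt k k) p = ψ p := fun p => rfl
  have hfst : ∀ p, (ψ p).fst = ε (algebraMap (MvPolynomial (Fin n) k) A p) := by
    have e : (TrivSqZeroExt.fstHom k k k).comp ψ =
        ε.comp (IsScalarTower.toAlgHom k (MvPolynomial (Fin n) k) A) := by
      refine MvPolynomial.algHom_ext fun i => ?_
      show (ψ (MvPolynomial.X i)).fst = ε (algebraMap (MvPolynomial (Fin n) k) A
        (MvPolynomial.X i))
      rw [MvPolynomial.aeval_X]
      simp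
    intro p
    exact DFunLike.congr_fun e p
  let g0 : A →ₐ[MvPolynomial (Fin n) k] TrivSqZeroExt k k ⧸ TrivSqZeroExt.kerIdeal k k :=
    { (Ideal.Quotient.mk (TrivSqZeroExt.kerIdeal k k)).comp
        (t1_hom ε (Submodule.zero_mem (AffineRack.tangent ε))) with
      commutes' := fun p => by
        show Ideal.Quotient.mk (TrivSqZeroExt.kerIdeal k k)
          (TrivSqZeroExt.inl (ε (algebraMap (MvPolynomial (Fin n) k) A p)) +
          TrivSqZeroExt.inr 0) = Ideal.Quotient.mk (TrivSqZeroExt.kerIdeal k k) (ψ p)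
        rw [t1_mk, hfst]
        simp }
  obtain ⟨f, hf⟩ := Algebra.FormallySmooth.exists_lift (TrivSqZeroExt.kerIdeal k k) t1_nil g0
  have hff : ∀ a, (f a).fst = ε a := by
    intro a
    have h1 : Ideal.Quotient.mk (TrivSqZeroExt.kerIdeal k k) (f a) =
        Ideal.Quotient.mk (TrivSqZeroExt.kerIdeal k k)
          (TrivSqZeroExt.inl (ε a) + TrivSqZeroExt.inr 0) := DFunLike.congr_fun hf a
    rw [t1_mk] at h1
    rw [h1]
    simp
  have hfc : ∀ (c : k) (a : A), f (c • a) = TrivSqZeroExt.inl c * f a := by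
    intro c a
    have e : c • a = algebraMap (MvPolynomial (Fin n) k) A (MvPolynomial.C c) * a := by
      rw [← MvPolynomial.algebraMap_eq, ← IsScalarTower.algebraMap_apply, Algebra.smul_def]
    rw [e, map_mul, AlgHom.commutes, hal]
    refine congrArg (· * f a) ?_
    show MvPolynomial.aeval _ (MvPolynomial.C c) = _
    rw [MvPolynomial.aeval_C]
    rfl
  refine ⟨{ toFun := fun a => (f a).snd, map_add' := fun a b => ?_, map_smul' := fun c a => ?_ },
    fun a b => ?_, fun i => ?_⟩
  · rw [map_add, TrivSqZeroExt.snd_add]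
  · rw [hfc]
    simp
  · show (f (a * b)).snd = (f a).snd * ε b + ε a * (f b).snd
    rw [map_mul, TrivSqZeroExt.snd_mul, hff, hff, smul_eq_mul, op_smul_eq_smul, smul_eq_mul]
    ring
  · show (f (algebraMap (MvPolynomial (Fin n) k) A (MvPolynomial.X i))).snd = w i
    rw [AlgHom.commutes, hal, MvPolynomial.aeval_X]
    simp

end Pool.Agent.Lib.H33S
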