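import Pool.Agent.Lib.H33S.G2
import Pool.Agent.Lib.H33S.T1
import Pool.Agent.Lib.H33S.C1

/-!
# T2: the bracket of the smooth rack
-/

namespace Pool.Agent.Lib.H33S

open Polynomial
open scoped TensorProduct

universe u

section der

variable {k A : Type u} [Field k] [CommRing A] [Algebra k A] {n : ℕ} {ε : A →ₐ[k] k}
  {E : A →ₗ[k] k}

theorem der_one (hE : E ∈ AffineRack.tangent ε) : E 1 = 0 := by
  have h := hE 1 1
  simp only [mul_one, map_one, one_mul] at h
  simpa using h

theorem eps_pow {M : Matrix (Fin n) (Fin n) A} (h0 : ∀ i j, ε (M i j) = 0) (p : ℕ)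
    (i j : Fin n) : ε ((M ^ (p + 1)) i j) = 0 := by
  rw [pow_succ, Matrix.mul_apply, map_sum]
  apply Finset.sum_eq_zero
  intro a _
  rw [map_mul, h0, mul_zero]

theorem der_pow (hE : E ∈ AffineRack.tangent ε) {M : Matrix (Fin n) (Fin n) A}
    (h0 : ∀ i j, ε (M i j) = 0) (p : ℕ) (i j : Fin n) : E ((M ^ (p + 2)) i j) = 0 := by
  rw [pow_succ, Matrix.mul_apply, map_sum]
  apply Finset.sum_eq_zero
  intro a _
  rw [hE, h0, eps_pow h0, mul_zero, zero_mul, add_zero]

theorem aeval_eP_apply (M : Matrix (Fin n) (Fin n) A) {m : ℕ} (e : Fin m → A) (i j : Fin n) :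
    (aeval M (eP e)) i j = ∑ a : Fin m, e a * (M ^ (a : ℕ)) i j := by
  rw [eP, map_sum, Matrix.sum_apply]
  apply Finset.sum_congr rfl
  intro a _
  rw [map_mul, aeval_C, map_pow, aeval_X, ← Algebra.smul_def, Matrix.smul_apply, smul_eq_mul]

theorem der_aeval (hE : E ∈ AffineRack.tangent ε) {M : Matrix (Fin n) (Fin n) A}
    (h0 : ∀ i j, ε (M i j) = 0) {m : ℕ} {e : Fin (m + 2) → A} (he0 : e 0 = 1)
    (he1 : ε (e 1) = 1) (i j : Fin n) : E ((aeval M (eP e)) i j) = E (M i j) := by
  rw [aeval_eP_apply, Fin.sum_univ_succ, Fin.sum_univ_succ, map_add, map_add, map_sum]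
  have h1 : E (e 0 * (M ^ ((0 : Fin (m + 2)) : ℕ)) i j) = 0 := by
    rw [he0, one_mul, Fin.val_zero, pow_zero, Matrix.one_apply]
    split_ifs
    · exact der_one hE
    · exact map_zero E
  have h2 : E (e (Fin.succ 0) * (M ^ ((Fin.succ (0 : Fin (m + 1))) : ℕ)) i j) = E (M i j) := by
    have h3 : ((Fin.succ (0 : Fin (m + 1))) : ℕ) = 1 := rfl
    have h4 : ε (e (Fin.succ 0)) = 1 := he1
    rw [h3, pow_one, hE, h0, h4, mul_zero, zero_add, one_mul]
  have h3 : ∀ a : Fin m, E (e a.succ.succ * (M ^ ((a.succ.succ : Fin (m + 2)) : ℕ)) i j) = 0 := by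
    intro a
    have h5 : ((a.succ.succ : Fin (m + 2)) : ℕ) = (a : ℕ) + 2 := rfl
    rw [h5, hE, der_pow hE h0, eps_pow h0, mul_zero, mul_zero, add_zero]
  rw [h1, h2, Finset.sum_eq_zero (fun a _ => h3 a), zero_add, add_zero]

end der

variable {k : Type u} [Field k] {n : ℕ} (D : Univ k (n + 2)) {c : Fin n → Fin n → Fin n → k}
  (hc : ∀ i a b l, ∑ j, c a b j * c i j l = ∑ j, c i a j * c j b l + ∑ j, c i b j * c a j l)

/-- The coordinate `V_i`. -/
noncomputable def cV (D : Univ k (n + 2)) (c : Fin n → Fin n → Fin n → k) (i : Fin n) : AA D c :=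
  algebraMap (MvPolynomial (Fin n) k) (AA D c) (MvPolynomial.X i)

/-- The matrix of the universal automorphism. -/
noncomputable def cG (D : Univ k (n + 2)) (c : Fin n → Fin n → Fin n → k) :
    Matrix (Fin n) (Fin n) (AA D c) :=
  (toPt (AlgHom.id k (AA D c))).g

theorem toPt_g {R : Type u} [CommRing R] [Algebra k R] (φ : AA D c →ₐ[k] R) (l j : Fin n) :
    (toPt φ).g l j = φ (cG D c l j) := by
  have h : (toPt φ).g = (cG D c).map φ := by
    rw [cG, ← g_map, ← toPt_comp, AlgHom.comp_id]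
  rw [h, Matrix.map_apply]

theorem toPt_op_v {R : Type u} [CommRing R] [Algebra k R] (φ ψ : AA D c →ₐ[k] R) (l : Fin n) :
    ((toPt φ).op hc (toPt ψ)).v l = ∑ j, φ (cG D c l j) * ψ (cV D c j) := by
  change (toPt φ).g.mulVec (toPt ψ).v l = _
  rw [Matrix.mulVec, dotProduct]
  apply Finset.sum_congr rfl
  intro j _
  rw [toPt_g]
  rfl

theorem nab_cV (l : Fin n) : nab hc D (cV D c l) = ∑ j, cG D c l j ⊗ₜ[k] cV D c j := by
  have h1 : toPt (nab hc D) =
      (toPt (D := D) (c := c) (R := AA D c ⊗[k] AA D c) Algebra.TensorProduct.includeLeft).op hc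
      (toPt (D := D) (c := c) (R := AA D c ⊗[k] AA D c) Algebra.TensorProduct.includeRight) := by
    rw [nab, toPt_symm]
  have h2 : (toPt (nab hc D)).v l = nab hc D (cV D c l) := rfl
  rw [← h2, h1, toPt_op_v]
  apply Finset.sum_congr rfl
  intro j _
  rw [Algebra.TensorProduct.includeLeft_apply, Algebra.TensorProduct.includeRight_apply,
    Algebra.TensorProduct.tmul_mul_tmul, mul_one, one_mul]

/-- The base point. -/
noncomputable def bE {e : Fin (n + 2) → k} {t : k} (h : D.Good (X ^ (n + 2)) e t)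
    (c : Fin n → Fin n → Fin n → k) : AA D c →ₐ[k] k :=
  (ptEquiv D c k).symm (basePoint h)

variable {D}

theorem bE_cV {e : Fin (n + 2) → k} {t : k} (h : D.Good (X ^ (n + 2)) e t) (i : Fin n) :
    bE D h c (cV D c i) = 0 := by
  have h1 : toPt (bE D h c) = basePoint h := toPt_symm _
  exact congrFun (congrArg Pt.v h1) i

theorem bE_e {e : Fin (n + 2) → k} {t : k} (h : D.Good (X ^ (n + 2)) e t) (i : Fin (n + 2)) :
    bE D h c ((toPt (AlgHom.id k (AA D c))).e i) = e i := by
  have h1 : toPt (bE D h c) = basePoint h := toPt_symm _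
  exact congrFun (congrArg Pt.e h1) i

theorem der_cG {e : Fin (n + 2) → k} {t : k} (h : D.Good (X ^ (n + 2)) e t) (he : e 1 = 1)
    {E : AA D c →ₗ[k] k} (hE : E ∈ AffineRack.tangent (bE D h c)) (l j : Fin n) :
    E (cG D c l j) = adM c (fun i => E (cV D c i)) l j := by
  have h0 : ∀ l j, bE D h c (adM c (fun i => cV D c i) l j) = 0 := by
    intro l j
    simp only [adM, Matrix.of_apply, map_sum, map_smul, bE_cV, smul_zero, Finset.sum_const_zero]
  have h1 : E (cG D c l j) = E (adM c (fun i => cV D c i) l j) :=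
    der_aeval hE h0 (g_e0 (toPt (AlgHom.id k (AA D c)))) ((bE_e h 1).trans he) l j
  rw [h1]
  simp only [adM, Matrix.of_apply, map_sum, map_smul]

theorem bracket_cV {e : Fin (n + 2) → k} {t : k} (h : D.Good (X ^ (n + 2)) e t) (he : e 1 = 1)
    {E F : AA D c →ₗ[k] k} (hE : E ∈ AffineRack.tangent (bE D h c)) (l : Fin n) :
    AffineRack.bracketFun (nab hc D) E F (cV D c l) =
      brk c (fun i => E (cV D c i)) (fun i => F (cV D c i)) l := by
  rw [← adM_mulVec, AffineRack.bracketFun, LinearMap.comp_apply, LinearMap.comp_apply,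
    AlgHom.toLinearMap_apply, nab_cV, map_sum, map_sum, Matrix.mulVec, dotProduct]
  apply Finset.sum_congr rfl
  intro j _
  rw [TensorProduct.map_tmul, LinearMap.mul'_apply, der_cG h he hE]

/-- Evaluation of tangent vectors at the coordinates. -/
noncomputable def evT {e : Fin (n + 2) → k} {t : k} (h : D.Good (X ^ (n + 2)) e t)
    (c : Fin n → Fin n → Fin n → k) : AffineRack.tangent (bE D h c) →ₗ[k] (Fin n → k) where
  toFun E := fun i => E.1 (cV D c i)
  map_add' := fun _ _ => rfl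
  map_smul' := fun _ _ => rfl

theorem evT_bijective {e : Fin (n + 2) → k} {t : k} (h : D.Good (X ^ (n + 2)) e t)
    (c : Fin n → Fin n → Fin n → k) : Function.Bijective (evT h c) := by
  have := ca_etale D (chiV c (fun i : Fin n => (MvPolynomial.X i : MvPolynomial (Fin n) k)))
  constructor
  · rw [injective_iff_map_eq_zero]
    intro E hE
    apply Subtype.ext
    exact tan_inj (bE D h c) E.2 (fun i => congrFun hE i)
  · intro w
    obtain ⟨E, hE, h1⟩ := tan_surj (A := AA D c) (bE D h c) w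
    exact ⟨⟨E, hE⟩, funext h1⟩

theorem aa_smooth (D : Univ k (n + 2)) (c : Fin n → Fin n → Fin n → k) :
    Algebra.Smooth k (AA D c) := by
  have := ca_etale D (chiV c (fun i : Fin n => (MvPolynomial.X i : MvPolynomial (Fin n) k)))
  have : Algebra.Smooth k (MvPolynomial (Fin n) k) := { }
  exact Algebra.Smooth.comp k (MvPolynomial (Fin n) k) (AA D c)

end Pool.Agent.Lib.H33S
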